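import Mathlib

/-!
# P3: averages along progressions in a finite abelian group

`av w L F x` is the average of `F` over `x, x + w, ..., x + (L-1) w`; `mn F` is the mean of `F`.
-/

namespace Pool.Agent.Lib.MP_a768d2_co

noncomputable section

variable {A : Type} [AddCommGroup A] [Fintype A]

/-- average of `F` over `x, x + w, ..., x + (L-1) w` -/
def av (w : A) (L : ℕ) (F : A → ℝ) (x : A) : ℝ := (∑ s ∈ Finset.range L, F (x + s • w)) / L

/-- mean -/
def mn (F : A → ℝ) : ℝ := (∑ x, F x) / Fintype.card A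

private theorem Av_card_pos : (0 : ℝ) < Fintype.card A := by
  have : 0 < Fintype.card A := Fintype.card_pos_iff.mpr ⟨0⟩
  exact_mod_cast this

theorem mn_mono {F G : A → ℝ} (h : ∀ x, F x ≤ G x) : mn F ≤ mn G := by
  unfold mn
  exact div_le_div_of_nonneg_right (Finset.sum_le_sum fun x _ => h x) (Nat.cast_nonneg _)

theorem mn_nonneg {F : A → ℝ} (h : ∀ x, 0 ≤ F x) : 0 ≤ mn F := by
  unfold mn
  exact div_nonneg (Finset.sum_nonneg fun x _ => h x) (Nat.cast_nonneg _)

theorem mn_add (F G : A → ℝ) : mn (fun x => F x + G x) = mn F + mn G := by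
  unfold mn
  rw [Finset.sum_add_distrib, add_div]

theorem mn_sub (F G : A → ℝ) : mn (fun x => F x - G x) = mn F - mn G := by
  unfold mn
  rw [Finset.sum_sub_distrib, sub_div]

theorem mn_smul (c : ℝ) (F : A → ℝ) : mn (fun x => c * F x) = c * mn F := by
  unfold mn
  rw [← Finset.mul_sum, mul_div_assoc]

theorem mn_const (c : ℝ) : mn (fun _ : A => c) = c := by
  unfold mn
  have h := Av_card_pos (A := A)
  rw [Finset.sum_const, Finset.card_univ, nsmul_eq_mul]
  field_simp

theorem mn_sum {I : Type} (T : Finset I) (F : I → A → ℝ) : mn (fun x => ∑ i ∈ T, F i x) = ∑ i ∈ T, mn (F i) := by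
  unfold mn
  rw [Finset.sum_comm, Finset.sum_div]

/-- translation invariance (`Equiv.sum_comp (Equiv.addRight a)`) -/
theorem mn_shift (F : A → ℝ) (a : A) : mn (fun x => F (x + a)) = mn F := by
  unfold mn
  have h := Equiv.sum_comp (Equiv.addRight a) F
  simp only [Equiv.coe_addRight] at h
  rw [h]

/-- Cauchy-Schwarz: `(mean F)² ≤ mean of F²` -/
theorem mn_sq_le (F : A → ℝ) : mn F ^ 2 ≤ mn (fun x => F x ^ 2) := by
  have h := mn_nonneg (F := fun x => (F x - mn F) ^ 2) (fun x => sq_nonneg _)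
  have h2 : mn (fun x => (F x - mn F) ^ 2) = mn (fun x => F x ^ 2) - mn F ^ 2 := by
    have e : (fun x => (F x - mn F) ^ 2) = fun x => (F x ^ 2 - (2 * mn F) * F x) + mn F ^ 2 := by
      funext x; ring
    rw [e, mn_add (fun x => F x ^ 2 - (2 * mn F) * F x) (fun _ => mn F ^ 2),
      mn_sub (fun x => F x ^ 2) (fun x => (2 * mn F) * F x), mn_smul, mn_const]
    ring
  rw [h2] at h
  linarith

theorem av_mono {w : A} {L : ℕ} {F G : A → ℝ} (h : ∀ x, F x ≤ G x) (x : A) : av w L F x ≤ av w L G x := by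
  unfold av
  exact div_le_div_of_nonneg_right (Finset.sum_le_sum fun s _ => h _) (Nat.cast_nonneg _)

theorem av_add (w : A) (L : ℕ) (F G : A → ℝ) (x : A) :
    av w L (fun y => F y + G y) x = av w L F x + av w L G x := by
  unfold av
  rw [Finset.sum_add_distrib, add_div]

theorem av_sub (w : A) (L : ℕ) (F G : A → ℝ) (x : A) :
    av w L (fun y => F y - G y) x = av w L F x - av w L G x := by
  unfold av
  rw [Finset.sum_sub_distrib, sub_div]

theorem av_const {w : A} {L : ℕ} (hL : 1 ≤ L) (c : ℝ) (x : A) : av w L (fun _ => c) x = c := by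
  unfold av
  have h : (0 : ℝ) < L := by exact_mod_cast hL
  rw [Finset.sum_const, Finset.card_range, nsmul_eq_mul]
  field_simp

theorem av_nonneg {w : A} {L : ℕ} {F : A → ℝ} (h : ∀ x, 0 ≤ F x) (x : A) : 0 ≤ av w L F x := by
  unfold av
  exact div_nonneg (Finset.sum_nonneg fun s _ => h _) (Nat.cast_nonneg _)

theorem av_abs_le {w : A} {L : ℕ} {F : A → ℝ} {B : ℝ} (hB : 0 ≤ B) (h : ∀ x, |F x| ≤ B) (x : A) :
    |av w L F x| ≤ B := by
  unfold av
  rw [abs_div, Nat.abs_cast]
  rcases Nat.eq_zero_or_pos L with hL | hL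
  · subst hL
    simpa using hB
  · have h0 : (0 : ℝ) < L := by exact_mod_cast hL
    rw [div_le_iff₀ h0]
    calc |∑ s ∈ Finset.range L, F (x + s • w)| ≤ ∑ s ∈ Finset.range L, |F (x + s • w)| :=
          Finset.abs_sum_le_sum_abs _ _
      _ ≤ ∑ _s ∈ Finset.range L, B := Finset.sum_le_sum fun s _ => h _
      _ = B * L := by rw [Finset.sum_const, Finset.card_range, nsmul_eq_mul, mul_comm]

theorem abs_av_le (w : A) (L : ℕ) (F : A → ℝ) (x : A) : |av w L F x| ≤ av w L (fun y => |F y|) x := by
  unfold av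
  rw [abs_div, Nat.abs_cast]
  exact div_le_div_of_nonneg_right (Finset.abs_sum_le_sum_abs _ _) (Nat.cast_nonneg _)

/-- an average commutes with translations -/
theorem av_trans (w : A) (L : ℕ) (F : A → ℝ) (a x : A) : av w L (fun y => F (y + a)) x = av w L F (x + a) := by
  unfold av
  congr 1
  refine Finset.sum_congr rfl fun s _ => ?_
  rw [add_right_comm]

theorem av_comm (w w' : A) (L L' : ℕ) (F : A → ℝ) : av w L (av w' L' F) = av w' L' (av w L F) := by
  funext x
  unfold av
  rw [← Finset.sum_div, ← Finset.sum_div, Finset.sum_comm, div_div, div_div, mul_comm (L' : ℝ) (L : ℝ)]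
  congr 1
  refine Finset.sum_congr rfl fun s _ => Finset.sum_congr rfl fun t _ => ?_
  rw [add_right_comm]

/-- the mean is preserved -/
theorem mn_av {w : A} {L : ℕ} (hL : 1 ≤ L) (F : A → ℝ) : mn (av w L F) = mn F := by
  have h0 : (0 : ℝ) < L := by exact_mod_cast hL
  have e : av w L F = fun x => (L : ℝ)⁻¹ * ∑ s ∈ Finset.range L, F (x + s • w) := by
    funext x; unfold av; rw [div_eq_inv_mul]
  rw [e, mn_smul, mn_sum (Finset.range L) (fun (s : ℕ) x => F (x + s • w))]
  have : ∀ s ∈ Finset.range L, mn (fun x => F (x + s • w)) = mn F := fun s _ => mn_shift F (s • w)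
  rw [Finset.sum_congr rfl this, Finset.sum_const, Finset.card_range, nsmul_eq_mul]
  field_simp

/-- the adjoint of `av w L` is `av (-w) L` -/
theorem av_adj (w : A) (L : ℕ) (F G : A → ℝ) :
    mn (fun x => av w L F x * G x) = mn (fun x => F x * av (-w) L G x) := by
  have e1 : (fun x => av w L F x * G x) =
      fun x => (L : ℝ)⁻¹ * ∑ s ∈ Finset.range L, F (x + s • w) * G x := by
    funext x; unfold av; rw [div_eq_inv_mul, mul_assoc, Finset.sum_mul]
  have e2 : (fun x => F x * av (-w) L G x) =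
      fun x => (L : ℝ)⁻¹ * ∑ s ∈ Finset.range L, F x * G (x + s • (-w)) := by
    funext x; unfold av; rw [div_eq_inv_mul, ← Finset.mul_sum]; ring
  rw [e1, e2, mn_smul, mn_smul, mn_sum (Finset.range L) (fun (s : ℕ) x => F (x + s • w) * G x),
    mn_sum (Finset.range L) (fun (s : ℕ) x => F x * G (x + s • (-w)))]
  congr 1
  refine Finset.sum_congr rfl fun s _ => ?_
  rw [← mn_shift (fun x => F x * G (x + s • (-w))) (s • w)]
  congr 1
  funext x
  have : x + s • w + s • (-w) = x := by rw [smul_neg]; abel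
  rw [this]

/-- Cauchy-Schwarz (`inner_mul_le_norm_mul_norm` or `sq_sum_le_card_mul_sum_sq`) -/
theorem av_sq_le (w : A) (L : ℕ) (F : A → ℝ) (x : A) : av w L F x ^ 2 ≤ av w L (fun y => F y ^ 2) x := by
  unfold av
  rcases Nat.eq_zero_or_pos L with hL | hL
  · subst hL
    simp
  · have h0 : (0 : ℝ) < L := by exact_mod_cast hL
    have h := sq_sum_le_card_mul_sum_sq (s := Finset.range L) (f := fun s => F (x + s • w))
    rw [Finset.card_range] at h
    rw [div_pow, div_le_div_iff₀ (by positivity) h0]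
    calc (∑ s ∈ Finset.range L, F (x + s • w)) ^ 2 * L
        ≤ (L * ∑ s ∈ Finset.range L, F (x + s • w) ^ 2) * L := mul_le_mul_of_nonneg_right h h0.le
      _ = (∑ s ∈ Finset.range L, F (x + s • w) ^ 2) * (L : ℝ) ^ 2 := by ring

/-- `av` is a contraction of `L²` -/
theorem mn_av_sq_le (w : A) (L : ℕ) (F : A → ℝ) : mn (fun x => av w L F x ^ 2) ≤ mn (fun x => F x ^ 2) := by
  rcases Nat.eq_zero_or_pos L with hL | hL
  · subst hL
    refine mn_mono fun x => ?_
    unfold av
    have h := sq_nonneg (F x)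
    simpa using h
  · calc mn (fun x => av w L F x ^ 2) ≤ mn (av w L (fun y => F y ^ 2)) := mn_mono fun x => av_sq_le w L F x
      _ = mn (fun x => F x ^ 2) := mn_av hL _

private theorem Av_shift_one {w : A} {L : ℕ} {F : A → ℝ} {B : ℝ} (h : ∀ x, |F x| ≤ B) (x : A) :
    |av w L F (x + w) - av w L F x| ≤ 2 * B / L := by
  unfold av
  rw [← sub_div, abs_div, Nat.abs_cast]
  refine div_le_div_of_nonneg_right ?_ (Nat.cast_nonneg _)
  have e : (∑ s ∈ Finset.range L, F (x + w + s • w)) - ∑ s ∈ Finset.range L, F (x + s • w) =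
      F (x + L • w) - F x := by
    rw [← Finset.sum_sub_distrib]
    have h1 := Finset.sum_range_sub (fun s => F (x + s • w)) L
    simp only [zero_smul, add_zero] at h1
    rw [← h1]
    refine Finset.sum_congr rfl fun s _ => ?_
    rw [add_smul, one_smul, add_assoc x w, add_comm w]
  rw [e]
  have h1 := abs_le.mp (h (x + L • w))
  have h2 := abs_le.mp (h x)
  rw [abs_le]
  constructor <;> linarith [h1.1, h1.2, h2.1, h2.2]

private theorem Av_shift_nat {w : A} {L : ℕ} {F : A → ℝ} {B : ℝ} (h : ∀ x, |F x| ≤ B) (d : ℕ) (x : A) :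
    |av w L F (x + d • w) - av w L F x| ≤ 2 * B * d / L := by
  induction d with
  | zero => simp
  | succ d ih =>
    have h1 := Av_shift_one (w := w) (L := L) h (x + d • w)
    have e : x + (d + 1) • w = x + d • w + w := by rw [add_smul, one_smul, add_assoc]
    rw [e]
    calc |av w L F (x + d • w + w) - av w L F x|
        = |(av w L F (x + d • w + w) - av w L F (x + d • w)) + (av w L F (x + d • w) - av w L F x)| := by
          congr 1; ring
      _ ≤ |av w L F (x + d • w + w) - av w L F (x + d • w)| + |av w L F (x + d • w) - av w L F x| :=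
          abs_add_le _ _
      _ ≤ 2 * B / L + 2 * B * d / L := add_le_add h1 ih
      _ = 2 * B * ((d + 1 : ℕ) : ℝ) / L := by push_cast; ring

/-- shifting by `d w` changes an average of length `L` by at most `2 B |d| / L`.  Proof: for `d : ℕ` by induction on
`d` (one step: two terms change), or directly for `d = 1` and then sum; for negative `d` exchange the two points. -/
theorem av_shift {w : A} {L : ℕ} {F : A → ℝ} {B : ℝ} (h : ∀ x, |F x| ≤ B) (d : ℤ) (x : A) :
    |av w L F (x + d • w) - av w L F x| ≤ 2 * B * |(d : ℝ)| / L := by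
  obtain ⟨n, hn | hn⟩ := Int.eq_nat_or_neg d
  · subst hn
    have := Av_shift_nat (w := w) (L := L) h n x
    simpa using this
  · subst hn
    have h1 := Av_shift_nat (w := w) (L := L) h n (x + (-(n : ℤ)) • w)
    have e : x + (-(n : ℤ)) • w + n • w = x := by
      rw [neg_smul, natCast_zsmul]; abel
    rw [e, abs_sub_comm] at h1
    simpa using h1

/-- expansion of the square of an average: for `M ≥ 1`,
`mean of (av w M F)² ≤ (1/M) mean of F² + (2/M²) ∑_{0<r<M} (M - r) mean of F(x) F(x + r w)`, stated with a sum over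
pairs: `mn ((av w M F)²) = (1/M²) ∑_{s,t<M} mn (x ↦ F x F(x + (t - s) w))`.  Proof: expand, translate by `s w`. -/
theorem mn_av_sq_eq (w : A) (M : ℕ) (F : A → ℝ) :
    mn (fun x => av w M F x ^ 2) =
      (∑ s ∈ Finset.range M, ∑ t ∈ Finset.range M, mn (fun x => F x * F (x + ((t : ℤ) - s) • w))) / (M : ℝ) ^ 2 := by
  have e : (fun x => av w M F x ^ 2) =
      fun x => ((M : ℝ) ^ 2)⁻¹ * ∑ s ∈ Finset.range M, ∑ t ∈ Finset.range M, F (x + s • w) * F (x + t • w) := by
    funext x
    unfold av
    rw [div_pow, div_eq_inv_mul, pow_two (∑ s ∈ Finset.range M, F (x + s • w)), Finset.sum_mul_sum]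
  rw [e, mn_smul, mn_sum (Finset.range M) (fun (s : ℕ) x => ∑ t ∈ Finset.range M, F (x + s • w) * F (x + t • w)),
    div_eq_inv_mul]
  congr 1
  refine Finset.sum_congr rfl fun s _ => ?_
  rw [mn_sum (Finset.range M) (fun (t : ℕ) x => F (x + s • w) * F (x + t • w))]
  refine Finset.sum_congr rfl fun t _ => ?_
  rw [← mn_shift (fun x => F x * F (x + ((t : ℤ) - s) • w)) (s • w)]
  congr 1
  funext x
  have : x + s • w + ((t : ℤ) - s) • w = x + t • w := by
    rw [sub_smul, natCast_zsmul, natCast_zsmul]; abel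
  rw [this]

end

end Pool.Agent.Lib.MP_a768d2_co
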