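import Pool.Agent.Lib.MP_a768d2_coP.Sq

/-!
# P3: energy increment
-/

namespace Pool.Agent.Lib.MP_a768d2_co

noncomputable section

variable {A : Type} [AddCommGroup A] [Fintype A]

/-- energy increment, one step -/
private theorem Chain_step {ι : ℤ × ℤ →+ A} {f : A → ℝ} (h0 : ∀ x, 0 ≤ f x) (h1 : ∀ x, f x ≤ 1)
    {e : ℝ} (he : 0 ≤ e) (he1 : e ≤ 1) {W L r L' : ℕ} (hL' : 1 ≤ L')
    (hr : 4 * (r : ℝ) * L' / L ≤ e) :
    mn (fun x => (PP ι (W * r) L' f x - PP ι W L f x) ^ 2) ≤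
      2 * (mn (fun x => PP ι (W * r) L' f x ^ 2) - mn (fun x => PP ι W L f x ^ 2)) + 6 * e := by
  have hf : ∀ x, |f x| ≤ 1 := fun x => abs_le.2 ⟨by linarith [h0 x], h1 x⟩
  have hG := fun x => PP_mem (ι := ι) (W := W * r) (L := L') h0 h1 x
  have hF := fun x => PP_mem (ι := ι) (W := W) (L := L) h0 h1 x
  have hH := fun x => PP_mem (ι := ι) (W := W) (L := L) (F := PP ι (W * r) L' f)
    (fun y => (hG y).1) (fun y => (hG y).2) x
  have hn : ∀ x, |PP ι W L (PP ι (W * r) L' f) x - PP ι W L f x| ≤ e := fun x =>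
    le_trans (PP_nest (ι := ι) (W := W) (L := L) (r := r) (L' := L') hL' hf x) hr
  have hen := PP_energy ι W L (PP ι (W * r) L' f)
  -- the pointwise inequality for the squares of the differences
  have hp : ∀ x, (PP ι (W * r) L' f x - PP ι W L f x) ^ 2 ≤
      2 * (PP ι (W * r) L' f x - PP ι W L (PP ι (W * r) L' f) x) ^ 2 + 2 * e := by
    intro x
    have hx := abs_le.1 (hn x)
    set a := PP ι (W * r) L' f x
    set b := PP ι W L (PP ι (W * r) L' f) x
    set c := PP ι W L f x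
    have h2 : (b - c) ^ 2 ≤ e := by nlinarith [hx.1, hx.2]
    nlinarith [sq_nonneg ((a - b) - (b - c))]
  have hq : ∀ x, PP ι W L f x ^ 2 - 2 * e ≤ PP ι W L (PP ι (W * r) L' f) x ^ 2 := by
    intro x
    have hx := abs_le.1 (hn x)
    have hb := hH x
    have hc := hF x
    set b := PP ι W L (PP ι (W * r) L' f) x
    set c := PP ι W L f x
    nlinarith [hx.1, hx.2, hb.1, hb.2, hc.1, hc.2]
  have hm1 := mn_mono hp
  have hm2 := mn_mono hq
  have e1 : mn (fun x => 2 * (PP ι (W * r) L' f x - PP ι W L (PP ι (W * r) L' f) x) ^ 2 + 2 * e) =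
      2 * mn (fun x => (PP ι (W * r) L' f x - PP ι W L (PP ι (W * r) L' f) x) ^ 2) + 2 * e := by
    rw [mn_add (fun x => 2 * (PP ι (W * r) L' f x - PP ι W L (PP ι (W * r) L' f) x) ^ 2)
      (fun _ => 2 * e), mn_smul, mn_const]
  have e2 : mn (fun x => PP ι W L f x ^ 2 - 2 * e) = mn (fun x => PP ι W L f x ^ 2) - 2 * e := by
    rw [mn_sub (fun x => PP ι W L f x ^ 2) (fun _ => 2 * e), mn_const]
  rw [e1] at hm1
  rw [e2] at hm2
  linarith

/-- ENERGY INCREMENT.  Proof.  Put `F j = PP ι (W j) (L j) (f i)` and `E j = mn (F j)²`.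
`F (j+1) - F j = (F (j+1) - P_j F (j+1)) + (P_j F (j+1) - F j)`, the second term is `≤ e` in absolute value by
`PP_nest`; so `mn (F (j+1) - F j)² ≤ 2 mn (F (j+1) - P_j F (j+1))² + 2 e² ≤ 2 (E (j+1) - mn (P_j F (j+1))²) + 2 e²`
by `PP_energy`, and `mn (P_j F (j+1))² ≥ E j - 2 e` as both functions are in `[0,1]` (`PP_mem`) and differ by `≤ e`.
So it is `≤ 2 (E (j+1) - E j) + 6 e`; the sum over `j < J` is `≤ 2 + 6 J e` (`0 ≤ E ≤ 1`).  Sum over `i ∈ I` and take
the smallest of the `J` values of `j`. -/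
theorem chain {ι : ℤ × ℤ →+ A} {I : Type} [Fintype I] (f : I → A → ℝ) (h0 : ∀ i x, 0 ≤ f i x)
    (h1 : ∀ i x, f i x ≤ 1) {J : ℕ} (hJ : 1 ≤ J) {e : ℝ} (he : 0 ≤ e) (he1 : e ≤ 1) (W L r : ℕ → ℕ)
    (hW : ∀ j < J, W (j + 1) = W j * r j) (hL : ∀ j ≤ J, 1 ≤ L j)
    (hr : ∀ j < J, 4 * (r j : ℝ) * L (j + 1) / L j ≤ e) :
    ∃ j < J, ∑ i, mn (fun x => (PP ι (W (j + 1)) (L (j + 1)) (f i) x - PP ι (W j) (L j) (f i) x) ^ 2) ≤
      (2 / J + 6 * e) * Fintype.card I := by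
  have hstep : ∀ i, ∀ j < J,
      mn (fun x => (PP ι (W (j + 1)) (L (j + 1)) (f i) x - PP ι (W j) (L j) (f i) x) ^ 2) ≤
        2 * (mn (fun x => PP ι (W (j + 1)) (L (j + 1)) (f i) x ^ 2) -
          mn (fun x => PP ι (W j) (L j) (f i) x ^ 2)) + 6 * e := by
    intro i j hj
    rw [hW j hj]
    exact Chain_step (h0 i) (h1 i) he he1 (hL (j + 1) (by omega)) (hr j hj)
  have hE0 : ∀ i j, 0 ≤ mn (fun x => PP ι (W j) (L j) (f i) x ^ 2) := fun i j =>
    mn_nonneg (fun x => sq_nonneg _)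
  have hE1 : ∀ i j, mn (fun x => PP ι (W j) (L j) (f i) x ^ 2) ≤ 1 := by
    intro i j
    have h := mn_mono (F := fun x => PP ι (W j) (L j) (f i) x ^ 2) (G := fun _ => (1 : ℝ)) (fun x => by
      have hx := PP_mem (ι := ι) (W := W j) (L := L j) (h0 i) (h1 i) x
      nlinarith [hx.1, hx.2])
    rwa [mn_const] at h
  have hsum : ∀ i, ∑ j ∈ Finset.range J,
      mn (fun x => (PP ι (W (j + 1)) (L (j + 1)) (f i) x - PP ι (W j) (L j) (f i) x) ^ 2) ≤
        2 + 6 * J * e := by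
    intro i
    calc ∑ j ∈ Finset.range J,
        mn (fun x => (PP ι (W (j + 1)) (L (j + 1)) (f i) x - PP ι (W j) (L j) (f i) x) ^ 2)
        ≤ ∑ j ∈ Finset.range J, (2 * (mn (fun x => PP ι (W (j + 1)) (L (j + 1)) (f i) x ^ 2) -
          mn (fun x => PP ι (W j) (L j) (f i) x ^ 2)) + 6 * e) :=
          Finset.sum_le_sum (fun j hj => hstep i j (Finset.mem_range.1 hj))
      _ = 2 * (mn (fun x => PP ι (W J) (L J) (f i) x ^ 2) -
          mn (fun x => PP ι (W 0) (L 0) (f i) x ^ 2)) + J * (6 * e) := by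
          rw [Finset.sum_add_distrib, ← Finset.mul_sum,
            Finset.sum_range_sub (fun j => mn (fun x => PP ι (W j) (L j) (f i) x ^ 2)) J,
            Finset.sum_const, Finset.card_range, nsmul_eq_mul]
      _ ≤ 2 + 6 * J * e := by
          have ha := hE1 i J
          have hb := hE0 i 0
          linarith
  have hJ0 : (0 : ℝ) < J := by exact_mod_cast hJ
  have htot : ∑ j ∈ Finset.range J, ∑ i,
      mn (fun x => (PP ι (W (j + 1)) (L (j + 1)) (f i) x - PP ι (W j) (L j) (f i) x) ^ 2) ≤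
        ∑ _j ∈ Finset.range J, (2 / J + 6 * e) * Fintype.card I := by
    rw [Finset.sum_comm, Finset.sum_const, Finset.card_range, nsmul_eq_mul]
    calc ∑ i, ∑ j ∈ Finset.range J,
        mn (fun x => (PP ι (W (j + 1)) (L (j + 1)) (f i) x - PP ι (W j) (L j) (f i) x) ^ 2)
        ≤ ∑ _i : I, (2 + 6 * (J : ℝ) * e) := Finset.sum_le_sum (fun i _ => hsum i)
      _ = (J : ℝ) * ((2 / J + 6 * e) * Fintype.card I) := by
          rw [Finset.sum_const, Finset.card_univ, nsmul_eq_mul]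
          field_simp
  obtain ⟨j, hj, hle⟩ := Finset.exists_le_of_sum_le
    (Finset.nonempty_range_iff.2 (by omega)) htot
  exact ⟨j, Finset.mem_range.1 hj, hle⟩

end

end Pool.Agent.Lib.MP_a768d2_co
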