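import Pool.Agent.Lib.MP_a768d2_coP.Final

/-!
# P3, corollary: a positive proportion of the points near one lattice
-/

namespace Pool.Agent.Lib.MP_a768d2_co

noncomputable section

/-- pigeonhole over cells: if `i ↦ f i ∈ [-m, m]²` then the indices of `S` in cells with fewer than `t` elements of `S` are
at most `(2m+1)² t` -/
theorem Cor_cells {I : Type} [DecidableEq I] (S : Finset I) (f : I → ℤ × ℤ) (m : ℕ) {t : ℝ} (ht : 0 ≤ t)
    (hf : ∀ i ∈ S, |(f i).1| ≤ m ∧ |(f i).2| ≤ m) :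
    ((S.filter (fun i => ((S.filter (fun j => f j = f i)).card : ℝ) < t)).card : ℝ) ≤ (2 * m + 1) ^ 2 * t := by
  classical
  obtain ⟨B, hB⟩ : ∃ B : Finset I, B = S.filter (fun i => ((S.filter (fun j => f j = f i)).card : ℝ) < t) := ⟨_, rfl⟩
  rw [← hB]
  have hmaps : ∀ i ∈ B, f i ∈ Finset.Icc (-(m : ℤ)) m ×ˢ Finset.Icc (-(m : ℤ)) m := by
    intro i hi
    rw [hB, Finset.mem_filter] at hi
    obtain ⟨h1, h2⟩ := hf i hi.1
    exact Finset.mem_product.2 ⟨Finset.mem_Icc.2 (abs_le.1 h1), Finset.mem_Icc.2 (abs_le.1 h2)⟩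
  rw [Finset.card_eq_sum_card_fiberwise hmaps]
  push_cast
  have h1 : ∀ y ∈ Finset.Icc (-(m : ℤ)) m ×ˢ Finset.Icc (-(m : ℤ)) m,
      ((B.filter (fun i => f i = y)).card : ℝ) ≤ t := by
    intro y _
    rcases (B.filter (fun i => f i = y)).eq_empty_or_nonempty with h | ⟨i, hi⟩
    · rw [h]; simpa using ht
    · rw [Finset.mem_filter] at hi
      have hi1 := hi.1
      rw [hB, Finset.mem_filter] at hi1
      refine le_trans ?_ hi1.2.le
      have : B.filter (fun i => f i = y) ⊆ S.filter (fun j => f j = f i) := by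
        intro j hj
        rw [Finset.mem_filter] at hj ⊢
        have hj1 := hj.1
        rw [hB, Finset.mem_filter] at hj1
        exact ⟨hj1.1, hj.2.trans hi.2.symm⟩
      exact_mod_cast Finset.card_le_card this
  refine (Finset.sum_le_sum h1).trans (le_of_eq ?_)
  rw [Finset.sum_const, Finset.card_product, Int.card_Icc, nsmul_eq_mul]
  have e1 : ((m : ℤ) + 1 - -(m : ℤ)).toNat = 2 * m + 1 := by omega
  rw [e1]
  push_cast
  ring

theorem lattice_subset (c ε κ C : ℝ) (hc : 0 < c) (hε : 0 < ε) (hκ : 0 < κ) (hC : 0 < C) :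
    ∃ N : ℕ, ∀ n : ℕ, N ≤ n → ∀ x : Fin n → ℂ,
      (∀ i, 0 ≤ (x i).re ∧ (x i).re ≤ 1 ∧ 0 ≤ (x i).im ∧ (x i).im ≤ 1) →
      (∀ i j, i ≠ j → ε / Real.sqrt (n : ℝ) < dist (x i) (x j)) →
      ∀ P a b : ℂ, Basis2 C n a b → ∀ S : Finset (Fin n), κ * n ≤ S.card →
        (∀ i ∈ S, ∃ s t : ℤ, dist (x i) (P + s * a + t * b) ≤ C / n) →
        ∃ i j l : Fin n, i ≠ j ∧ j ≠ l ∧ i ≠ l ∧
          EuclideanGeometry.angle (x i) (x j) (x l) < c / n := by
  classical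
  obtain ⟨C1, hC1⟩ : ∃ C1 : ℝ, C1 = 2 * max C 1 := ⟨_, rfl⟩
  have hCC1 : 2 * C ≤ C1 := by rw [hC1]; have := le_max_left C 1; linarith
  have h1C1 : 1 ≤ C1 := by rw [hC1]; have := le_max_right C 1; linarith
  have hC1pos : 0 < C1 := by linarith
  obtain ⟨R, hR⟩ : ∃ R : ℝ, R = 4 * C ^ 2 + 1 := ⟨_, rfl⟩
  have hR0 : 0 < R := by rw [hR]; positivity
  obtain ⟨θ0, hθ0⟩ : ∃ θ0 : ℝ, θ0 = min (κ / (18 * R ^ 2)) 1 := ⟨_, rfl⟩
  have hθ0p : 0 < θ0 := by rw [hθ0]; exact lt_min (by positivity) one_pos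
  have hθ0κ : θ0 ≤ κ / (18 * R ^ 2) := by rw [hθ0]; exact min_le_left _ _
  have hθ01 : θ0 ≤ 1 := by rw [hθ0]; exact min_le_right _ _
  obtain ⟨U, N, hmain⟩ := crystal3 c ε (κ / 2) C1 (θ0 / 4) hc hε (by positivity) h1C1 (by positivity) (by linarith)
  obtain ⟨Z, hZ⟩ : ∃ Z : ℝ, Z = 3 * (U + 1) / R + 2 * C / ε + 2 * C + 1 := ⟨_, rfl⟩
  refine ⟨max N ⌈Z ^ 2⌉₊, ?_⟩
  intro n hn x hx hsep P a b hab S hS hlat
  have hnN : N ≤ n := (le_max_left _ _).trans hn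
  obtain ⟨s, hs⟩ : ∃ s : ℝ, s = Real.sqrt n := ⟨_, rfl⟩
  have hsZ : Z ≤ s := by
    rw [hs]
    apply Real.le_sqrt_of_sq_le
    exact Nat.ceil_le.mp ((le_max_right _ _).trans hn)
  have hs2 : s ^ 2 = n := by rw [hs]; exact Real.sq_sqrt (Nat.cast_nonneg n)
  have q1 : 3 * (U + 1) / R ≤ s := by
    have : 0 ≤ 2 * C / ε + 2 * C + 1 := by positivity
    linarith
  have q2 : 2 * C / ε < s := by
    have : 0 < 3 * ((U : ℝ) + 1) / R + 2 * C := by positivity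
    linarith
  have q3 : 2 * C ≤ s := by
    have : 0 < 3 * ((U : ℝ) + 1) / R + 2 * C / ε := by positivity
    linarith
  have hs1 : 1 ≤ s := by
    have : 0 < 3 * ((U : ℝ) + 1) / R + 2 * C / ε + 2 * C := by positivity
    linarith
  have hs0 : 0 < s := by linarith
  have hn0 : (0 : ℝ) < n := by rw [← hs2]; positivity
  have hn1 : 1 ≤ n := by
    have : 0 < n := by exact_mod_cast hn0
    omega
  -- coordinates
  have hlat' : ∀ i : Fin n, ∃ z : ℤ × ℤ, i ∈ S → dist (x i) (P + z.1 * a + z.2 * b) ≤ C / n := by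
    intro i
    by_cases hi : i ∈ S
    · obtain ⟨s, t, h⟩ := hlat i hi
      exact ⟨(s, t), fun _ => h⟩
    · exact ⟨0, fun h => absurd h hi⟩
  choose z hz using hlat'
  have hdiff : ∀ i ∈ S, ∀ j ∈ S, ‖((((z j).1 - (z i).1 : ℤ) : ℝ) : ℂ) * a + ((((z j).2 - (z i).2 : ℤ) : ℝ) : ℂ) * b -
      (x j - x i)‖ ≤ 2 * (C / n) := by
    intro i hi j hj
    have h1 := hz i hi
    have h2 := hz j hj
    rw [dist_eq_norm] at h1 h2
    have e : ((((z j).1 - (z i).1 : ℤ) : ℝ) : ℂ) * a + ((((z j).2 - (z i).2 : ℤ) : ℝ) : ℂ) * b - (x j - x i) =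
        (x i - (P + (z i).1 * a + (z i).2 * b)) - (x j - (P + (z j).1 * a + (z j).2 * b)) := by
      push_cast
      ring
    rw [e]
    refine (norm_sub_le _ _).trans ?_
    linarith
  have hinj : ∀ i ∈ S, ∀ j ∈ S, z i = z j → i = j := by
    intro i hi j hj hij
    by_contra hne
    have h1 := hdiff i hi j hj
    rw [hij] at h1
    simp only [sub_self, Int.cast_zero, Complex.ofReal_zero, zero_mul, add_zero, zero_sub, norm_neg] at h1
    have h2 := hsep j i (Ne.symm hne)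
    rw [dist_eq_norm, ← hs] at h2
    have h3 : ε / s < 2 * (C / n) := h2.trans_le h1
    rw [← hs2, div_lt_iff₀ hs0] at h3
    have h4 : 2 * (C / s ^ 2) * s = 2 * C / s := by field_simp
    rw [h4, lt_div_iff₀ hs0] at h3
    rw [div_lt_iff₀ hε] at q2
    linarith
  rcases S.eq_empty_or_nonempty with hS0 | ⟨i0, hi0⟩
  · exfalso
    rw [hS0] at hS
    have : 0 < κ * n := by positivity
    simp only [Finset.card_empty, Nat.cast_zero] at hS
    linarith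
  have hdist : ∀ i j : Fin n, ‖x j - x i‖ ≤ 2 := by
    intro i j
    obtain ⟨a1, a2, a3, a4⟩ := hx i
    obtain ⟨b1, b2, b3, b4⟩ := hx j
    refine (Complex.norm_le_abs_re_add_abs_im _).trans ?_
    rw [Complex.sub_re, Complex.sub_im]
    have h1 : |(x j).re - (x i).re| ≤ 1 := by rw [abs_le]; constructor <;> linarith
    have h2 : |(x j).im - (x i).im| ≤ 1 := by rw [abs_le]; constructor <;> linarith
    linarith
  have hcoordz : ∀ j ∈ S, |(((z j).1 - (z i0).1 : ℤ) : ℝ)| ≤ R * s ∧ |(((z j).2 - (z i0).2 : ℤ) : ℝ)| ≤ R * s := by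
    intro j hj
    obtain ⟨c1, c2⟩ := coord_le hC hn1 hab (((z j).1 - (z i0).1 : ℤ) : ℝ) (((z j).2 - (z i0).2 : ℤ) : ℝ)
    rw [← hs] at c1 c2
    have h1 : ‖((((z j).1 - (z i0).1 : ℤ) : ℝ) : ℂ) * a + ((((z j).2 - (z i0).2 : ℤ) : ℝ) : ℂ) * b‖ ≤ 3 := by
      have h2 := hdiff i0 hi0 j hj
      have h3 := hdist i0 j
      have h4 : 2 * (C / n) ≤ 1 := by
        rw [← hs2, ← mul_div_assoc, div_le_one (by positivity)]
        nlinarith
      have h5 := norm_sub_norm_le (((((z j).1 - (z i0).1 : ℤ) : ℝ) : ℂ) * a + ((((z j).2 - (z i0).2 : ℤ) : ℝ) : ℂ) * b)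
        (x j - x i0)
      linarith
    have h6 : C ^ 2 * s * ‖((((z j).1 - (z i0).1 : ℤ) : ℝ) : ℂ) * a + ((((z j).2 - (z i0).2 : ℤ) : ℝ) : ℂ) * b‖ ≤ R * s := by
      have h7 : C ^ 2 * s * ‖((((z j).1 - (z i0).1 : ℤ) : ℝ) : ℂ) * a + ((((z j).2 - (z i0).2 : ℤ) : ℝ) : ℂ) * b‖ ≤
          C ^ 2 * s * 3 := mul_le_mul_of_nonneg_left h1 (by positivity)
      have h8 : C ^ 2 * s * 3 ≤ R * s := by
        rw [hR]
        have : 0 ≤ C ^ 2 * s := by positivity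
        nlinarith
      linarith
    exact ⟨c1.trans h6, c2.trans h6⟩
  -- cells
  obtain ⟨f, hf⟩ : ∃ f : Fin n → ℤ × ℤ, f = fun j =>
    (((z j).1 - (z i0).1) / ((U : ℤ) + 1), ((z j).2 - (z i0).2) / ((U : ℤ) + 1)) := ⟨_, rfl⟩
  obtain ⟨m, hm⟩ : ∃ m : ℕ, m = ⌈R * s / (U + 1)⌉₊ := ⟨_, rfl⟩
  have hU0 : (0 : ℝ) < (U : ℝ) + 1 := by positivity
  have hmle : R * s / (U + 1) ≤ m := by rw [hm]; exact Nat.le_ceil _
  have hmub : (m : ℝ) ≤ R * s / (U + 1) + 1 := by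
    rw [hm]
    exact (Nat.ceil_lt_add_one (by positivity)).le
  have hcell : ∀ y : ℤ, |(y : ℝ)| ≤ R * s → |y / ((U : ℤ) + 1)| ≤ m := by
    intro y hy
    have h1 : |(y : ℝ)| ≤ m * (U + 1) := by
      rw [div_le_iff₀ hU0] at hmle
      exact hy.trans hmle
    have h2 : |y| ≤ m * ((U : ℤ) + 1) := by exact_mod_cast h1
    have hU1 : (0 : ℤ) < (U : ℤ) + 1 := by positivity
    rw [abs_le] at h2 ⊢
    constructor
    · rw [Int.le_ediv_iff_mul_le hU1]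
      linarith
    · apply Int.ediv_le_of_le_mul hU1
      linarith
  have hfm : ∀ i ∈ S, |(f i).1| ≤ m ∧ |(f i).2| ≤ m := by
    intro i hi
    obtain ⟨h1, h2⟩ := hcoordz i hi
    rw [hf]
    exact ⟨hcell _ h1, hcell _ h2⟩
  have hbad := Cor_cells S f m (t := θ0 * ((U : ℝ) + 1) ^ 2) (by positivity) hfm
  obtain ⟨S', hS'⟩ : ∃ S' : Finset (Fin n), S' = S.filter (fun i =>
    ¬ ((S.filter (fun j => f j = f i)).card : ℝ) < θ0 * ((U : ℝ) + 1) ^ 2) := ⟨_, rfl⟩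
  have hbad2 : (2 * (m : ℝ) + 1) ^ 2 * (θ0 * ((U : ℝ) + 1) ^ 2) ≤ κ / 2 * n := by
    have h1 : 2 * (m : ℝ) + 1 ≤ 3 * (R * s / (U + 1)) := by
      have h2 : 3 ≤ R * s / (U + 1) := by
        rw [le_div_iff₀ hU0]
        rw [div_le_iff₀ hR0] at q1
        linarith
      linarith
    have h3 : (2 * (m : ℝ) + 1) ^ 2 ≤ (3 * (R * s / (U + 1))) ^ 2 := pow_le_pow_left₀ (by positivity) h1 2
    have h4 : (2 * (m : ℝ) + 1) ^ 2 * (θ0 * ((U : ℝ) + 1) ^ 2) ≤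
        (3 * (R * s / (U + 1))) ^ 2 * (κ / (18 * R ^ 2) * ((U : ℝ) + 1) ^ 2) :=
      mul_le_mul h3 (mul_le_mul_of_nonneg_right hθ0κ (by positivity)) (by positivity) (by positivity)
    refine h4.trans (le_of_eq ?_)
    rw [← hs2]
    field_simp
    ring
  have hS'card : κ / 2 * n ≤ S'.card := by
    have h1 := Finset.card_filter_add_card_filter_not (s := S) (fun i =>
      ((S.filter (fun j => f j = f i)).card : ℝ) < θ0 * ((U : ℝ) + 1) ^ 2)
    rw [← hS'] at h1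
    have h2 : ((S.filter (fun i => ((S.filter (fun j => f j = f i)).card : ℝ) < θ0 * ((U : ℝ) + 1) ^ 2)).card : ℝ) +
        S'.card = S.card := by exact_mod_cast h1
    linarith
  have hB : Basis2 C1 n a b := by
    obtain ⟨h1, h2, h3⟩ := hab
    have hCC : C ≤ C1 := by linarith
    have h4 : C / Real.sqrt n ≤ C1 / Real.sqrt n :=
      div_le_div_of_nonneg_right hCC (Real.sqrt_nonneg _)
    refine ⟨h1.trans h4, h2.trans h4, le_trans ?_ h3⟩
    apply one_div_le_one_div_of_le (by positivity)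
    exact mul_le_mul_of_nonneg_right hCC hn0.le
  refine hmain n hnN x hx hsep a b hB S' hS'card ?_
  intro i hi
  rw [hS', Finset.mem_filter, not_lt] at hi
  obtain ⟨hiS, hicard⟩ := hi
  have h1 : θ0 / 4 * (2 * (U : ℝ) + 1) ^ 2 ≤ θ0 * ((U : ℝ) + 1) ^ 2 := by
    have : (0 : ℝ) ≤ U := Nat.cast_nonneg U
    nlinarith
  refine h1.trans (hicard.trans ?_)
  have hfin : Finite {s : ℤ × ℤ // |s.1| ≤ U ∧ |s.2| ≤ U ∧ ∃ j, dist (x j) (x i + s.1 * a + s.2 * b) ≤ C1 / n} := by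
    apply Set.Finite.subset (s := {s : ℤ × ℤ | s ∈ Finset.Icc (-(U : ℤ)) U ×ˢ Finset.Icc (-(U : ℤ)) U})
      (Finset.finite_toSet _)
    rintro s ⟨h1, h2, _⟩
    exact Finset.mem_product.2 ⟨Finset.mem_Icc.2 (abs_le.1 h1), Finset.mem_Icc.2 (abs_le.1 h2)⟩
  have hdiv : ∀ y w : ℤ, y / ((U : ℤ) + 1) = w / ((U : ℤ) + 1) → |y - w| ≤ U := by
    intro y w h
    have hU1 : (0 : ℤ) < (U : ℤ) + 1 := by positivity
    have e1 := Int.emod_add_mul_ediv y ((U : ℤ) + 1)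
    have e2 := Int.emod_add_mul_ediv w ((U : ℤ) + 1)
    have a1 := Int.emod_nonneg y hU1.ne'
    have a2 := Int.emod_lt_of_pos y hU1
    have a3 := Int.emod_nonneg w hU1.ne'
    have a4 := Int.emod_lt_of_pos w hU1
    rw [h] at e1
    have e3 : y - w = y % ((U : ℤ) + 1) - w % ((U : ℤ) + 1) := by linarith
    rw [e3, abs_le]
    constructor <;> linarith
  have hmem : ∀ j : {j // j ∈ S.filter (fun j => f j = f i)}, |((z j.1).1 - (z i).1)| ≤ U ∧ |((z j.1).2 - (z i).2)| ≤ U ∧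
      ∃ l, dist (x l) (x i + (((z j.1).1 - (z i).1 : ℤ) : ℂ) * a + (((z j.1).2 - (z i).2 : ℤ) : ℂ) * b) ≤ C1 / n := by
    rintro ⟨j, hj⟩
    rw [Finset.mem_filter] at hj
    obtain ⟨hjS, hjf⟩ := hj
    rw [hf] at hjf
    have hj1 := hdiv _ _ (congrArg Prod.fst hjf)
    have hj2 := hdiv _ _ (congrArg Prod.snd hjf)
    have e1 : (z j).1 - (z i0).1 - ((z i).1 - (z i0).1) = (z j).1 - (z i).1 := by ring
    have e2 : (z j).2 - (z i0).2 - ((z i).2 - (z i0).2) = (z j).2 - (z i).2 := by ring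
    rw [e1] at hj1
    rw [e2] at hj2
    refine ⟨hj1, hj2, j, ?_⟩
    have h2 := hdiff i hiS j hjS
    rw [dist_comm, dist_eq_norm]
    have e3 : x i + (((z j).1 - (z i).1 : ℤ) : ℂ) * a + (((z j).2 - (z i).2 : ℤ) : ℂ) * b - x j =
        ((((z j).1 - (z i).1 : ℤ) : ℝ) : ℂ) * a + ((((z j).2 - (z i).2 : ℤ) : ℝ) : ℂ) * b - (x j - x i) := by
      push_cast
      ring
    rw [e3]
    refine h2.trans ?_
    rw [← mul_div_assoc]
    exact div_le_div_of_nonneg_right hCC1 hn0.le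
  have hle : Nat.card {j // j ∈ S.filter (fun j => f j = f i)} ≤
      Nat.card {s : ℤ × ℤ // |s.1| ≤ U ∧ |s.2| ≤ U ∧ ∃ j, dist (x j) (x i + s.1 * a + s.2 * b) ≤ C1 / n} := by
    apply Nat.card_le_card_of_injective (fun j : {j // j ∈ S.filter (fun j => f j = f i)} =>
      (⟨((z j.1).1 - (z i).1, (z j.1).2 - (z i).2), hmem j⟩ :
        {s : ℤ × ℤ // |s.1| ≤ U ∧ |s.2| ≤ U ∧ ∃ j, dist (x j) (x i + s.1 * a + s.2 * b) ≤ C1 / n}))
    intro j k hjk
    have h3 : ((z j.1).1 - (z i).1, (z j.1).2 - (z i).2) = ((z k.1).1 - (z i).1, (z k.1).2 - (z i).2) :=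
      congrArg (fun y : {s : ℤ × ℤ // |s.1| ≤ U ∧ |s.2| ≤ U ∧
        ∃ j, dist (x j) (x i + s.1 * a + s.2 * b) ≤ C1 / n} => y.1) hjk
    have h4 := congrArg Prod.fst h3
    have h5 := congrArg Prod.snd h3
    simp only at h4 h5
    apply Subtype.ext
    apply hinj j.1 (Finset.mem_filter.1 j.2).1 k.1 (Finset.mem_filter.1 k.2).1
    apply Prod.ext
    · linarith
    · linarith
  rw [Nat.card_eq_fintype_card, Fintype.card_coe] at hle
  exact_mod_cast hle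

end

end Pool.Agent.Lib.MP_a768d2_co
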