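import Pool.Agent.Lib.MP_a768d2_coP.Gauss

/-!
# P3: good presence sets
-/

namespace Pool.Agent.Lib.MP_a768d2_co

noncomputable section

open Classical in
/-- at least `θ M` of the sites `W (s + τ v)`, `τ < M`, are occupied -/
def Rich (Q : ℤ × ℤ → Prop) (θ : ℝ) (W M : ℕ) (v : ℤ × ℤ) (s : ℕ × ℕ) : Prop :=
  θ * M ≤ (((Finset.range M).filter (fun τ : ℕ =>
    Q ((W : ℤ) * (s.1 + τ * v.1), (W : ℤ) * (s.2 + τ * v.2)))).card : ℝ)

open Classical in
/-- the parameters `q` for which many rows of direction `g(q) u` are poor -/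
def badq (Q : ℤ × ℤ → Prop) (θ : ℝ) (W0 M W G L : ℕ) (u : ℤ × ℤ) : Finset (ℕ × ℕ) :=
  (gbox G).filter (fun q => θ / 4 * (L : ℝ) ^ 2 <
    (((gbox L).filter (fun s => ¬ Rich Q θ W M (gm (gg W0 G q) u) s)).card : ℝ))

open Classical in
/-- good presence sets: density at least `θ`, and for every small primitive `u` and most `q` most of the rows of
direction `g(q) u` are rich -/
def GoodZ (Q : ℤ × ℤ → Prop) (θ δ : ℝ) (k0 W0 M W G L : ℕ) : Prop :=
  θ * (L : ℝ) ^ 2 ≤ (((gbox L).filter (fun s => Q ((W : ℤ) * s.1, (W : ℤ) * s.2))).card : ℝ) ∧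
  ∀ u : ℤ × ℤ, nz u ≤ k0 → Int.gcd u.1 u.2 = 1 → ((badq Q θ W0 M W G L u).card : ℝ) ≤ δ * (G : ℝ) ^ 2

private theorem GoodZ_gbox_lt {L : ℕ} {s : ℕ × ℕ} (hs : s ∈ gbox L) : s.1 < L ∧ s.2 < L := by
  unfold gbox at hs
  rw [Finset.mem_product, Finset.mem_range, Finset.mem_range] at hs
  exact hs

private theorem GoodZ_abs_le {W s τ M L V : ℕ} {v : ℤ} (hs : s ≤ L) (hτ : τ ≤ M) (hv : |v| ≤ (V : ℤ)) :
    |(W : ℤ) * ((s : ℤ) + τ * v)| ≤ W * (L + M * V) := by
  rw [abs_mul, Nat.abs_cast]
  refine mul_le_mul_of_nonneg_left ?_ (Int.natCast_nonneg W)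
  refine (abs_add_le _ _).trans ?_
  rw [abs_mul, Nat.abs_cast, Nat.abs_cast]
  have h1 : (s : ℤ) ≤ L := by exact_mod_cast hs
  have h2 : (τ : ℤ) ≤ M := by exact_mod_cast hτ
  exact add_le_add h1 (mul_le_mul h2 hv (abs_nonneg v) (Int.natCast_nonneg M))

/-- monotonicity, with bounded range.  Proof: all the sites in the definition have `nz < R` (`nz_gm_le`); the first
count increases, rich rows stay rich, so `badq` decreases. -/
theorem GoodZ_mono {Q Q' : ℤ × ℤ → Prop} {θ δ : ℝ} {k0 W0 M W G L R : ℕ} (hW0 : 1 ≤ W0) (hG : 1 ≤ G)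
    (hR : W * (L + 6 * M * W0 * G * k0) ≤ R) (h : ∀ z : ℤ × ℤ, nz z ≤ R → Q z → Q' z)
    (hQ : GoodZ Q θ δ k0 W0 M W G L) : GoodZ Q' θ δ k0 W0 M W G L := by
  classical
  have hRz : (W : ℤ) * (L + 6 * M * W0 * G * k0) ≤ R := by exact_mod_cast hR
  have hW : (0 : ℤ) ≤ W := Int.natCast_nonneg W
  refine ⟨hQ.1.trans ?_, ?_⟩
  · have hsub : (gbox L).filter (fun s => Q ((W : ℤ) * s.1, (W : ℤ) * s.2)) ⊆
        (gbox L).filter (fun s => Q' ((W : ℤ) * s.1, (W : ℤ) * s.2)) := by
      intro s hs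
      rw [Finset.mem_filter] at hs ⊢
      refine ⟨hs.1, h _ ?_ hs.2⟩
      have h1 := GoodZ_gbox_lt hs.1
      have e1 := GoodZ_abs_le (W := W) (s := s.1) (τ := 0) (M := M) (L := L) (v := 0) (V := 6 * W0 * G * k0)
        h1.1.le (Nat.zero_le _) (by simp; positivity)
      have e2 := GoodZ_abs_le (W := W) (s := s.2) (τ := 0) (M := M) (L := L) (v := 0) (V := 6 * W0 * G * k0)
        h1.2.le (Nat.zero_le _) (by simp; positivity)
      simp only [Nat.cast_zero, zero_mul, add_zero] at e1 e2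
      unfold nz
      refine max_le (e1.trans ?_) (e2.trans ?_)
      · refine le_trans (le_of_eq ?_) hRz
        push_cast
        ring
      · refine le_trans (le_of_eq ?_) hRz
        push_cast
        ring
    exact_mod_cast Finset.card_le_card hsub
  · intro u hu hg
    refine le_trans ?_ (hQ.2 u hu hg)
    have hsub : badq Q' θ W0 M W G L u ⊆ badq Q θ W0 M W G L u := by
      intro q hq
      unfold badq at hq ⊢
      rw [Finset.mem_filter] at hq ⊢
      refine ⟨hq.1, lt_of_lt_of_le hq.2 ?_⟩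
      have hsub2 : (gbox L).filter (fun s => ¬ Rich Q' θ W M (gm (gg W0 G q) u) s) ⊆
          (gbox L).filter (fun s => ¬ Rich Q θ W M (gm (gg W0 G q) u) s) := by
        intro s hs
        rw [Finset.mem_filter] at hs ⊢
        refine ⟨hs.1, fun hr => hs.2 ?_⟩
        unfold Rich at hr ⊢
        refine le_trans hr ?_
        have hsub3 : (Finset.range M).filter (fun τ : ℕ =>
            Q ((W : ℤ) * (s.1 + τ * (gm (gg W0 G q) u).1), (W : ℤ) * (s.2 + τ * (gm (gg W0 G q) u).2))) ⊆
            (Finset.range M).filter (fun τ : ℕ =>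
            Q' ((W : ℤ) * (s.1 + τ * (gm (gg W0 G q) u).1), (W : ℤ) * (s.2 + τ * (gm (gg W0 G q) u).2))) := by
          intro τ hτ
          rw [Finset.mem_filter] at hτ ⊢
          refine ⟨hτ.1, h _ ?_ hτ.2⟩
          have h1 := GoodZ_gbox_lt hs.1
          have h2 : τ ≤ M := (Finset.mem_range.mp hτ.1).le
          have hn := nz_gm_le hW0 hG hq.1 u
          have hn2 : nz (gm (gg W0 G q) u) ≤ ((6 * W0 * G * k0 : ℕ) : ℤ) := by
            refine hn.trans ?_
            push_cast
            exact mul_le_mul_of_nonneg_left hu (by positivity)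
          have hv1 : |(gm (gg W0 G q) u).1| ≤ ((6 * W0 * G * k0 : ℕ) : ℤ) := (le_max_left _ _).trans hn2
          have hv2 : |(gm (gg W0 G q) u).2| ≤ ((6 * W0 * G * k0 : ℕ) : ℤ) := (le_max_right _ _).trans hn2
          have e1 := GoodZ_abs_le (W := W) (s := s.1) (τ := τ) (M := M) (L := L) (V := 6 * W0 * G * k0)
            h1.1.le h2 hv1
          have e2 := GoodZ_abs_le (W := W) (s := s.2) (τ := τ) (M := M) (L := L) (V := 6 * W0 * G * k0)
            h1.2.le h2 hv2
          unfold nz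
          refine max_le (e1.trans ?_) (e2.trans ?_)
          · refine le_trans (le_of_eq ?_) hRz
            push_cast
            ring
          · refine le_trans (le_of_eq ?_) hRz
            push_cast
            ring
        exact_mod_cast Finset.card_le_card hsub3
      exact_mod_cast Finset.card_le_card hsub2
    exact_mod_cast Finset.card_le_card hsub

private theorem GoodZ_edge {L B : ℕ} {g : ℤ} (hg : |g| ≤ B) :
    ((Finset.range L).filter (fun a : ℕ => ¬ (0 ≤ (a : ℤ) - g ∧ (a : ℤ) - g < L))).card ≤ B := by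
  obtain ⟨hg1, hg2⟩ := abs_le.mp hg
  rcases le_or_gt 0 g with h | h
  · have hsub : (Finset.range L).filter (fun a : ℕ => ¬ (0 ≤ (a : ℤ) - g ∧ (a : ℤ) - g < L)) ⊆ Finset.range B := by
      intro a ha
      rw [Finset.mem_filter, Finset.mem_range] at ha
      rw [Finset.mem_range]
      have h1 := ha.1
      have h2 := ha.2
      by_contra hc
      apply h2
      constructor
      · omega
      · omega
    exact (Finset.card_le_card hsub).trans (le_of_eq (Finset.card_range B))
  · have hsub : (Finset.range L).filter (fun a : ℕ => ¬ (0 ≤ (a : ℤ) - g ∧ (a : ℤ) - g < L)) ⊆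
        Finset.Ico (L - B) L := by
      intro a ha
      rw [Finset.mem_filter, Finset.mem_range] at ha
      rw [Finset.mem_Ico]
      have h1 := ha.1
      have h2 := ha.2
      refine ⟨?_, h1⟩
      by_contra hc
      apply h2
      constructor
      · omega
      · omega
    refine (Finset.card_le_card hsub).trans ?_
    rw [Nat.card_Ico]
    omega

/-- two good presence sets, a direction which is not bad for the first one, and a small shift `g`: there is a rich row
of the first one whose starting point, shifted by `g`, is occupied in the second one.  Proof: the set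
`S' = {s' ∈ gbox L : Q' (W s')}` has at least `θ L²` elements; at most `2 B L` of them have `s' - g ∉ gbox L`; at most
`θ L²/4` of the `s ∈ gbox L` are poor; `s' ↦ s' - g` is injective; `θ L² - 2 B L - θ L²/4 > 0`. -/
theorem exists_rich {Q Q' : ℤ × ℤ → Prop} {θ δ δ' : ℝ} {k0 W0 M W G L B : ℕ} (hθ : 0 < θ) (hL : 4 * (B : ℝ) < θ * L)
    (hQ' : GoodZ Q' θ δ' k0 W0 M W G L) {u : ℤ × ℤ} {q : ℕ × ℕ} (hq : q ∈ gbox G) (hqb : q ∉ badq Q θ W0 M W G L u)
    {g : ℤ × ℤ} (h1 : |g.1| ≤ B) (h2 : |g.2| ≤ B) :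
    ∃ s : ℕ × ℕ, Rich Q θ W M (gm (gg W0 G q) u) s ∧
      Q' ((W : ℤ) * (s.1 + g.1), (W : ℤ) * (s.2 + g.2)) := by
  classical
  by_contra hcon
  push Not at hcon
  have hB : (0 : ℝ) ≤ B := Nat.cast_nonneg B
  have hLpos : (0 : ℝ) < L := by
    rcases lt_or_ge (0 : ℝ) (L : ℝ) with h | h
    · exact h
    · exfalso
      have : θ * (L : ℝ) ≤ 0 := mul_nonpos_of_nonneg_of_nonpos hθ.le h
      linarith
  have hP : (((gbox L).filter (fun s => ¬ Rich Q θ W M (gm (gg W0 G q) u) s)).card : ℝ) ≤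
      θ / 4 * (L : ℝ) ^ 2 := by
    by_contra hc
    exact hqb (Finset.mem_filter.mpr ⟨hq, not_le.mp hc⟩)
  set S' := (gbox L).filter (fun s => Q' ((W : ℤ) * s.1, (W : ℤ) * s.2)) with hS'
  set P := (gbox L).filter (fun s => ¬ Rich Q θ W M (gm (gg W0 G q) u) s) with hPdef
  set X1 := (Finset.range L).filter (fun a : ℕ => ¬ (0 ≤ (a : ℤ) - g.1 ∧ (a : ℤ) - g.1 < L)) with hX1
  set X2 := (Finset.range L).filter (fun a : ℕ => ¬ (0 ≤ (a : ℤ) - g.2 ∧ (a : ℤ) - g.2 < L)) with hX2
  have hsub : S' ⊆ (X1 ×ˢ Finset.range L ∪ Finset.range L ×ˢ X2) ∪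
      P.image (fun s : ℕ × ℕ => (((s.1 : ℤ) + g.1).toNat, ((s.2 : ℤ) + g.2).toNat)) := by
    intro s hs
    rw [hS', Finset.mem_filter] at hs
    have hsL := GoodZ_gbox_lt hs.1
    by_cases c1 : 0 ≤ (s.1 : ℤ) - g.1 ∧ (s.1 : ℤ) - g.1 < L
    · by_cases c2 : 0 ≤ (s.2 : ℤ) - g.2 ∧ (s.2 : ℤ) - g.2 < L
      · rw [Finset.mem_union]
        right
        rw [Finset.mem_image]
        have t1 : ((((s.1 : ℤ) - g.1).toNat : ℕ) : ℤ) = (s.1 : ℤ) - g.1 := Int.toNat_of_nonneg c1.1
        have t2 : ((((s.2 : ℤ) - g.2).toNat : ℕ) : ℤ) = (s.2 : ℤ) - g.2 := Int.toNat_of_nonneg c2.1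
        refine ⟨(((s.1 : ℤ) - g.1).toNat, ((s.2 : ℤ) - g.2).toNat), ?_, ?_⟩
        · rw [hPdef, Finset.mem_filter]
          refine ⟨?_, fun hr => ?_⟩
          · unfold gbox
            rw [Finset.mem_product, Finset.mem_range, Finset.mem_range]
            dsimp only
            constructor
            · omega
            · omega
          · refine hcon _ hr ?_
            dsimp only
            rw [t1, t2]
            simpa using hs.2
        · dsimp only
          rw [t1, t2]
          simp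
      · rw [Finset.mem_union, Finset.mem_union]
        left
        right
        rw [Finset.mem_product]
        exact ⟨Finset.mem_range.mpr hsL.1, Finset.mem_filter.mpr ⟨Finset.mem_range.mpr hsL.2, c2⟩⟩
    · rw [Finset.mem_union, Finset.mem_union]
      left
      left
      rw [Finset.mem_product]
      exact ⟨Finset.mem_filter.mpr ⟨Finset.mem_range.mpr hsL.1, c1⟩, Finset.mem_range.mpr hsL.2⟩
  have hX1c : X1.card ≤ B := GoodZ_edge h1
  have hX2c : X2.card ≤ B := GoodZ_edge h2
  have hcard : S'.card ≤ (B * L + L * B) + P.card := by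
    refine (Finset.card_le_card hsub).trans ?_
    refine (Finset.card_union_le _ _).trans ?_
    refine add_le_add ?_ Finset.card_image_le
    refine (Finset.card_union_le _ _).trans ?_
    rw [Finset.card_product, Finset.card_product, Finset.card_range]
    exact add_le_add (Nat.mul_le_mul_right L hX1c) (Nat.mul_le_mul_left L hX2c)
  have hcardR : (S'.card : ℝ) ≤ ((B : ℝ) * L + L * B) + P.card := by exact_mod_cast hcard
  have hS := hQ'.1
  rw [← hS'] at hS
  have hfin : θ * (L : ℝ) ^ 2 ≤ 2 * ((B : ℝ) * L) + θ / 4 * (L : ℝ) ^ 2 := by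
    linarith
  have hlt : 4 * (B : ℝ) * L < θ * L * L := mul_lt_mul_of_pos_right hL hLpos
  have hpos : 0 < θ * (L : ℝ) ^ 2 := by positivity
  nlinarith

end

end Pool.Agent.Lib.MP_a768d2_co
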