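import Pool.Agent.Lib.MP_a768d2_co.GeoA
import Pool.Agent.Lib.MP_a768d2_coP.GoodZ

/-!
# P3: from good positions in the patches to good points
-/

namespace Pool.Agent.Lib.MP_a768d2_co

noncomputable section

/-- the group of positions of a patch of side `m` (padded) -/
abbrev Pos (m : ℕ) : Type := ZMod (2 * m) × ZMod (2 * m)

/-- the natural homomorphism -/
def iot (m : ℕ) : ℤ × ℤ →+ Pos m where
  toFun z := ((z.1 : ZMod (2 * m)), (z.2 : ZMod (2 * m)))
  map_zero' := by simp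
  map_add' := by intro z w; simp

/-- occupied positions of the patch of side `m = 2U+1` at the point `x i`; the position `(s,t)`, `0 ≤ s,t < m`, is the site
`x i + (s - U) a + (t - U) b` -/
def occ {n : ℕ} (x : Fin n → ℂ) (a b : ℂ) (r : ℝ) (U : ℕ) (i : Fin n) (z : Pos (2 * U + 1)) : Prop :=
  z.1.val < 2 * U + 1 ∧ z.2.val < 2 * U + 1 ∧
    ∃ j, dist (x j) (x i + (((z.1.val : ℤ) - U : ℤ) : ℂ) * a + (((z.2.val : ℤ) - U : ℤ) : ℂ) * b) ≤ r

/-- occupied sites of the lattice at the point `x l` -/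
def occZ {n : ℕ} (x : Fin n → ℂ) (a b : ℂ) (r : ℝ) (l : Fin n) (z : ℤ × ℤ) : Prop :=
  ∃ j, dist (x j) (x l + (z.1 : ℂ) * a + (z.2 : ℂ) * b) ≤ r

open Classical in
/-- the number of occupied positions is the number of occupied sites.  Proof: bijection `z ↦ (z.1 + U, z.2 + U)` from the
sites with `|z.1|, |z.2| ≤ U`. -/
theorem card_occ {n : ℕ} (x : Fin n → ℂ) (a b : ℂ) (r : ℝ) (U : ℕ) (i : Fin n) [Fintype (Pos (2 * U + 1))] :
    (Finset.univ.filter (fun z => occ x a b r U i z)).card =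
      Nat.card {s : ℤ × ℤ // |s.1| ≤ U ∧ |s.2| ≤ U ∧ ∃ j, dist (x j) (x i + s.1 * a + s.2 * b) ≤ r} := by
  have hne : NeZero (2 * (2 * U + 1)) := ⟨by omega⟩
  rw [Nat.subtype_card ((Finset.Icc (-(U : ℤ)) U ×ˢ Finset.Icc (-(U : ℤ)) U).filter
    (fun s : ℤ × ℤ => ∃ j, dist (x j) (x i + s.1 * a + s.2 * b) ≤ r))]
  · refine Finset.card_bij (fun z _ => ((z.1.val : ℤ) - U, (z.2.val : ℤ) - U)) ?_ ?_ ?_
    · intro z hz
      obtain ⟨h1, h2, j, hj⟩ := (Finset.mem_filter.1 hz).2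
      rw [Finset.mem_filter, Finset.mem_product, Finset.mem_Icc, Finset.mem_Icc]
      refine ⟨⟨⟨?_, ?_⟩, ?_, ?_⟩, j, hj⟩
      · simp only; omega
      · simp only; omega
      · simp only; omega
      · simp only; omega
    · intro z _ w _ hzw
      have e1 : (z.1.val : ℤ) - U = (w.1.val : ℤ) - U := congrArg Prod.fst hzw
      have e2 : (z.2.val : ℤ) - U = (w.2.val : ℤ) - U := congrArg Prod.snd hzw
      have f1 : z.1.val = w.1.val := by omega
      have f2 : z.2.val = w.2.val := by omega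
      exact Prod.ext (ZMod.val_injective _ f1) (ZMod.val_injective _ f2)
    · intro s hs
      rw [Finset.mem_filter, Finset.mem_product, Finset.mem_Icc, Finset.mem_Icc] at hs
      obtain ⟨⟨⟨a1, a2⟩, a3, a4⟩, j, hj⟩ := hs
      have v1 : (((s.1 + U).toNat : ℕ) : ZMod (2 * (2 * U + 1))).val = (s.1 + U).toNat :=
        ZMod.val_natCast_of_lt (by omega)
      have v2 : (((s.2 + U).toNat : ℕ) : ZMod (2 * (2 * U + 1))).val = (s.2 + U).toNat :=
        ZMod.val_natCast_of_lt (by omega)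
      have w1 : (((((s.1 + U).toNat : ℕ) : ZMod (2 * (2 * U + 1))).val : ℕ) : ℤ) - U = s.1 := by
        rw [v1]; omega
      have w2 : (((((s.2 + U).toNat : ℕ) : ZMod (2 * (2 * U + 1))).val : ℕ) : ℤ) - U = s.2 := by
        rw [v2]; omega
      refine ⟨((((s.1 + U).toNat : ℕ) : ZMod (2 * (2 * U + 1))), (((s.2 + U).toNat : ℕ) : ZMod (2 * (2 * U + 1)))),
        ?_, Prod.ext w1 w2⟩
      rw [Finset.mem_filter]
      refine ⟨Finset.mem_univ _, ?_, ?_, j, ?_⟩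
      · simp only; rw [v1]; omega
      · simp only; rw [v2]; omega
      · simp only; rw [w1, w2]; exact hj
  · intro s
    rw [Finset.mem_filter, Finset.mem_product, Finset.mem_Icc, Finset.mem_Icc, abs_le, abs_le]
    constructor
    · rintro ⟨⟨h1, h2⟩, h3⟩
      exact ⟨h1, h2, h3⟩
    · rintro ⟨h1, h2, h3⟩
      exact ⟨⟨h1, h2⟩, h3⟩

private theorem Pts_val {U : ℕ} {v : ZMod (2 * (2 * U + 1))} {t : ℤ} (h1 : v.val < 2 * U + 1)
    (h2 : (v + (t : ZMod (2 * (2 * U + 1)))).val < 2 * U + 1) (ht : |t| ≤ 2 * U) :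
    ((v + (t : ZMod (2 * (2 * U + 1)))).val : ℤ) = v.val + t := by
  have hne : NeZero (2 * (2 * U + 1)) := ⟨by omega⟩
  have hd : (((v + (t : ZMod (2 * (2 * U + 1)))).val - (v.val + t) : ℤ) : ZMod (2 * (2 * U + 1))) = 0 := by
    push_cast
    rw [ZMod.natCast_zmod_val, ZMod.natCast_zmod_val]
    ring
  rw [ZMod.intCast_zmod_eq_zero_iff_dvd] at hd
  obtain ⟨c, hc⟩ := hd
  rw [abs_le] at ht
  push_cast at hc
  have hc0 : c = 0 := by
    by_contra hne0
    rcases lt_or_gt_of_ne hne0 with h | h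
    · have : c ≤ -1 := by omega
      nlinarith
    · have : 1 ≤ c := by omega
      nlinarith
  rw [hc0] at hc
  linarith

/-- from a position `z0` of the patch of `x i` which is occupied by `x l`: the presence set at `z0` is contained, in the range
`nz z ≤ 2U`, in the presence set at `x l` with twice the error.  Proof: `z0 + ι z` occupied means: its representatives in
`[0, 2m)` are `< m`; `z0.val + z` is in `[-2U, 4U]`, contained in `(-m, 2m)`, and congruent to the representative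
modulo `2m`, so it is equal to it; hence `x j` is within `r` of `x i + (z0.val - U + z)·(a,b)`, and `x l` is within `r` of
`x i + (z0.val - U)·(a,b)`. -/
theorem occ_occZ {n : ℕ} {x : Fin n → ℂ} {a b : ℂ} {r : ℝ} {U : ℕ} {i l : Fin n} {z0 : Pos (2 * U + 1)}
    (h1 : z0.1.val < 2 * U + 1) (h2 : z0.2.val < 2 * U + 1)
    (h : dist (x l) (x i + (((z0.1.val : ℤ) - U : ℤ) : ℂ) * a + (((z0.2.val : ℤ) - U : ℤ) : ℂ) * b) ≤ r)
    {z : ℤ × ℤ} (hz : nz z ≤ 2 * U) (ho : occ x a b r U i (z0 + iot (2 * U + 1) z)) :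
    occZ x a b (2 * r) l z := by
  obtain ⟨g1, g2, j, hj⟩ := ho
  have hz1 : |z.1| ≤ 2 * (U : ℤ) := (le_max_left _ _).trans hz
  have hz2 : |z.2| ≤ 2 * (U : ℤ) := (le_max_right _ _).trans hz
  have e1 : (((z0 + iot (2 * U + 1) z).1.val : ℕ) : ℤ) = z0.1.val + z.1 := Pts_val h1 g1 hz1
  have e2 : (((z0 + iot (2 * U + 1) z).2.val : ℕ) : ℤ) = z0.2.val + z.2 := Pts_val h2 g2 hz2
  rw [e1, e2] at hj
  refine ⟨j, ?_⟩
  rw [dist_eq_norm] at h hj ⊢
  have h3 : x j - (x l + (z.1 : ℂ) * a + (z.2 : ℂ) * b) =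
      (x j - (x i + (((z0.1.val : ℤ) + z.1 - U : ℤ) : ℂ) * a + (((z0.2.val : ℤ) + z.2 - U : ℤ) : ℂ) * b)) -
      (x l - (x i + (((z0.1.val : ℤ) - U : ℤ) : ℂ) * a + (((z0.2.val : ℤ) - U : ℤ) : ℂ) * b)) := by
    push_cast
    ring
  rw [h3]
  refine (norm_sub_le _ _).trans ?_
  linarith

/-- points within `D/√n` of each other: at most `(2 ⌈2D/ε+1⌉ + 1)²` (this is the private lemma `GeoA_cell` of
`GeoA.lean`; copy its proof) -/
theorem Pts_cell {n : ℕ} {ε D : ℝ} (hε : 0 < ε) {s : ℝ} (hs : 0 < s) (x : Fin n → ℂ)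
    (hsep : ∀ i j, i ≠ j → ε / s < dist (x i) (x j)) (A : Finset (Fin n))
    (hA : ∀ i ∈ A, ∀ j ∈ A, ‖x i - x j‖ ≤ D / s) :
    (A.card : ℝ) ≤ (2 * ⌈2 * D / ε + 1⌉₊ + 1) ^ 2 := by
  classical
  rcases A.eq_empty_or_nonempty with rfl | ⟨i0, hi0⟩
  · simp
    positivity
  set M := ⌈2 * D / ε + 1⌉₊ with hM
  have hMle : 2 * D / ε + 1 ≤ M := Nat.le_ceil _
  set c : ℝ := 2 * s / ε with hc
  have hc0 : 0 < c := by positivity
  let f : Fin n → ℤ × ℤ := fun i => (⌊(x i).re * c⌋, ⌊(x i).im * c⌋)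
  have hinj : Set.InjOn f A := by
    intro i _ j _ hij
    by_contra hne
    have h1 := hsep i j hne
    have hf : ⌊(x i).re * c⌋ = ⌊(x j).re * c⌋ ∧ ⌊(x i).im * c⌋ = ⌊(x j).im * c⌋ :=
      ⟨congrArg Prod.fst hij, congrArg Prod.snd hij⟩
    have h2 : |(x i).re * c - (x j).re * c| < 1 := Int.abs_sub_lt_one_of_floor_eq_floor hf.1
    have h3 : |(x i).im * c - (x j).im * c| < 1 := Int.abs_sub_lt_one_of_floor_eq_floor hf.2
    have h4 : dist (x i) (x j) ≤ |(x i - x j).re| + |(x i - x j).im| := by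
      rw [dist_eq_norm]
      exact Complex.norm_le_abs_re_add_abs_im _
    rw [← sub_mul, abs_mul, abs_of_pos hc0] at h2 h3
    rw [Complex.sub_re, Complex.sub_im] at h4
    have h5 : dist (x i) (x j) * c < 2 := by nlinarith
    have h6 : ε / s * c = 2 := by
      rw [hc]
      field_simp
    have h7 : ε / s * c < dist (x i) (x j) * c := mul_lt_mul_of_pos_right h1 hc0
    linarith
  have hmaps : ∀ i ∈ A, f i ∈ Finset.Icc (⌊(x i0).re * c⌋ - M) (⌊(x i0).re * c⌋ + M) ×ˢ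
      Finset.Icc (⌊(x i0).im * c⌋ - M) (⌊(x i0).im * c⌋ + M) := by
    intro i hi
    have h1 := hA i hi i0 hi0
    have hre : |(x i - x i0).re| ≤ D / s := (Complex.abs_re_le_norm _).trans h1
    have him : |(x i - x i0).im| ≤ D / s := (Complex.abs_im_le_norm _).trans h1
    have gen : ∀ u v : ℝ, |u - v| ≤ D / s →
        ⌊u * c⌋ ∈ Finset.Icc (⌊v * c⌋ - (M : ℤ)) (⌊v * c⌋ + M) := by
      intro u v huv
      have h2 : |u - v| * c ≤ 2 * D / ε := by
        have h3 : |u - v| * c ≤ D / s * c := mul_le_mul_of_nonneg_right huv hc0.le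
        have h4 : D / s * c = 2 * D / ε := by
          rw [hc]
          field_simp
        linarith
      have h5 := neg_abs_le (u - v)
      have h6 := le_abs_self (u - v)
      have h7 : u * c ≤ v * c + 2 * D / ε := by nlinarith
      have h8 : v * c - 2 * D / ε ≤ u * c := by nlinarith
      have f1 := Int.floor_le (u * c)
      have f2 := Int.lt_floor_add_one (u * c)
      have f3 := Int.floor_le (v * c)
      have f4 := Int.lt_floor_add_one (v * c)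
      rw [Finset.mem_Icc]
      constructor
      · have : (⌊v * c⌋ : ℝ) - M < ⌊u * c⌋ + 1 := by linarith
        have h9 : (⌊v * c⌋ : ℤ) - (M : ℤ) < ⌊u * c⌋ + 1 := by exact_mod_cast this
        omega
      · have : (⌊u * c⌋ : ℝ) < ⌊v * c⌋ + M + 1 := by linarith
        have h9 : (⌊u * c⌋ : ℤ) < ⌊v * c⌋ + (M : ℤ) + 1 := by exact_mod_cast this
        omega
    rw [Finset.mem_product]
    exact ⟨gen _ _ (by rw [← Complex.sub_re]; exact hre), gen _ _ (by rw [← Complex.sub_im]; exact him)⟩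
  have hcard := Finset.card_le_card_of_injOn f hmaps hinj
  rw [Finset.card_product, Int.card_Icc, Int.card_Icc] at hcard
  have e1 : (⌊(x i0).re * c⌋ + (M : ℤ) + 1 - (⌊(x i0).re * c⌋ - (M : ℤ))).toNat = 2 * M + 1 := by omega
  have e2 : (⌊(x i0).im * c⌋ + (M : ℤ) + 1 - (⌊(x i0).im * c⌋ - (M : ℤ))).toNat = 2 * M + 1 := by omega
  rw [e1, e2] at hcard
  have : (A.card : ℝ) ≤ ((2 * M + 1) * (2 * M + 1) : ℕ) := by exact_mod_cast hcard
  push_cast at this
  linarith [this, sq (2 * (M : ℝ) + 1)]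

open Classical in
/-- DOUBLE COUNTING.  Proof: `n > 4 C⁶` and `n ≥ 1`.  For each pair `(i, z)` of the set in `hpairs` choose `l` with
`x l` within `C/n` of the site of `z`.  `(i,z) ↦ (i,l)` is injective: two different sites with the same `l` would be within
`2C/n` of each other, while by `coord_le` their distance is at least `1/(C² √n)`.  By `occ_occZ` and `GoodZ_mono`
(`R = 2U`) `l` is good.  For fixed `l` the possible `i` satisfy `|x i - x l| ≤ 2U C/√n + C/n ≤ 2 m C/√n`, `m = 2U+1`, so they are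
within `4 m C/√n` of each other and there are at most `(2⌈8 m C/ε + 1⌉ + 1)² ≤ m² (16 C/ε + 7)²` of them.  The number of
pairs is at least `θ3 |S| (2m)²`. -/
theorem pts {ε C κ θ3 : ℝ} (hε : 0 < ε) (hC : 1 ≤ C) (hκ : 0 < κ) (hθ3 : 0 < θ3) {n U : ℕ} (hn : 4 * C ^ 6 < n)
    {x : Fin n → ℂ} (hsep : ∀ i j, i ≠ j → ε / Real.sqrt (n : ℝ) < dist (x i) (x j)) {a b : ℂ}
    (hab : Basis2 C n a b) {S : Finset (Fin n)} (hS : κ * n ≤ S.card)
    {θ δ : ℝ} {k0 W0 M W G L : ℕ} (hW0 : 1 ≤ W0) (hG : 1 ≤ G) (hU : W * (L + 6 * M * W0 * G * k0) ≤ 2 * U)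
    [Fintype (Pos (2 * U + 1))]
    (hpairs : θ3 * S.card * (2 * (2 * (U : ℝ) + 1)) ^ 2 ≤
      ((Finset.univ.filter (fun p : {i // i ∈ S} × Pos (2 * U + 1) => occ x a b (C / n) U p.1.1 p.2 ∧
        GoodZ (fun z => occ x a b (C / n) U p.1.1 (p.2 + iot (2 * U + 1) z)) θ δ k0 W0 M W G L)).card : ℝ)) :
    4 * θ3 * κ / (16 * C / ε + 7) ^ 2 * n ≤
      ((Finset.univ.filter (fun l : Fin n => GoodZ (occZ x a b (2 * (C / n)) l) θ δ k0 W0 M W G L)).card : ℝ) := by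
  have hC0 : 0 < C := by linarith
  have hC6 : 1 ≤ C ^ 6 := one_le_pow₀ hC
  have hnR : (0 : ℝ) < n := by linarith
  have hnR1 : (1 : ℝ) ≤ n := by linarith
  have hn1 : 1 ≤ n := by exact_mod_cast hnR1
  obtain ⟨s, hs⟩ : ∃ s : ℝ, s = Real.sqrt n := ⟨_, rfl⟩
  have hs2 : s ^ 2 = n := by rw [hs]; exact Real.sq_sqrt hnR.le
  have hs0 : 0 < s := by rw [hs]; exact Real.sqrt_pos.2 hnR
  have hs1 : 1 ≤ s := by
    by_contra hneg
    push Not at hneg
    nlinarith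
  have hsC : 2 * C ^ 3 < s := by
    by_contra hneg
    push Not at hneg
    have h1 := pow_le_pow_left₀ hs0.le hneg 2
    have h2 : (2 * C ^ 3) ^ 2 = 4 * C ^ 6 := by ring
    linarith
  have hcoord := fun α β => coord_le hC0 hn1 hab α β
  obtain ⟨ha, hb, -⟩ := hab
  rw [← hs] at hsep hcoord ha hb
  have hCs : C / n ≤ C / s := by
    apply div_le_div_of_nonneg_left hC0.le hs0
    rw [← hs2]
    nlinarith
  obtain ⟨T, hT⟩ : ∃ T : Finset ({i // i ∈ S} × Pos (2 * U + 1)), T = Finset.univ.filter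
      (fun p : {i // i ∈ S} × Pos (2 * U + 1) => occ x a b (C / n) U p.1.1 p.2 ∧
        GoodZ (fun z => occ x a b (C / n) U p.1.1 (p.2 + iot (2 * U + 1) z)) θ δ k0 W0 M W G L) := ⟨_, rfl⟩
  rw [← hT] at hpairs
  have hTm : ∀ p ∈ T, occ x a b (C / n) U p.1.1 p.2 ∧
        GoodZ (fun z => occ x a b (C / n) U p.1.1 (p.2 + iot (2 * U + 1) z)) θ δ k0 W0 M W G L := by
    intro p hp
    rw [hT] at hp
    exact (Finset.mem_filter.1 hp).2
  have hex : ∀ p : {i // i ∈ S} × Pos (2 * U + 1), ∃ l, p ∈ T →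
      dist (x l) (x p.1.1 + (((p.2.1.val : ℤ) - U : ℤ) : ℂ) * a + (((p.2.2.val : ℤ) - U : ℤ) : ℂ) * b) ≤ C / n := by
    intro p
    by_cases hp : p ∈ T
    · obtain ⟨⟨_, _, j, hj⟩, _⟩ := hTm p hp
      exact ⟨j, fun _ => hj⟩
    · exact ⟨p.1.1, fun h => absurd h hp⟩
  choose f hf using hex
  obtain ⟨Lg, hLg⟩ : ∃ Lg : Finset (Fin n), Lg = Finset.univ.filter
      (fun l : Fin n => GoodZ (occZ x a b (2 * (C / n)) l) θ δ k0 W0 M W G L) := ⟨_, rfl⟩
  rw [← hLg]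
  have hgood : ∀ p ∈ T, f p ∈ Lg := by
    intro p hp
    obtain ⟨⟨h1, h2, _⟩, hg⟩ := hTm p hp
    rw [hLg]
    refine Finset.mem_filter.2 ⟨Finset.mem_univ _, GoodZ_mono hW0 hG hU ?_ hg⟩
    intro z hz ho
    exact occ_occZ h1 h2 (hf p hp) (by exact_mod_cast hz) ho
  obtain ⟨N, hN⟩ : ∃ N : ℕ, N = (2 * ⌈2 * (2 * (2 * (U : ℝ) + 1) * C) / ε + 1⌉₊ + 1) ^ 2 := ⟨_, rfl⟩
  -- the points of a fibre are close to `x l`
  have hclose : ∀ p ∈ T, ‖x p.1.1 - x (f p)‖ ≤ (2 * (U : ℝ) + 1) * C / s := by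
    intro p hp
    obtain ⟨⟨h1, h2, _⟩, _⟩ := hTm p hp
    have h3 := hf p hp
    rw [dist_eq_norm] at h3
    have k1 : |(((p.2.1.val : ℤ) - U : ℤ) : ℝ)| ≤ U := by
      have : |((p.2.1.val : ℤ) - U : ℤ)| ≤ (U : ℤ) := by rw [abs_le]; constructor <;> omega
      exact_mod_cast this
    have k2 : |(((p.2.2.val : ℤ) - U : ℤ) : ℝ)| ≤ U := by
      have : |((p.2.2.val : ℤ) - U : ℤ)| ≤ (U : ℤ) := by rw [abs_le]; constructor <;> omega
      exact_mod_cast this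
    have hU0 : (0 : ℝ) ≤ U := Nat.cast_nonneg U
    have m1 : ‖((((p.2.1.val : ℤ) - U : ℤ)) : ℂ) * a‖ ≤ U * (C / s) := by
      rw [norm_mul, Complex.norm_intCast]
      exact mul_le_mul k1 ha (norm_nonneg _) hU0
    have m2 : ‖((((p.2.2.val : ℤ) - U : ℤ)) : ℂ) * b‖ ≤ U * (C / s) := by
      rw [norm_mul, Complex.norm_intCast]
      exact mul_le_mul k2 hb (norm_nonneg _) hU0
    have e : x p.1.1 - x (f p) = -(x (f p) - (x p.1.1 + (((p.2.1.val : ℤ) - U : ℤ) : ℂ) * a +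
        (((p.2.2.val : ℤ) - U : ℤ) : ℂ) * b)) - ((((p.2.1.val : ℤ) - U : ℤ)) : ℂ) * a -
        ((((p.2.2.val : ℤ) - U : ℤ)) : ℂ) * b := by ring
    rw [e]
    refine (norm_sub_le _ _).trans ?_
    have n1 := norm_sub_le (-(x (f p) - (x p.1.1 + (((p.2.1.val : ℤ) - U : ℤ) : ℂ) * a +
        (((p.2.2.val : ℤ) - U : ℤ) : ℂ) * b))) (((((p.2.1.val : ℤ) - U : ℤ)) : ℂ) * a)
    rw [norm_neg] at n1
    have e2 : (2 * (U : ℝ) + 1) * C / s = U * (C / s) + U * (C / s) + C / s := by ring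
    linarith
  have hinj : ∀ p ∈ T, ∀ p' ∈ T, f p = f p' → p.1.1 = p'.1.1 → p = p' := by
    intro p hp p' hp' hfp hi
    have hi' : p.1 = p'.1 := Subtype.ext hi
    have h1 := hf p hp
    have h2 := hf p' hp'
    rw [← hfp, ← hi] at h2
    rw [dist_eq_norm] at h1 h2
    obtain ⟨c1, c2⟩ := hcoord (((p.2.1.val : ℤ) - p'.2.1.val : ℤ) : ℝ) (((p.2.2.val : ℤ) - p'.2.2.val : ℤ) : ℝ)
    have e : ((((p.2.1.val : ℤ) - p'.2.1.val : ℤ) : ℝ) : ℂ) * a + ((((p.2.2.val : ℤ) - p'.2.2.val : ℤ) : ℝ) : ℂ) * b =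
        (x (f p) - (x p.1.1 + (((p'.2.1.val : ℤ) - U : ℤ) : ℂ) * a + (((p'.2.2.val : ℤ) - U : ℤ) : ℂ) * b)) -
        (x (f p) - (x p.1.1 + (((p.2.1.val : ℤ) - U : ℤ) : ℂ) * a + (((p.2.2.val : ℤ) - U : ℤ) : ℂ) * b)) := by
      push_cast
      ring
    have hnorm : ‖((((p.2.1.val : ℤ) - p'.2.1.val : ℤ) : ℝ) : ℂ) * a + ((((p.2.2.val : ℤ) - p'.2.2.val : ℤ) : ℝ) : ℂ) * b‖ ≤
        2 * (C / n) := by
      rw [e]
      refine (norm_sub_le _ _).trans ?_
      linarith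
    have hlt : C ^ 2 * s * (2 * (C / n)) < 1 := by
      rw [← hs2]
      have : C ^ 2 * s * (2 * (C / s ^ 2)) = 2 * C ^ 3 / s := by field_simp
      rw [this, div_lt_one hs0]
      exact hsC
    have hCs0 : 0 ≤ C ^ 2 * s := by positivity
    have hb2 := mul_le_mul_of_nonneg_left hnorm hCs0
    have l1 : |(((p.2.1.val : ℤ) - p'.2.1.val : ℤ) : ℝ)| < 1 := by linarith
    have l2 : |(((p.2.2.val : ℤ) - p'.2.2.val : ℤ) : ℝ)| < 1 := by linarith
    have l3 : |((p.2.1.val : ℤ) - p'.2.1.val)| < 1 := by exact_mod_cast l1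
    have l4 : |((p.2.2.val : ℤ) - p'.2.2.val)| < 1 := by exact_mod_cast l2
    have l5 := Int.abs_lt_one_iff.1 l3
    have l6 := Int.abs_lt_one_iff.1 l4
    have hne : NeZero (2 * (2 * U + 1)) := ⟨by omega⟩
    have v1 : p.2.1.val = p'.2.1.val := by omega
    have v2 : p.2.2.val = p'.2.2.val := by omega
    exact Prod.ext hi' (Prod.ext (ZMod.val_injective _ v1) (ZMod.val_injective _ v2))
  have hfib : ∀ l ∈ Lg, (T.filter (fun p => f p = l)).card ≤ N := by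
    intro l _
    have hinj' : Set.InjOn (fun p : {i // i ∈ S} × Pos (2 * U + 1) => p.1.1) (T.filter (fun p => f p = l)) := by
      intro p hp p' hp' hpp
      rw [Finset.mem_coe, Finset.mem_filter] at hp hp'
      exact hinj p hp.1 p' hp'.1 (hp.2.trans hp'.2.symm) hpp
    rw [← Finset.card_image_of_injOn hinj']
    have hcell := Pts_cell (D := 2 * (2 * (U : ℝ) + 1) * C) hε hs0 x hsep
      ((T.filter (fun p => f p = l)).image (fun p : {i // i ∈ S} × Pos (2 * U + 1) => p.1.1)) (by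
        intro i hi j hj
        rw [Finset.mem_image] at hi hj
        obtain ⟨p, hp, rfl⟩ := hi
        obtain ⟨p', hp', rfl⟩ := hj
        rw [Finset.mem_filter] at hp hp'
        have h1 := hclose p hp.1
        have h2 := hclose p' hp'.1
        rw [hp.2] at h1
        rw [hp'.2] at h2
        have e : x p.1.1 - x p'.1.1 = (x p.1.1 - x l) - (x p'.1.1 - x l) := by ring
        rw [e]
        refine (norm_sub_le _ _).trans ?_
        have e2 : 2 * (2 * (U : ℝ) + 1) * C / s = (2 * (U : ℝ) + 1) * C / s + (2 * (U : ℝ) + 1) * C / s := by ring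
        linarith)
    rw [hN]
    exact_mod_cast hcell
  have hcard : T.card ≤ N * Lg.card := Finset.card_le_mul_card_image_of_maps_to hgood N hfib
  have hcardR : (T.card : ℝ) ≤ N * Lg.card := by exact_mod_cast hcard
  have hU0 : (0 : ℝ) ≤ U := Nat.cast_nonneg U
  have hN1 : (N : ℝ) ≤ ((2 * (U : ℝ) + 1) * (16 * C / ε + 7)) ^ 2 := by
    rw [hN]
    push_cast
    apply pow_le_pow_left₀ (by positivity)
    have h1 : (⌈2 * (2 * (2 * (U : ℝ) + 1) * C) / ε + 1⌉₊ : ℝ) < 2 * (2 * (2 * (U : ℝ) + 1) * C) / ε + 1 + 1 :=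
      Nat.ceil_lt_add_one (by positivity)
    have h2 : 2 * (2 * (2 * (U : ℝ) + 1) * C) / ε = (2 * (U : ℝ) + 1) * (4 * C / ε) := by ring
    rw [h2] at h1
    have h3 : 0 ≤ C / ε := by positivity
    have h4 : (2 * (U : ℝ) + 1) * (16 * C / ε + 7) = (2 * (U : ℝ) + 1) * (16 * (C / ε)) + (2 * (U : ℝ) + 1) * 7 := by ring
    have h5 : (2 * (U : ℝ) + 1) * (4 * C / ε) = (2 * (U : ℝ) + 1) * (4 * (C / ε)) := by ring
    rw [h4, h2, h5]
    rw [h5] at h1
    have h6 : (2 * (U : ℝ) + 1) * (8 * (C / ε)) ≤ (2 * (U : ℝ) + 1) * (16 * (C / ε)) :=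
      mul_le_mul_of_nonneg_left (by linarith) (by linarith)
    have h7 : (2 * (U : ℝ) + 1) * (8 * (C / ε)) = 2 * ((2 * (U : ℝ) + 1) * (4 * (C / ε))) := by ring
    linarith
  have hLg0 : (0 : ℝ) ≤ Lg.card := Nat.cast_nonneg _
  have hK : 0 < 16 * C / ε + 7 := by positivity
  have hm0 : 0 < 2 * (U : ℝ) + 1 := by linarith
  have hfin : θ3 * (κ * n) * (2 * (2 * (U : ℝ) + 1)) ^ 2 ≤ ((2 * (U : ℝ) + 1) * (16 * C / ε + 7)) ^ 2 * Lg.card := by
    have h1 : θ3 * (κ * n) * (2 * (2 * (U : ℝ) + 1)) ^ 2 ≤ θ3 * S.card * (2 * (2 * (U : ℝ) + 1)) ^ 2 :=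
      mul_le_mul_of_nonneg_right (mul_le_mul_of_nonneg_left hS hθ3.le) (by positivity)
    have h2 : (N : ℝ) * Lg.card ≤ ((2 * (U : ℝ) + 1) * (16 * C / ε + 7)) ^ 2 * Lg.card :=
      mul_le_mul_of_nonneg_right hN1 hLg0
    linarith
  have h3 : 4 * θ3 * κ / (16 * C / ε + 7) ^ 2 * n = 4 * θ3 * κ * n / (16 * C / ε + 7) ^ 2 := by ring
  rw [h3, div_le_iff₀ (by positivity)]
  have h4 : (2 * (U : ℝ) + 1) ^ 2 * (4 * θ3 * κ * n) ≤ (2 * (U : ℝ) + 1) ^ 2 * (Lg.card * (16 * C / ε + 7) ^ 2) := by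
    calc (2 * (U : ℝ) + 1) ^ 2 * (4 * θ3 * κ * n) = θ3 * (κ * n) * (2 * (2 * (U : ℝ) + 1)) ^ 2 := by ring
      _ ≤ _ := hfin
      _ = _ := by ring
  exact le_of_mul_le_mul_left h4 (by positivity)

end

end Pool.Agent.Lib.MP_a768d2_co
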