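import Pool.Agent.Lib.MP_a768d2_coP.Pw

/-!
# P3: selection of the good positions
-/

namespace Pool.Agent.Lib.MP_a768d2_co

noncomputable section

variable {A : Type} [AddCommGroup A] [Fintype A]

private theorem Sel_markov {β : Type} [Fintype β] (g : β → ℝ) (h0 : ∀ b, 0 ≤ g b) (c : ℝ) (T : Finset β)
    (hT : ∀ b ∈ T, c ≤ g b) : (T.card : ℝ) * c ≤ ∑ b, g b := by
  calc (T.card : ℝ) * c = ∑ _b ∈ T, c := by rw [Finset.sum_const, nsmul_eq_mul]
    _ ≤ ∑ b ∈ T, g b := Finset.sum_le_sum hT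
    _ ≤ ∑ b, g b := Finset.sum_le_sum_of_subset_of_nonneg (Finset.subset_univ T) fun s _ _ => h0 s

private theorem Sel_card : (0 : ℝ) < Fintype.card A := by
  have : Nonempty A := ⟨0⟩
  exact_mod_cast Fintype.card_pos

private theorem Sel_sum (g : A → ℝ) : ∑ x, g x = Fintype.card A * mn g := by
  unfold mn
  have := (Sel_card (A := A)).ne'
  field_simp

private theorem Sel_ind (Q : A → Prop) (x : A) : 0 ≤ ind Q x ∧ ind Q x ≤ 1 := by
  unfold ind
  split_ifs <;> norm_num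

/-- the first count, one index -/
private theorem Sel_one {ι : ℤ × ℤ →+ A} {Q : A → Prop} {θ : ℝ} {W Le : ℕ} (hθ : 0 < θ) (hLe : 1 ≤ Le)
    (T : Finset A) (hT : ∀ x, Q x → θ ^ 2 / 2 ≤ PP ι W Le (ind Q) x → x ∈ T) (S : Finset A)
    (hS : ∀ x ∈ S, Q x) (hQ : θ * Fintype.card A ≤ (S.card : ℝ)) :
    θ ^ 2 / 2 * Fintype.card A ≤ (T.card : ℝ) := by
  classical
  have hn := Sel_card (A := A)
  have h1 : θ ≤ mn (ind Q) := by
    unfold mn
    rw [le_div_iff₀ hn]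
    refine hQ.trans ?_
    have h2 := Sel_markov (ind Q) (fun x => (Sel_ind Q x).1) 1 S (fun x hx => by
      unfold ind
      rw [if_pos (hS x hx)])
    linarith
  have h2 : θ ^ 2 ≤ mn (fun x => ind Q x * PP ι W Le (ind Q) x) :=
    (pow_le_pow_left₀ hθ.le h1 2).trans (mn_mul_PP ι W hLe (ind Q))
  have h3 : ∀ x, ind Q x * PP ι W Le (ind Q) x ≤ (if x ∈ T then (1 : ℝ) else 0) + θ ^ 2 / 2 := by
    intro x
    have hP := PP_mem (ι := ι) (W := W) (L := Le) (fun x => (Sel_ind Q x).1) (fun x => (Sel_ind Q x).2) x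
    have hθ2 : 0 ≤ θ ^ 2 / 2 := by positivity
    by_cases hq : Q x
    · by_cases hp : θ ^ 2 / 2 ≤ PP ι W Le (ind Q) x
      · rw [if_pos (hT x hq hp)]
        have e1 : ind Q x = 1 := by
          unfold ind
          rw [if_pos hq]
        rw [e1]
        linarith [hP.2]
      · push Not at hp
        have e1 : ind Q x = 1 := by
          unfold ind
          rw [if_pos hq]
        have e2 : (0 : ℝ) ≤ if x ∈ T then (1 : ℝ) else 0 := by
          split_ifs <;> norm_num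
        rw [e1]
        linarith
    · have e1 : ind Q x = 0 := by
        unfold ind
        rw [if_neg hq]
      have e2 : (0 : ℝ) ≤ if x ∈ T then (1 : ℝ) else 0 := by
        split_ifs <;> norm_num
      rw [e1, zero_mul]
      linarith
  have h4 := h2.trans (mn_mono h3)
  rw [mn_add, mn_const] at h4
  have h5 : mn (fun x => if x ∈ T then (1 : ℝ) else 0) = (T.card : ℝ) / Fintype.card A := by
    unfold mn
    rw [Finset.sum_ite_mem, Finset.univ_inter, Finset.sum_const, nsmul_eq_mul, mul_one]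
  rw [h5] at h4
  have h6 : θ ^ 2 / 2 ≤ (T.card : ℝ) / Fintype.card A := by linarith
  rwa [le_div_iff₀ hn] at h6

private theorem Sel_U (k0 : ℕ) (U : Finset (ℤ × ℤ)) (hU : ∀ u ∈ U, nz u ≤ k0) :
    (U.card : ℝ) ≤ (2 * (k0 : ℝ) + 1) ^ 2 := by
  have h1 : U ⊆ Finset.Icc (-(k0 : ℤ)) k0 ×ˢ Finset.Icc (-(k0 : ℤ)) k0 := by
    intro u hu
    have h := hU u hu
    unfold nz at h
    have a1 := (le_max_left _ _).trans h
    have a2 := (le_max_right _ _).trans h
    rw [Finset.mem_product, Finset.mem_Icc, Finset.mem_Icc]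
    exact ⟨abs_le.mp a1, abs_le.mp a2⟩
  have h2 := Finset.card_le_card h1
  rw [Finset.card_product, Int.card_Icc] at h2
  have h3 : ((k0 : ℤ) + 1 - -(k0 : ℤ)).toNat = 2 * k0 + 1 := by omega
  rw [h3] at h2
  have h4 : (U.card : ℝ) ≤ ((2 * k0 + 1) * (2 * k0 + 1) : ℕ) := by exact_mod_cast h2
  push_cast at h4
  linarith

open Classical in
/-- SELECTION.  Proof: `f i = ind (Q i)`, `F, F', D, φ` as in `pw`.  Let `N1` be the number of pairs `(i,x)` with
`Q i x` and `F x ≥ θ²/2`: for each `i`, `mn (f F) ≥ (mn f)² ≥ θ²` (`mn_mul_PP`), and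
`mn (f F) ≤ mn (1_{Q, F ≥ θ²/2}) + (θ²/2) mn f`, so `N1 ≥ (θ²/2) |I| |A|`.
The number `N2` of pairs with `sqa |D| x > θ⁴/1024` is at most `(1024/θ⁴) |A| ∑_i mn |D_i|`,
`∑_i mn |D_i| ≤ ∑_i (mn D_i²)^{1/2} ≤ (|I| ∑_i mn D_i²)^{1/2} ≤ |I| θ⁶/8192`, so `N2 ≤ (θ²/8) |I| |A|`.
For each primitive `u`, `nz u ≤ k0` (at most `(2 k0+1)²` of them) the number of pairs with
`(1/G²) ∑_q sqa ((av φ)²) x > δ θ⁶/4096` is at most `(4096/(δ θ⁶)) |I| |A| η1 ≤ (θ²/8) |I| |A| / (2 k0 + 1)²`.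
All other pairs counted by `N1` are good by `pw`: at least `(θ²/2 - θ²/8 - θ²/8) |I| |A|`. -/
theorem sel {ι : ℤ × ℤ →+ A} {I : Type} [Fintype I] {Q : I → A → Prop} {θ δ : ℝ} {k0 W0 M W G L Le ρ L1 : ℕ}
    (hθ : 0 < θ) (hθ1 : θ ≤ 1) (hδ : 0 < δ)
    (hQ : ∀ i, θ * Fintype.card A ≤ ((Finset.univ.filter (fun x => Q i x)).card : ℝ))
    (hM : 1 ≤ M) (hW : 1 ≤ W) (hW0 : 1 ≤ W0) (hG : 1 ≤ G) (hL : 1 ≤ L) (hLe : 1 ≤ Le) (hL1 : 1 ≤ L1)
    (n1 : 64 * ((L : ℝ) + 6 * M * W0 * G * k0) ≤ θ ^ 2 * Le)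
    (n2 : 4096 * (6 * (M : ℝ) * W0 * G * k0) ≤ θ ^ 4 * L)
    (n3 : 64 * (ρ : ℝ) * L1 ≤ θ ^ 2 * L)
    (hD : ∑ i, mn (fun x => (PP ι (W * ρ) L1 (ind (Q i)) x - PP ι W Le (ind (Q i)) x) ^ 2) ≤
      (θ ^ 6 / 8192) ^ 2 * Fintype.card I)
    {η1 : ℝ} (hη1 : (2 * (k0 : ℝ) + 1) ^ 2 * η1 ≤ δ * θ ^ 8 / 32768)
    (hU : ∀ i, ∀ u : ℤ × ℤ, nz u ≤ k0 → Int.gcd u.1 u.2 = 1 →
      (∑ q ∈ gbox G, mn (fun y => av (ι (stp W W0 G u q)) M
        (fun z => ind (Q i) z - PP ι (W * ρ) L1 (ind (Q i)) z) y ^ 2)) / (G : ℝ) ^ 2 ≤ η1) :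
    θ ^ 2 / 4 * Fintype.card I * Fintype.card A ≤
      ((Finset.univ.filter (fun p : I × A => Q p.1 p.2 ∧
        GoodZ (fun z => Q p.1 (p.2 + ι z)) (θ ^ 2 / 8) δ k0 W0 M W G L)).card : ℝ) := by
  classical
  obtain ⟨n, hn⟩ : ∃ n : ℝ, n = Fintype.card A := ⟨_, rfl⟩
  obtain ⟨m, hm⟩ : ∃ m : ℝ, m = Fintype.card I := ⟨_, rfl⟩
  have hn0 : 0 < n := by rw [hn]; exact Sel_card
  have hm0 : 0 ≤ m := by rw [hm]; exact Nat.cast_nonneg _
  have hθ2 : 0 < θ ^ 2 := by positivity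
  rw [← hm] at hD
  rw [← hn, ← hm]
  -- the three sets
  obtain ⟨S1, hS1⟩ : ∃ S1 : Finset (I × A), S1 = Finset.univ.filter (fun p : I × A => Q p.1 p.2 ∧
    θ ^ 2 / 2 ≤ PP ι W Le (ind (Q p.1)) p.2) := ⟨_, rfl⟩
  obtain ⟨a, ha⟩ : ∃ a : I × A → ℝ, ∀ p, a p =
    sqa ι W L (fun y => |PP ι (W * ρ) L1 (ind (Q p.1)) y - PP ι W Le (ind (Q p.1)) y|) p.2 :=
    ⟨_, fun p => rfl⟩
  obtain ⟨S2, hS2⟩ : ∃ S2 : Finset (I × A), S2 = Finset.univ.filter (fun p : I × A => θ ^ 4 / 1024 < a p) := ⟨_, rfl⟩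
  obtain ⟨c, hc⟩ : ∃ c : ℤ × ℤ → I × A → ℝ, ∀ u p, c u p =
    (∑ q ∈ gbox G, sqa ι W L (fun y => av (ι (stp W W0 G u q)) M
        (fun z => ind (Q p.1) z - PP ι (W * ρ) L1 (ind (Q p.1)) z) y ^ 2) p.2) / (G : ℝ) ^ 2 :=
    ⟨_, fun u p => rfl⟩
  obtain ⟨S3, hS3⟩ : ∃ S3 : ℤ × ℤ → Finset (I × A), ∀ u, S3 u =
    Finset.univ.filter (fun p : I × A => δ * θ ^ 6 / 4096 < c u p) := ⟨_, fun u => rfl⟩
  obtain ⟨U, hUd⟩ : ∃ U : Finset (ℤ × ℤ), U = (Finset.Icc (-(k0 : ℤ)) k0 ×ˢ Finset.Icc (-(k0 : ℤ)) k0).filter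
    (fun u => nz u ≤ k0 ∧ Int.gcd u.1 u.2 = 1) := ⟨_, rfl⟩
  have hUmem : ∀ u : ℤ × ℤ, u ∈ U ↔ nz u ≤ k0 ∧ Int.gcd u.1 u.2 = 1 := by
    intro u
    rw [hUd, Finset.mem_filter, Finset.mem_product, Finset.mem_Icc, Finset.mem_Icc]
    constructor
    · exact fun h => h.2
    · intro h
      refine ⟨?_, h⟩
      have h' := h.1
      unfold nz at h'
      exact ⟨abs_le.mp ((le_max_left _ _).trans h'), abs_le.mp ((le_max_right _ _).trans h')⟩
  -- first count
  have c1 : θ ^ 2 / 2 * m * n ≤ (S1.card : ℝ) := by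
    have e1 : (S1.card : ℝ) = ∑ i : I, ((Finset.univ.filter (fun x : A => Q i x ∧
        θ ^ 2 / 2 ≤ PP ι W Le (ind (Q i)) x)).card : ℝ) := by
      rw [hS1, Finset.card_filter, Fintype.sum_prod_type]
      push_cast
      apply Finset.sum_congr rfl
      intro i _
      rw [Finset.card_filter]
      push_cast
      rfl
    rw [e1]
    have e2 : θ ^ 2 / 2 * m * n = ∑ _i : I, θ ^ 2 / 2 * n := by
      rw [Finset.sum_const, nsmul_eq_mul, Finset.card_univ, hm]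
      ring
    rw [e2]
    apply Finset.sum_le_sum
    intro i _
    rw [hn]
    refine Sel_one (ι := ι) (W := W) (Le := Le) (Q := Q i) hθ hLe _ ?_ (Finset.univ.filter (fun x => Q i x)) ?_ ?_
    · intro x h1 h2
      rw [Finset.mem_filter]
      exact ⟨Finset.mem_univ _, h1, h2⟩
    · intro x hx
      rw [Finset.mem_filter] at hx
      exact hx.2
    · refine (hQ i).trans ?_
      apply le_of_eq
      congr 2
  -- second count
  have c2 : (S2.card : ℝ) ≤ θ ^ 2 / 8 * m * n := by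
    have ha0 : ∀ p, 0 ≤ a p := by
      intro p
      rw [ha]
      unfold sqa
      exact av_nonneg (fun y => av_nonneg (fun z => abs_nonneg _) y) _
    have h1 := Sel_markov a ha0 (θ ^ 4 / 1024) S2 (fun p hp => by
      rw [hS2, Finset.mem_filter] at hp
      exact hp.2.le)
    rw [Fintype.sum_prod_type] at h1
    have h2 : ∀ i : I, ∑ x : A, a (i, x) = n *
        mn (fun y => |PP ι (W * ρ) L1 (ind (Q i)) y - PP ι W Le (ind (Q i)) y|) := by
      intro i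
      rw [Sel_sum (fun x => a (i, x)), hn]
      congr 1
      have e : (fun x => a (i, x)) =
          sqa ι W L (fun y => |PP ι (W * ρ) L1 (ind (Q i)) y - PP ι W Le (ind (Q i)) y|) := by
        funext x
        rw [ha]
      rw [e, mn_sqa ι W hL]
    rw [Finset.sum_congr rfl (fun i _ => h2 i), ← Finset.mul_sum] at h1
    obtain ⟨d, hd⟩ : ∃ d : I → ℝ, ∀ i, d i =
      mn (fun y => |PP ι (W * ρ) L1 (ind (Q i)) y - PP ι W Le (ind (Q i)) y|) := ⟨_, fun i => rfl⟩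
    have hd0 : 0 ≤ ∑ i, d i := Finset.sum_nonneg (fun i _ => by
      rw [hd]
      exact mn_nonneg (fun y => abs_nonneg _))
    have h3 : ∑ i, d i ≤ m * (θ ^ 6 / 8192) := by
      have k1 : (∑ i, d i) ^ 2 ≤ m * ∑ i, d i ^ 2 := by
        have := sq_sum_le_card_mul_sum_sq (s := (Finset.univ : Finset I)) (f := d)
        rw [Finset.card_univ, ← hm] at this
        exact this
      have k2 : ∑ i, d i ^ 2 ≤ (θ ^ 6 / 8192) ^ 2 * m := by
        refine (Finset.sum_le_sum (fun i _ => ?_)).trans hD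
        rw [hd]
        refine (mn_sq_le _).trans (mn_mono (fun x => ?_))
        rw [sq_abs]
      have k3 : (∑ i, d i) ^ 2 ≤ (m * (θ ^ 6 / 8192)) ^ 2 := by
        refine k1.trans ((mul_le_mul_of_nonneg_left k2 hm0).trans (le_of_eq ?_))
        ring
      exact (pow_le_pow_iff_left₀ hd0 (by positivity) (by norm_num)).mp k3
    rw [Finset.sum_congr rfl (fun i _ => (hd i).symm)] at h1
    have h4 : (S2.card : ℝ) * (θ ^ 4 / 1024) ≤ n * (m * (θ ^ 6 / 8192)) :=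
      h1.trans (mul_le_mul_of_nonneg_left h3 hn0.le)
    have h5 : n * (m * (θ ^ 6 / 8192)) = (θ ^ 2 / 8 * m * n) * (θ ^ 4 / 1024) := by ring
    rw [h5] at h4
    exact le_of_mul_le_mul_right h4 (by positivity)
  -- third count
  have c3 : ∑ u ∈ U, ((S3 u).card : ℝ) ≤ θ ^ 2 / 8 * m * n := by
    have hδθ : 0 < δ * θ ^ 6 / 4096 := by positivity
    have h1 : ∀ u ∈ U, ((S3 u).card : ℝ) * (δ * θ ^ 6 / 4096) ≤ n * m * η1 := by
      intro u hu
      rw [hUmem] at hu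
      have hc0 : ∀ p, 0 ≤ c u p := by
        intro p
        rw [hc]
        apply div_nonneg _ (by positivity)
        apply Finset.sum_nonneg
        intro q _
        unfold sqa
        exact av_nonneg (fun y => av_nonneg (fun z => sq_nonneg _) y) _
      have k1 := Sel_markov (c u) hc0 (δ * θ ^ 6 / 4096) (S3 u) (fun p hp => by
        rw [hS3, Finset.mem_filter] at hp
        exact hp.2.le)
      refine k1.trans ?_
      rw [Fintype.sum_prod_type]
      have k2 : ∀ i : I, ∑ x : A, c u (i, x) ≤ n * η1 := by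
        intro i
        have k3 : ∑ x : A, c u (i, x) = n * ((∑ q ∈ gbox G, mn (fun y => av (ι (stp W W0 G u q)) M
            (fun z => ind (Q i) z - PP ι (W * ρ) L1 (ind (Q i)) z) y ^ 2)) / (G : ℝ) ^ 2) := by
          have e1 : ∀ x, c u (i, x) = (∑ q ∈ gbox G, sqa ι W L (fun y => av (ι (stp W W0 G u q)) M
              (fun z => ind (Q i) z - PP ι (W * ρ) L1 (ind (Q i)) z) y ^ 2) x) / (G : ℝ) ^ 2 := by
            intro x
            rw [hc]
          rw [Finset.sum_congr rfl (fun x _ => e1 x), ← Finset.sum_div, Finset.sum_comm]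
          have e2 : ∀ q ∈ gbox G, ∑ x, sqa ι W L (fun y => av (ι (stp W W0 G u q)) M
              (fun z => ind (Q i) z - PP ι (W * ρ) L1 (ind (Q i)) z) y ^ 2) x =
              n * mn (fun y => av (ι (stp W W0 G u q)) M
              (fun z => ind (Q i) z - PP ι (W * ρ) L1 (ind (Q i)) z) y ^ 2) := by
            intro q _
            rw [Sel_sum, mn_sqa ι W hL, hn]
          rw [Finset.sum_congr rfl e2, ← Finset.mul_sum, mul_div_assoc]
        rw [k3]
        exact mul_le_mul_of_nonneg_left (hU i u hu.1 hu.2) hn0.le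
      refine (Finset.sum_le_sum (fun i _ => k2 i)).trans (le_of_eq ?_)
      rw [Finset.sum_const, nsmul_eq_mul, Finset.card_univ, ← hm]
      ring
    have h2 : (∑ u ∈ U, ((S3 u).card : ℝ)) * (δ * θ ^ 6 / 4096) ≤ (U.card : ℝ) * (n * m * η1) := by
      rw [Finset.sum_mul]
      refine (Finset.sum_le_sum h1).trans (le_of_eq ?_)
      rw [Finset.sum_const, nsmul_eq_mul]
    have h3 : (U.card : ℝ) * (n * m * η1) ≤ n * m * (δ * θ ^ 8 / 32768) := by
      have hUc := Sel_U k0 U (fun u hu => ((hUmem u).mp hu).1)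
      have hnm : 0 ≤ n * m := mul_nonneg hn0.le hm0
      rcases le_or_gt 0 η1 with h0 | h0
      · have k1 : (U.card : ℝ) * η1 ≤ δ * θ ^ 8 / 32768 :=
          (mul_le_mul_of_nonneg_right hUc h0).trans hη1
        have k2 := mul_le_mul_of_nonneg_left k1 hnm
        linarith
      · have k1 : (U.card : ℝ) * (n * m * η1) ≤ 0 :=
          mul_nonpos_of_nonneg_of_nonpos (Nat.cast_nonneg _) (mul_nonpos_of_nonneg_of_nonpos hnm h0.le)
        have k2 : 0 ≤ n * m * (δ * θ ^ 8 / 32768) := by positivity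
        linarith
    have h4 := h2.trans h3
    have h5 : n * m * (δ * θ ^ 8 / 32768) = (θ ^ 2 / 8 * m * n) * (δ * θ ^ 6 / 4096) := by ring
    rw [h5] at h4
    exact le_of_mul_le_mul_right h4 hδθ
  -- conclusion
  obtain ⟨Γ, hΓ⟩ : ∃ Γ : Finset (I × A), Γ = Finset.univ.filter (fun p : I × A => Q p.1 p.2 ∧
        GoodZ (fun z => Q p.1 (p.2 + ι z)) (θ ^ 2 / 8) δ k0 W0 M W G L) := ⟨_, rfl⟩
  have hsub : S1 ⊆ Γ ∪ (S2 ∪ U.biUnion S3) := by
    intro p hp
    rw [hS1, Finset.mem_filter] at hp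
    by_contra hno
    rw [Finset.mem_union, Finset.mem_union, Finset.mem_biUnion] at hno
    push Not at hno
    obtain ⟨n1', n2', n3'⟩ := hno
    apply n1'
    rw [hΓ, Finset.mem_filter]
    refine ⟨Finset.mem_univ _, hp.2.1, ?_⟩
    refine pw hθ hθ1 hM hW hW0 hG hL hLe hL1 n1 n2 n3 p.2 hp.2.2 ?_ ?_
    · by_contra h
      push Not at h
      apply n2'
      rw [hS2, Finset.mem_filter, ha]
      exact ⟨Finset.mem_univ _, h⟩
    · intro u h1 h2
      by_contra h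
      push Not at h
      apply n3' u ((hUmem u).mpr ⟨h1, h2⟩)
      rw [hS3, Finset.mem_filter, hc]
      exact ⟨Finset.mem_univ _, h⟩
  have hcard : (S1.card : ℝ) ≤ (Γ.card : ℝ) + ((S2.card : ℝ) + ∑ u ∈ U, ((S3 u).card : ℝ)) := by
    have h1 : S1.card ≤ Γ.card + (S2.card + ∑ u ∈ U, (S3 u).card) :=
      (Finset.card_le_card hsub).trans ((Finset.card_union_le _ _).trans
        (Nat.add_le_add_left ((Finset.card_union_le _ _).trans
          (Nat.add_le_add_left Finset.card_biUnion_le _)) _))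
    exact_mod_cast h1
  have hfin : θ ^ 2 / 4 * m * n ≤ (Γ.card : ℝ) := by linarith
  refine hfin.trans (le_of_eq ?_)
  rw [hΓ]

end

end Pool.Agent.Lib.MP_a768d2_co
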