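import Pool.Agent.Lib.MP_a768d2_coP.Chain
import Pool.Agent.Lib.MP_a768d2_coP.Sel

/-!
# P3: strong regularity of presence sets (choice of the parameters)
-/

namespace Pool.Agent.Lib.MP_a768d2_co

noncomputable section

private theorem Reg_down (J : ℕ) : ∀ P : ℕ → ℕ → ℕ → Prop,
    (∀ j Ln, 1 ≤ Ln → ∃ Le, 1 ≤ Le ∧ P j Ln Le) →
    ∃ Le : ℕ → ℕ, (∀ j ≤ J, 1 ≤ Le j) ∧ ∀ j < J, P j (Le (j + 1)) (Le j) := by
  induction J with
  | zero =>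
    intro P h
    exact ⟨fun _ => 1, fun _ _ => le_refl 1, fun j hj => absurd hj (Nat.not_lt_zero j)⟩
  | succ J ih =>
    intro P h
    obtain ⟨Le', h1, h2⟩ := ih (fun j => P (j + 1)) (fun j Ln hLn => h (j + 1) Ln hLn)
    obtain ⟨L0, hL0, hP0⟩ := h 0 (Le' 0) (h1 0 (Nat.zero_le J))
    refine ⟨fun j => Nat.casesOn j L0 Le', ?_, ?_⟩
    · intro j hj
      cases j with
      | zero => exact hL0
      | succ j => exact h1 j (by omega)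
    · intro j hj
      cases j with
      | zero => exact hP0
      | succ j => exact h2 j (by omega)

private theorem Reg_ind_nonneg {A : Type} (Q : A → Prop) (x : A) : 0 ≤ ind Q x := by
  unfold ind; split_ifs <;> norm_num

private theorem Reg_ind_le {A : Type} (Q : A → Prop) (x : A) : ind Q x ≤ 1 := by
  unfold ind; split_ifs <;> norm_num

private theorem Reg_dvd {K M P0 r : ℕ} {u : ℤ × ℤ} (hr1 : 1 ≤ r) (hrM : r < M)
    (hu : Int.gcd u.1 u.2 = 1) (huk : nz u ≤ K) :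
    r * P0 * (u.1 ^ 2 + u.2 ^ 2).toNat ∣ P0 * M.factorial * (2 * K ^ 2).factorial := by
  have h1 : |u.1| ≤ K := le_trans (le_max_left _ _) huk
  have h2 : |u.2| ≤ K := le_trans (le_max_right _ _) huk
  have hs1 : u.1 ^ 2 ≤ (K : ℤ) ^ 2 := sq_le_sq' (by linarith [(abs_le.1 h1).1]) (abs_le.1 h1).2
  have hs2 : u.2 ^ 2 ≤ (K : ℤ) ^ 2 := sq_le_sq' (by linarith [(abs_le.1 h2).1]) (abs_le.1 h2).2
  have hpos : 1 ≤ u.1 ^ 2 + u.2 ^ 2 := by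
    by_contra hc
    have h0 : u.1 ^ 2 + u.2 ^ 2 = 0 := by
      have := sq_nonneg u.1; have := sq_nonneg u.2; omega
    have e1 : u.1 = 0 := by
      have := sq_nonneg u.1; have := sq_nonneg u.2
      exact pow_eq_zero_iff (two_ne_zero) |>.1 (by omega)
    have e2 : u.2 = 0 := by
      have := sq_nonneg u.1; have := sq_nonneg u.2
      exact pow_eq_zero_iff (two_ne_zero) |>.1 (by omega)
    rw [e1, e2] at hu
    simp at hu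
  have hN1 : 1 ≤ (u.1 ^ 2 + u.2 ^ 2).toNat := by omega
  have hN2 : (u.1 ^ 2 + u.2 ^ 2).toNat ≤ 2 * K ^ 2 := by
    have : u.1 ^ 2 + u.2 ^ 2 ≤ ((2 * K ^ 2 : ℕ) : ℤ) := by push_cast; linarith
    omega
  have hd1 : r ∣ M.factorial := Nat.dvd_factorial hr1 hrM.le
  have hd2 : (u.1 ^ 2 + u.2 ^ 2).toNat ∣ (2 * K ^ 2).factorial := Nat.dvd_factorial hN1 hN2
  have := mul_dvd_mul (mul_dvd_mul (dvd_refl P0) hd1) hd2
  rwa [mul_comm P0 r] at this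

/-- the choice of `G, L, Le` at one level -/
private theorem Reg_level (θ e e1 : ℝ) (hθ : 0 < θ) (he : 0 < e) (he1 : 0 < e1) (K P M r W1 : ℕ)
    (lf : ℕ → ℕ) (Ln : ℕ) :
    ∃ Le : ℕ, 1 ≤ Le ∧ ∃ G L : ℕ, 1 ≤ G ∧ 1 ≤ L ∧ lf G ≤ L ∧
      8 * (W1 : ℝ) * Ln * K / G ≤ e1 ∧
      64 * ((L : ℝ) + 6 * M * P * G * K) ≤ θ ^ 2 * Le ∧
      4096 * (6 * (M : ℝ) * P * G * K) ≤ θ ^ 4 * L ∧
      64 * (r : ℝ) * Ln ≤ θ ^ 2 * L ∧
      4 * (r : ℝ) * Ln / Le ≤ e := by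
  obtain ⟨G, hG⟩ := exists_nat_gt (8 * (W1 : ℝ) * Ln * K / e1)
  have hG0 : (0 : ℝ) < G := lt_of_le_of_lt (by positivity) hG
  have hG1 : 1 ≤ G := by exact_mod_cast hG0
  obtain ⟨L1, hL1⟩ := exists_nat_gt (4096 * (6 * (M : ℝ) * P * G * K) / θ ^ 4)
  obtain ⟨L2, hL2⟩ := exists_nat_gt (64 * (r : ℝ) * Ln / θ ^ 2)
  have hθ2 : 0 < θ ^ 2 := by positivity
  have hθ4 : 0 < θ ^ 4 := by positivity
  let L := max (lf G) (max L1 L2) + 1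
  have hLL1 : (L1 : ℝ) ≤ L := by
    have : L1 ≤ L := le_trans (le_trans (le_max_left _ _) (le_max_right _ _)) (Nat.le_succ _)
    exact_mod_cast this
  have hLL2 : (L2 : ℝ) ≤ L := by
    have : L2 ≤ L := le_trans (le_trans (le_max_right _ _) (le_max_right _ _)) (Nat.le_succ _)
    exact_mod_cast this
  obtain ⟨E1, hE1⟩ := exists_nat_gt (64 * ((L : ℝ) + 6 * M * P * G * K) / θ ^ 2)
  obtain ⟨E2, hE2⟩ := exists_nat_gt (4 * (r : ℝ) * Ln / e)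
  let Le := max E1 E2 + 1
  have hLe1 : (E1 : ℝ) ≤ Le := by
    have : E1 ≤ Le := le_trans (le_max_left _ _) (Nat.le_succ _)
    exact_mod_cast this
  have hLe2 : (E2 : ℝ) ≤ Le := by
    have : E2 ≤ Le := le_trans (le_max_right _ _) (Nat.le_succ _)
    exact_mod_cast this
  have hLe0 : (0 : ℝ) < Le := by
    have : 1 ≤ Le := Nat.succ_le_succ (Nat.zero_le _)
    have : (1 : ℝ) ≤ Le := by exact_mod_cast this
    linarith
  refine ⟨Le, Nat.succ_le_succ (Nat.zero_le _), G, L, hG1, Nat.succ_le_succ (Nat.zero_le _),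
    le_trans (le_max_left _ _) (Nat.le_succ _), ?_, ?_, ?_, ?_, ?_⟩
  · rw [div_le_iff₀ hG0]
    rw [div_lt_iff₀ he1] at hG
    linarith
  · rw [div_lt_iff₀ hθ2] at hE1
    have := mul_le_mul_of_nonneg_left hLe1 hθ2.le
    linarith
  · rw [div_lt_iff₀ hθ4] at hL1
    have := mul_le_mul_of_nonneg_left hLL1 hθ4.le
    linarith
  · rw [div_lt_iff₀ hθ2] at hL2
    have := mul_le_mul_of_nonneg_left hLL2 hθ2.le
    linarith
  · rw [div_le_iff₀ hLe0]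
    rw [div_lt_iff₀ he] at hE2
    have := mul_le_mul_of_nonneg_left hLe2 he.le
    linarith

open Classical in
/-- STRONG REGULARITY.  `k0, P0, M1, δ` are functions of the modulus `W`; `Lf` is a function of `W, M, G`.
Proof.  (A) Constants: `J` with `2/J ≤ (θ⁶/8192)²/2`, `e = min(1, (θ⁶/8192)²/12)`, so `2/J + 6 e ≤ (θ⁶/8192)²`.
(B) Moduli (recursion on `j`): `W 0 = 1`; at level `W` put `K = k0 W`,
`M(W) = max (M1 W) ⌈2 (2K+1)² 32768/(δ(W) θ⁸)⌉ + 1`, `r(W) = P0(W) · M(W)! · (2 K²)!`, `W (j+1) = W j · r(W j)`.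
(`P0 ≥ 1`.)  For `1 ≤ r' < M` and `u` primitive, `nz u ≤ K`: `r' P0 N(u)` divides `r(W)` as `r' | M!`, `1 ≤ N(u) ≤ 2K²`,
`N(u) | (2K²)!`.
(C) Sizes (downward recursion; e.g. define a function of `i = J - j`): `Le J = 1`; given `Le (j+1)`:
`G j = ⌈8 W(j+1) Le(j+1) K / e1⌉ + 1` with `e1 = δ θ⁸/(65536 (2K+1)²)`; `V = 6 M P0 G K`;
`L j = max (Lf W M G) (max ⌈4096 V/θ⁴⌉ ⌈64 r Le(j+1)/θ²⌉) + 1`;
`Le j = max ⌈64 (L j + V)/θ²⌉ ⌈4 r Le(j+1)/e⌉ + 1`.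
(D) Given `A, ι, I, Q`: `chain` with `f i = ind (Q i)` and `Le` gives `j < J` with `hD` of `sel`
(`ρ = r (W j)`, `L1 = Le (j+1)`).  `hU` of `sel` with `η1 = δ θ⁸/(32768 (2K+1)²)`: `unif` with
`φ = ind (Q i) - PP ι (W ρ) L1 (ind (Q i))`, `|φ| ≤ 1` (`PP_mem`), its hypothesis `hkill` from `kill` with
`e = e1` (`8 W(j+1) Le(j+1) K/G ≤ e1`), and `1/M ≤ e1`, so `1/M + e1 ≤ η1`.  Then `sel`. -/
theorem reg (θ : ℝ) (hθ : 0 < θ) (hθ1 : θ ≤ 1) (k0 P0 M1 : ℕ → ℕ) (δ : ℕ → ℝ) (hk0 : ∀ W, 1 ≤ k0 W)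
    (hP0 : ∀ W, 1 ≤ P0 W) (hδ : ∀ W, 0 < δ W) (Lf : ℕ → ℕ → ℕ → ℕ) :
    ∃ (J : ℕ) (W M G L : ℕ → ℕ), (∀ j < J, 1 ≤ W j ∧ 1 ≤ M j ∧ M1 (W j) ≤ M j ∧ 1 ≤ G j ∧ 1 ≤ L j ∧
        Lf (W j) (M j) (G j) ≤ L j) ∧
      ∀ (A : Type) [AddCommGroup A] [Fintype A] (ι : ℤ × ℤ →+ A) (I : Type) [Fintype I] (Q : I → A → Prop),
        (∀ i, θ * Fintype.card A ≤ ((Finset.univ.filter (fun x => Q i x)).card : ℝ)) →
        ∃ j < J, θ ^ 2 / 4 * Fintype.card I * Fintype.card A ≤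
          ((Finset.univ.filter (fun p : I × A => Q p.1 p.2 ∧
            GoodZ (fun z => Q p.1 (p.2 + ι z)) (θ ^ 2 / 8) (δ (W j)) (k0 (W j)) (P0 (W j)) (M j) (W j) (G j)
              (L j))).card : ℝ) := by
  -- (A) constants
  obtain ⟨B, hBdef⟩ : ∃ B : ℝ, B = (θ ^ 6 / 8192) ^ 2 := ⟨_, rfl⟩
  have hB : 0 < B := by rw [hBdef]; positivity
  obtain ⟨J, hJ⟩ := exists_nat_gt (4 / B)
  have hJ0 : (0 : ℝ) < J := lt_trans (by positivity) hJ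
  have hJ1 : 1 ≤ J := by exact_mod_cast hJ0
  have h2J : 2 / (J : ℝ) ≤ B / 2 := by
    rw [div_le_iff₀ hJ0]
    rw [div_lt_iff₀ hB] at hJ
    linarith
  obtain ⟨e, hedef⟩ : ∃ e : ℝ, e = min 1 (B / 12) := ⟨_, rfl⟩
  have he0 : 0 < e := by rw [hedef]; exact lt_min one_pos (by positivity)
  have he1 : e ≤ 1 := by rw [hedef]; exact min_le_left _ _
  have heB : e ≤ B / 12 := by rw [hedef]; exact min_le_right _ _
  have hsum : 2 / (J : ℝ) + 6 * e ≤ B := by linarith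
  -- (B) moduli
  obtain ⟨e1, he1def⟩ : ∃ e1 : ℕ → ℝ, ∀ w, e1 w = δ w * θ ^ 8 / (65536 * (2 * (k0 w : ℝ) + 1) ^ 2) :=
    ⟨_, fun _ => rfl⟩
  have he1pos : ∀ w, 0 < e1 w := by
    intro w
    rw [he1def]
    have := hδ w
    positivity
  have hMex : ∀ w, ∃ m : ℕ, 1 ≤ m ∧ M1 w ≤ m ∧ 1 / (m : ℝ) ≤ e1 w := by
    intro w
    obtain ⟨m, hm⟩ := exists_nat_gt (1 / e1 w)
    refine ⟨max (M1 w) m + 1, Nat.succ_le_succ (Nat.zero_le _), le_trans (le_max_left _ _) (Nat.le_succ _), ?_⟩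
    have hm' : (m : ℝ) ≤ ((max (M1 w) m + 1 : ℕ) : ℝ) := by
      have : m ≤ max (M1 w) m + 1 := le_trans (le_max_right _ _) (Nat.le_succ _)
      exact_mod_cast this
    have hpos : (0 : ℝ) < ((max (M1 w) m + 1 : ℕ) : ℝ) := by
      have : 0 < max (M1 w) m + 1 := Nat.succ_pos _
      exact_mod_cast this
    rw [div_le_iff₀ hpos]
    have h1 := he1pos w
    rw [div_lt_iff₀ h1] at hm
    have := mul_le_mul_of_nonneg_left hm' h1.le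
    linarith
  choose Mf hMf1 hMf2 hMf3 using hMex
  obtain ⟨rf, hrf⟩ : ∃ rf : ℕ → ℕ, ∀ w, rf w = P0 w * (Mf w).factorial * (2 * (k0 w) ^ 2).factorial :=
    ⟨_, fun _ => rfl⟩
  have hrf1 : ∀ w, 1 ≤ rf w := by
    intro w
    rw [hrf]
    have h1 := hP0 w
    have h2 := Nat.factorial_pos (Mf w)
    have h3 := Nat.factorial_pos (2 * (k0 w) ^ 2)
    exact Nat.succ_le_of_lt (Nat.mul_pos (Nat.mul_pos h1 h2) h3)
  obtain ⟨W, hW0, hWs⟩ : ∃ W : ℕ → ℕ, W 0 = 1 ∧ ∀ j, W (j + 1) = W j * rf (W j) :=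
    ⟨fun j => Nat.rec 1 (fun _ w => w * rf w) j, rfl, fun _ => rfl⟩
  have hW1 : ∀ j, 1 ≤ W j := by
    intro j
    induction j with
    | zero => rw [hW0]
    | succ j ih => rw [hWs]; exact Nat.succ_le_of_lt (Nat.mul_pos ih (hrf1 _))
  -- (C) sizes
  obtain ⟨Le, hLe1, hLe2⟩ := Reg_down J (fun j Ln Le => ∃ G L : ℕ, 1 ≤ G ∧ 1 ≤ L ∧ Lf (W j) (Mf (W j)) G ≤ L ∧
      8 * (W (j + 1) : ℝ) * Ln * (k0 (W j)) / G ≤ e1 (W j) ∧
      64 * ((L : ℝ) + 6 * (Mf (W j)) * (P0 (W j)) * G * (k0 (W j))) ≤ θ ^ 2 * Le ∧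
      4096 * (6 * (Mf (W j) : ℝ) * (P0 (W j)) * G * (k0 (W j))) ≤ θ ^ 4 * L ∧
      64 * (rf (W j) : ℝ) * Ln ≤ θ ^ 2 * L ∧
      4 * (rf (W j) : ℝ) * Ln / Le ≤ e) (fun j Ln _ => Reg_level θ e (e1 (W j)) hθ he0 (he1pos _) (k0 (W j))
        (P0 (W j)) (Mf (W j)) (rf (W j)) (W (j + 1)) (Lf (W j) (Mf (W j))) Ln)
  have hGL : ∀ j, ∃ G L : ℕ, j < J → 1 ≤ G ∧ 1 ≤ L ∧ Lf (W j) (Mf (W j)) G ≤ L ∧
      8 * (W (j + 1) : ℝ) * (Le (j + 1)) * (k0 (W j)) / G ≤ e1 (W j) ∧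
      64 * ((L : ℝ) + 6 * (Mf (W j)) * (P0 (W j)) * G * (k0 (W j))) ≤ θ ^ 2 * (Le j) ∧
      4096 * (6 * (Mf (W j) : ℝ) * (P0 (W j)) * G * (k0 (W j))) ≤ θ ^ 4 * L ∧
      64 * (rf (W j) : ℝ) * (Le (j + 1)) ≤ θ ^ 2 * L ∧
      4 * (rf (W j) : ℝ) * (Le (j + 1)) / (Le j) ≤ e := by
    intro j
    by_cases hj : j < J
    · obtain ⟨G, L, h⟩ := hLe2 j hj
      exact ⟨G, L, fun _ => h⟩
    · exact ⟨0, 0, fun h => absurd h hj⟩
  choose G L hGL using hGL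
  refine ⟨J, W, fun j => Mf (W j), G, L, ?_, ?_⟩
  · intro j hj
    obtain ⟨a1, a2, a3, -⟩ := hGL j hj
    exact ⟨hW1 j, hMf1 _, hMf2 _, a1, a2, a3⟩
  -- (D)
  intro A _ _ ι I _ Q hQ
  obtain ⟨j, hj, hsumj⟩ := chain (ι := ι) (fun i => ind (Q i)) (fun i x => Reg_ind_nonneg (Q i) x)
    (fun i x => Reg_ind_le (Q i) x) hJ1 he0.le he1 W Le (fun j => rf (W j)) (fun j _ => hWs j) hLe1
    (fun j hj => (hGL j hj).2.2.2.2.2.2.2)
  refine ⟨j, hj, ?_⟩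
  obtain ⟨g1, l1, -, hk, n1, n2, n3, -⟩ := hGL j hj
  have hcardI : (0 : ℝ) ≤ Fintype.card I := Nat.cast_nonneg _
  refine sel (W0 := P0 (W j)) (ρ := rf (W j)) (L1 := Le (j + 1)) (Le := Le j) hθ hθ1 (hδ _) hQ (hMf1 _) (hW1 j)
    (hP0 _) g1 l1 (hLe1 j hj.le) (hLe1 (j + 1) hj) n1 n2 n3 ?_ (η1 := 1 / (Mf (W j) : ℝ) + e1 (W j)) ?_ ?_
  · rw [← hWs j, ← hBdef]
    exact le_trans hsumj (mul_le_mul_of_nonneg_right hsum hcardI)
  · have hK : (0 : ℝ) < (2 * (k0 (W j) : ℝ) + 1) ^ 2 := by positivity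
    have h1 : (2 * (k0 (W j) : ℝ) + 1) ^ 2 * e1 (W j) = δ (W j) * θ ^ 8 / 65536 := by
      rw [he1def]
      field_simp
    have h2 := mul_le_mul_of_nonneg_left (hMf3 (W j)) hK.le
    rw [mul_add]
    linarith
  · intro i u huk hu
    refine unif g1 (hMf1 _) ?_ (he1pos _).le ?_
    · intro x
      have h1 := Reg_ind_nonneg (Q i) x
      have h2 := Reg_ind_le (Q i) x
      have h3 := PP_mem (ι := ι) (W := W j * rf (W j)) (L := Le (j + 1)) (F := ind (Q i))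
        (Reg_ind_nonneg (Q i)) (Reg_ind_le (Q i)) x
      rw [abs_le]
      constructor <;> linarith [h3.1, h3.2]
    · intro r hr1 hrM x
      have h := kill (ι := ι) (W := W j) (W0 := P0 (W j)) (G := G j) (r := r) (ρ := rf (W j)) (L' := Le (j + 1))
        (k0 := k0 (W j)) (hW1 j) g1 (hLe1 (j + 1) hj) (f := ind (Q i))
        (fun x => abs_le.2 ⟨by linarith [Reg_ind_nonneg (Q i) x], Reg_ind_le (Q i) x⟩) hu huk (hrf1 _)
        (by rw [hrf]; exact Reg_dvd hr1 hrM hu huk) x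
      refine le_trans h ?_
      rw [← hWs j]
      exact hk

end

end Pool.Agent.Lib.MP_a768d2_co
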