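import Pool.Agent.Lib.MP_a768d2_co.PhalfC

/-!
# P3: the thin triangle, from one rich row and one point on its continuation
-/

namespace Pool.Agent.Lib.MP_a768d2_co

noncomputable section

/-- the metric part, with two bounds `k`, `k1` -/
private theorem Thin3_metric {c C θ s n dd k k1 G : ℝ} {M : ℕ} {F : Finset ℕ} {Y W W0 : ℂ} {e : ℕ → ℂ}
    (hc : 0 < c) (hC : 1 ≤ C) (hθ : 0 < θ) (hs : 1 ≤ s) (hs2 : s ^ 2 = n) (hk : 1 ≤ k) (hG : 0 ≤ G)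
    (hk1 : 1 ≤ k1) (hdd1 : 1 / k1 ≤ dd)
    (hdd0 : 0 < dd) (hdd : 1 / k ≤ dd)
    (hZ1 : 32768 * C ^ 6 * k ^ 3 / (θ * c) ≤ s)
    (hZ2 : (4 * M * k * C ^ 2 + C ^ 2) * (2048 * C ^ 4 * k ^ 2 / c) ≤ s)
    (hZ3 : (2 * M * k * C + 2 * C) * (32 * C ^ 2 * k) ≤ s)
    (hZ4 : (1 + G + C ^ 3) * (4 * k) ≤ s) (hZ5 : 2 * C ^ 3 < s)
    (hM1 : 1024 * C ^ 3 * k1 / (θ * c) ≤ M) (hM4 : 4 ≤ θ * M)
    (hFM : ∀ τ ∈ F, τ ≤ M) (hF : θ * M ≤ F.card) (he : ∀ τ ∈ F, ‖e τ‖ ≤ C / n)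
    (hY1 : ‖Y‖ ≤ 2 * k * C / s) (hY2 : 1 / (C ^ 2 * s) ≤ ‖Y‖) (hW : ‖W - W0‖ ≤ C / n)
    (hW0 : dd / (2 * C ^ 2) - (1 + G) / (C ^ 2 * s) ≤ ‖W0‖)
    (hW0Y : |det2 W0 Y| ≤ C ^ 2 / n * (θ * c / (16384 * C ^ 6) * dd ^ 2)) :
    ∃ τ ∈ F, ∃ τ' ∈ F, (τ : ℂ) * Y + e τ ≠ (τ' : ℂ) * Y + e τ' ∧ (τ : ℂ) * Y + e τ - W ≠ 0 ∧
      (τ' : ℂ) * Y + e τ' - W ≠ 0 ∧
      InnerProductGeometry.angle ((τ : ℂ) * Y + e τ - W) ((τ' : ℂ) * Y + e τ' - W) < c / n := by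
  have hC0 : 0 < C := by linarith
  have hs0 : 0 < s := by linarith
  have hk0 : 0 < k := by linarith
  have hn0 : 0 < n := by rw [← hs2]; positivity
  have hn1 : 1 ≤ n := by rw [← hs2]; nlinarith
  have hM0 : (0 : ℝ) ≤ M := Nat.cast_nonneg M
  have hddsq : 1 / k ^ 2 ≤ dd ^ 2 := by
    have := pow_le_pow_left₀ (by positivity) hdd 2
    rwa [div_pow, one_pow] at this
  have hCn : C / n ≤ C / s := by
    apply div_le_div_of_nonneg_left hC0.le hs0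
    rw [← hs2]
    nlinarith
  have hWlow : dd / (8 * C ^ 2) ≤ ‖W‖ := by
    refine num6 hC hk hs hG hdd hdd0 hZ4 hW0 ?_
    have : W0 = W - (W - W0) := by ring
    rw [this]
    exact (norm_sub_le _ _).trans (by linarith)
  have hWsq : (dd / (8 * C ^ 2)) ^ 2 ≤ ‖W‖ ^ 2 := pow_le_pow_left₀ (by positivity) hWlow 2
  have hWY : |det2 W Y| ≤ C ^ 2 / n * (θ * c / (16384 * C ^ 6) * dd ^ 2) + C / n * (2 * k * C / s) := by
    have h1 : det2 W Y = det2 W0 Y + det2 (W - W0) Y := by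
      simp only [det2, Complex.sub_re, Complex.sub_im]; ring
    rw [h1]
    refine (abs_add_le _ _).trans (add_le_add hW0Y ?_)
    exact (PhalfB_det2_le _ _).trans (mul_le_mul hW hY1 (norm_nonneg _) (by positivity))
  refine row_angle hθ hc hC hn1 hFM hF hM4 he (w := dd / (8 * C ^ 2)) (by positivity) hWlow hY1 hWY ?_ ?_ ?_ ?_ ?_
  · exact num1 hc hC hθ hk hs0 hn0 hddsq hWsq hZ1
  · exact num2 hc hC hθ hk1 hM0 hdd1 hM1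
  · rw [← hs2]
    exact num3 hc hC hk hs hddsq hZ2
  · rw [← hs2]
    exact num4 hC hk hs hdd hZ3
  · rw [← hs2]
    exact num5 hC hs hZ5 hY2

open Classical in
/-- THIN TRIANGLE.  This is `thin2` of `PhalfC.lean` (read it) without its first step `exists_row`: the row `z` is given, and
`M` depends only on a lower bound `1/k1` for `dd = |m| nz u/k`.  Proof: copy the proof of `thin2` with these changes.
`c' = θ c / (16384 C⁶)`; `M1 = ⌈1024 C³ k1/(θ c)⌉ + ⌈4/θ⌉ + 1`; for `M ≥ M1`: `1024 C³ k1/(θ c) ≤ M`, `4 ≤ θ M`;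
`B = G = B0 (2k+1)`, `B0` from `exists_bezout k`; `N0 = ⌈Z²⌉` with the same `Z` (it depends on `M, k, G, C, c, θ`).
The metric lemma `thin2_metric` is needed with two parameters `k` (bound for `nz u`, in `hY1` and in the `Z`
conditions) and `k1` (`1/k1 ≤ dd`, `1024 C³ k1/(θ c) ≤ M`): restate it here as `thin3_metric`; in its proof only the call
`num2 hc hC hθ hk hM0 hdd hM1` changes, to `num2 hc hC hθ hk1 hM0 hdd1 hM1`.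
The shift `g` comes from `exists_shift`; the row is `F = {τ < M : the site z + τ u of p is occupied}`. -/
theorem thin3 (c C θ : ℝ) (hc : 0 < c) (hC : 1 ≤ C) (hθ : 0 < θ) (hθ1 : θ ≤ 1) : ∃ c' : ℝ, 0 < c' ∧
    ∀ k1 : ℕ, 1 ≤ k1 → ∃ M1 : ℕ, ∀ M : ℕ, M1 ≤ M → ∀ k : ℕ, 1 ≤ k → ∃ B N0 : ℕ, ∀ n : ℕ, N0 ≤ n → ∀ x : Fin n → ℂ,
      ∀ a b : ℂ, Basis2 C n a b → ∀ h : ℕ, Real.sqrt n ≤ 2 * k * h →
      ∀ (p q : Fin n) (S T : ℝ × ℝ), 0 ≤ S.1 → S.1 < 1 → 0 ≤ S.2 → S.2 < 1 →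
        0 ≤ T.1 → T.1 < 1 → 0 ≤ T.2 → T.2 < 1 →
      ∀ (u : ℤ × ℤ) (m : ℤ), Int.gcd u.1 u.2 = 1 → m ≠ 0 → |m| * nz u ≤ k → (k : ℤ) ≤ k1 * (|m| * nz u) →
        x q - x p = (((h * m * u.1 : ℤ) : ℝ) + (T.1 - S.1) : ℝ) * a +
          (((h * m * u.2 : ℤ) : ℝ) + (T.2 - S.2) : ℝ) * b →
        dz (cr u (T - S)) < c' * ((m : ℝ) * nz u) ^ 2 / (k : ℝ) ^ 2 →
        ∃ g : ℤ × ℤ, |g.1| ≤ B ∧ |g.2| ≤ B ∧ ∀ z : ℤ × ℤ,
          θ * M ≤ (((Finset.range M).filter (fun τ : ℕ =>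
            ∃ j, dist (x j) (x p + (((z.1 + τ * u.1 : ℤ)) : ℂ) * a + (((z.2 + τ * u.2 : ℤ)) : ℂ) * b) ≤
              C / n)).card : ℝ) →
          (∃ r, dist (x r) (x q + (((z.1 + g.1 : ℤ)) : ℂ) * a + (((z.2 + g.2 : ℤ)) : ℂ) * b) ≤ C / n) →
          ∃ i j l : Fin n, i ≠ j ∧ j ≠ l ∧ i ≠ l ∧
            EuclideanGeometry.angle (x i) (x j) (x l) < c / n := by
  have hC0 : 0 < C := by linarith
  refine ⟨θ * c / (16384 * C ^ 6), by positivity, fun k1 hk1 => ?_⟩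
  have hk1R : (1 : ℝ) ≤ k1 := by exact_mod_cast hk1
  have hk10 : (0 : ℝ) < k1 := by linarith
  refine ⟨⌈1024 * C ^ 3 * k1 / (θ * c)⌉₊ + ⌈4 / θ⌉₊ + 1, fun M hMM k hk => ?_⟩
  have hkR : (1 : ℝ) ≤ k := by exact_mod_cast hk
  have hk0 : (0 : ℝ) < k := by linarith
  obtain ⟨B, hB⟩ := exists_bezout k
  obtain ⟨G, hG⟩ : ∃ G : ℕ, G = B * (2 * k + 1) := ⟨_, rfl⟩
  have hMR : ((⌈1024 * C ^ 3 * k1 / (θ * c)⌉₊ : ℕ) : ℝ) + ((⌈4 / θ⌉₊ : ℕ) : ℝ) + 1 ≤ M := by exact_mod_cast hMM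
  have hM1 : 1024 * C ^ 3 * k1 / (θ * c) ≤ M := by
    have h1 := Nat.le_ceil (1024 * C ^ 3 * k1 / (θ * c))
    have h2 : (0 : ℝ) ≤ ⌈4 / θ⌉₊ := Nat.cast_nonneg _
    linarith
  have hM2 : 4 / θ ≤ M := by
    have h1 := Nat.le_ceil (4 / θ)
    have h2 : (0 : ℝ) ≤ ⌈1024 * C ^ 3 * k1 / (θ * c)⌉₊ := Nat.cast_nonneg _
    linarith
  have hM4 : 4 ≤ θ * M := by
    rw [div_le_iff₀ hθ] at hM2
    linarith
  obtain ⟨Z, hZ⟩ : ∃ Z : ℝ, Z = 32768 * C ^ 6 * k ^ 3 / (θ * c) + (4 * M * k * C ^ 2 + C ^ 2) * (2048 * C ^ 4 * k ^ 2 / c)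
    + (2 * M * k * C + 2 * C) * (32 * C ^ 2 * k) + (1 + G + C ^ 3) * (4 * k) + 2 * C ^ 3 + 1 := ⟨_, rfl⟩
  have p1 : 0 ≤ 32768 * C ^ 6 * k ^ 3 / (θ * c) := by positivity
  have p2 : 0 ≤ (4 * M * k * C ^ 2 + C ^ 2) * (2048 * C ^ 4 * k ^ 2 / c) := by positivity
  have p3 : 0 ≤ (2 * M * k * C + 2 * C) * (32 * C ^ 2 * k) := by positivity
  have p4 : 0 ≤ (1 + G + C ^ 3) * (4 * k) := by positivity
  have p5 : 0 ≤ 2 * C ^ 3 := by positivity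
  refine ⟨G, ⌈Z ^ 2⌉₊, ?_⟩
  clear hM2 hMR hMM
  intro n hn x a b hab h hh1 p q S T hS1 hS2 hS3 hS4 hT1 hT2 hT3 hT4 u m hum hm hmu hmk hpq hdz
  obtain ⟨s, hs⟩ : ∃ s : ℝ, s = Real.sqrt n := ⟨_, rfl⟩
  have hsZ : Z ≤ s := by
    rw [hs]
    apply Real.le_sqrt_of_sq_le
    exact Nat.ceil_le.mp hn
  have hs2 : s ^ 2 = n := by rw [hs]; exact Real.sq_sqrt (Nat.cast_nonneg n)
  have q1 : 32768 * C ^ 6 * k ^ 3 / (θ * c) ≤ s := by linarith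
  have q2 : (4 * M * k * C ^ 2 + C ^ 2) * (2048 * C ^ 4 * k ^ 2 / c) ≤ s := by linarith
  have q3 : (2 * M * k * C + 2 * C) * (32 * C ^ 2 * k) ≤ s := by linarith
  have q4 : (1 + G + C ^ 3) * (4 * k) ≤ s := by linarith
  have q5 : 2 * C ^ 3 < s := by linarith
  have hs1 : 1 ≤ s := by linarith
  clear hZ p1 p2 p3 p4 p5 hn hsZ
  have hs0 : 0 < s := by linarith
  have hn0 : (0 : ℝ) < n := by rw [← hs2]; positivity
  have hnN : 1 ≤ n := by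
    have : 0 < n := by exact_mod_cast hn0
    omega
  obtain ⟨ha, hb, hdetab⟩ := hab
  rw [← hs] at ha hb hh1
  have hcoord := fun α β => coord_le hC0 hnN (⟨by rw [← hs]; exact ha, by rw [← hs]; exact hb, hdetab⟩ : Basis2 C n a b) α β
  rw [← hs] at hcoord
  obtain ⟨hu0, huk, hm1⟩ := PhalfC_size hum hm hmu
  have hu1 : |u.1| ≤ nz u := le_max_left _ _
  have hu2 : |u.2| ≤ nz u := le_max_right _ _
  have hu1k : |(u.1 : ℝ)| ≤ k := by exact_mod_cast hu1.trans huk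
  have hu2k : |(u.2 : ℝ)| ≤ k := by exact_mod_cast hu2.trans huk
  have hd1 : |T.1 - S.1| ≤ 1 := by rw [abs_le]; constructor <;> linarith
  have hd2 : |T.2 - S.2| ≤ 1 := by rw [abs_le]; constructor <;> linarith
  obtain ⟨g, hg1, hg2, hg⟩ := exists_shift hk hB huk hum hd1 hd2
  rw [← hG] at hg1 hg2
  refine ⟨g, hg1, hg2, fun z hcount hrr => ?_⟩
  obtain ⟨r, hr⟩ := hrr
  obtain ⟨F, hF⟩ : ∃ F : Finset ℕ, F = (Finset.range M).filter (fun τ : ℕ =>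
            ∃ j, dist (x j) (x p + (((z.1 + τ * u.1 : ℤ)) : ℂ) * a + (((z.2 + τ * u.2 : ℤ)) : ℂ) * b) ≤
              C / n) := ⟨_, rfl⟩
  rw [← hF] at hcount
  have hFM : ∀ τ ∈ F, τ ≤ M := by
    intro τ hτ
    rw [hF] at hτ
    exact (Finset.mem_range.1 (Finset.mem_filter.1 hτ).1).le
  have hj : ∀ τ : ℕ, ∃ j, τ ∈ F → dist (x j) (x p + (((z.1 + τ * u.1 : ℤ)) : ℂ) * a +
      (((z.2 + τ * u.2 : ℤ)) : ℂ) * b) ≤ C / n := by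
    intro τ
    by_cases hτ : τ ∈ F
    · have h1 := hτ
      rw [hF] at h1
      obtain ⟨j, hj⟩ := (Finset.mem_filter.1 h1).2
      exact ⟨j, fun _ => hj⟩
    · exact ⟨p, fun h => absurd h hτ⟩
  choose j hj using hj
  obtain ⟨Y, hY⟩ : ∃ Y : ℂ, Y = ((u.1 : ℝ) : ℂ) * a + ((u.2 : ℝ) : ℂ) * b := ⟨_, rfl⟩
  obtain ⟨A0, hA0⟩ : ∃ A0 : ℂ, A0 = x p + (z.1 : ℂ) * a + (z.2 : ℂ) * b := ⟨_, rfl⟩
  obtain ⟨e, he⟩ : ∃ e : ℕ → ℂ, e = fun τ => x (j τ) - A0 - (τ : ℂ) * Y := ⟨_, rfl⟩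
  have heF : ∀ τ ∈ F, ‖e τ‖ ≤ C / n := by
    intro τ hτ
    have h1 := hj τ hτ
    rw [dist_eq_norm] at h1
    refine le_trans (le_of_eq ?_) h1
    congr 1
    rw [he, hA0, hY]
    push_cast
    ring
  obtain ⟨W, hW⟩ : ∃ W : ℂ, W = x r - A0 := ⟨_, rfl⟩
  obtain ⟨W0, hW0⟩ : ∃ W0 : ℂ, W0 = (((h * m * u.1 + (T.1 - S.1) + g.1 : ℝ)) : ℂ) * a +
      (((h * m * u.2 + (T.2 - S.2) + g.2 : ℝ)) : ℂ) * b := ⟨_, rfl⟩
  have hWW : ‖W - W0‖ ≤ C / n := by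
    rw [dist_eq_norm] at hr
    refine le_trans (le_of_eq ?_) hr
    congr 1
    have hxq : x q = x p + ((((h * m * u.1 : ℤ) : ℝ) + (T.1 - S.1) : ℝ) * a +
          (((h * m * u.2 : ℤ) : ℝ) + (T.2 - S.2) : ℝ) * b) := by
      rw [← hpq]; ring
    rw [hW, hW0, hA0, hxq]
    push_cast
    ring
  obtain ⟨dd, hdd⟩ : ∃ dd : ℝ, dd = |(m : ℝ)| * nz u / k := ⟨_, rfl⟩
  have hkdd : (k : ℝ) * dd = |(m : ℝ)| * nz u := by rw [hdd]; field_simp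
  have hdd1 : 1 ≤ (k : ℝ) * dd := by
    rw [hkdd]
    have : (1 : ℤ) ≤ |m| * nz u := by nlinarith
    exact_mod_cast this
  have hdd0 : 0 < dd := by
    by_contra hneg
    push Not at hneg
    nlinarith
  have hddk : 1 / k ≤ dd := by
    rw [div_le_iff₀ hk0]
    linarith
  have hddk1 : 1 / (k1 : ℝ) ≤ dd := by
    have h1 : (k : ℝ) ≤ k1 * (|(m : ℝ)| * nz u) := by exact_mod_cast hmk
    rw [hdd, div_le_div_iff₀ hk10 hk0]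
    linarith
  have hdd2 : ((m : ℝ) * nz u) ^ 2 / (k : ℝ) ^ 2 = dd ^ 2 := by
    rw [hdd, div_pow, mul_pow, mul_pow, sq_abs]
  have hdetab2 : |det2 a b| ≤ C ^ 2 / n := by
    calc |det2 a b| ≤ ‖a‖ * ‖b‖ := PhalfB_det2_le a b
      _ ≤ (C / s) * (C / s) := mul_le_mul ha hb (norm_nonneg _) (by positivity)
      _ = C ^ 2 / n := by rw [← hs2]; field_simp
  have hdz' : dz (cr u (T - S)) ≤ θ * c / (16384 * C ^ 6) * dd ^ 2 := by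
    rw [← hdd2]
    have := hdz.le
    rw [mul_div_assoc] at this
    exact this
  have hdet := PhalfC_det (h := h) (m := m) hn0 hC0 hdetab2 hg hdz'
  rw [← hW0, ← hY] at hdet
  obtain ⟨hY1, hY2⟩ := PhalfC_Y hk0.le hC0 hs0 ha hb hcoord hu0 hu1k hu2k
  rw [← hY] at hY1 hY2
  have hlong := PhalfC_long (C := C) (s := s) (dd := dd) (kk := k) (G := G) (h := h) (a := a) (b := b) (u := u) (g := g)
      (m := m) (S := S) (T := T) hC hs1 hh1 hdd0 hkdd hcoord hd1 hd2 (by exact_mod_cast hg1) (by exact_mod_cast hg2)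
  rw [← hW0] at hlong
  obtain ⟨τ, hτ, τ', hτ', hne, hn1', hn2', hang⟩ := Thin3_metric hc hC hθ hs1 hs2 hkR (Nat.cast_nonneg G) hk1R hddk1
    hdd0 hddk q1 q2 q3 q4 q5 hM1 hM4 hFM hcount heF hY1 hY2 hWW hlong hdet
  have hXe : ∀ τ : ℕ, (τ : ℂ) * Y + e τ = x (j τ) - A0 := by
    intro τ
    rw [he]
    ring
  rw [hXe, hXe] at hne
  rw [hXe, hW] at hn1' hn2'
  rw [hXe, hXe, hW] at hang
  have e1 : x (j τ) - A0 - (x r - A0) = x (j τ) - x r := by ring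
  have e2 : x (j τ') - A0 - (x r - A0) = x (j τ') - x r := by ring
  rw [e1] at hn1' hang
  rw [e2] at hn2' hang
  refine ⟨j τ, r, j τ', ?_, ?_, ?_, ?_⟩
  · intro h1
    apply hn1'
    rw [h1, sub_self]
  · intro h1
    apply hn2'
    rw [← h1, sub_self]
  · intro h1
    apply hne
    rw [h1]
  · rw [EuclideanGeometry.angle, vsub_eq_sub, vsub_eq_sub]
    exact hang

end

end Pool.Agent.Lib.MP_a768d2_co
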