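import Pool.Agent.Lib.MP_a768d2_coP.Super
import Pool.Agent.Lib.MP_a768d2_coP.Reg
import Pool.Agent.Lib.MP_a768d2_coP.Thin3
import Pool.Agent.Lib.MP_a768d2_coP.Pts

/-!
# P3: polycrystals with patches of positive density
-/

namespace Pool.Agent.Lib.MP_a768d2_co

noncomputable section

/-- scaling a basis -/
theorem Final_basis {C : ℝ} {n : ℕ} {a b : ℂ} (hC : 1 ≤ C) (hn : 1 ≤ n) (h : Basis2 C n a b) {W : ℕ} (hW : 1 ≤ W) :
    Basis2 ((2 * W + 1) * C) n ((W : ℂ) * a) ((W : ℂ) * b) := by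
  obtain ⟨h1, h2, h3⟩ := h
  have hn0 : (0 : ℝ) < n := by exact_mod_cast hn
  have hs0 : 0 < Real.sqrt n := Real.sqrt_pos.mpr hn0
  have hW1 : (1 : ℝ) ≤ W := by exact_mod_cast hW
  have hC0 : 0 < C := by linarith
  have key : ∀ z : ℂ, ‖z‖ ≤ C / Real.sqrt n → ‖(W : ℂ) * z‖ ≤ (2 * W + 1) * C / Real.sqrt n := by
    intro z hz
    rw [norm_mul, Complex.norm_natCast, mul_div_assoc]
    exact mul_le_mul (by linarith) hz (norm_nonneg _) (by positivity)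
  refine ⟨key a h1, key b h2, ?_⟩
  have e : det2 ((W : ℂ) * a) ((W : ℂ) * b) = (W : ℝ) ^ 2 * det2 a b := by
    simp only [det2, Complex.mul_re, Complex.mul_im, Complex.natCast_re, Complex.natCast_im]
    ring
  rw [e, abs_mul, abs_of_nonneg (by positivity : (0 : ℝ) ≤ (W : ℝ) ^ 2)]
  have h4 : 1 / ((2 * W + 1) * C * n) ≤ 1 / (C * n) := by
    apply one_div_le_one_div_of_le (by positivity)
    have : 0 ≤ C * n := by positivity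
    nlinarith
  have h5 : |det2 a b| ≤ (W : ℝ) ^ 2 * |det2 a b| := by
    have h6 : (1 : ℝ) ≤ (W : ℝ) ^ 2 := by nlinarith
    have h7 := mul_le_mul_of_nonneg_right h6 (abs_nonneg (det2 a b))
    linarith
  exact h4.trans (h3.trans h5)

/-- one lattice -/
theorem crystal3 (c ε κ C θ : ℝ) (hc : 0 < c) (hε : 0 < ε) (hκ : 0 < κ) (hC : 1 ≤ C) (hθ : 0 < θ) (hθ1 : θ ≤ 1) :
    ∃ U : ℕ, ∃ N : ℕ, ∀ n : ℕ, N ≤ n → ∀ x : Fin n → ℂ,
      (∀ i, 0 ≤ (x i).re ∧ (x i).re ≤ 1 ∧ 0 ≤ (x i).im ∧ (x i).im ≤ 1) →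
      (∀ i j, i ≠ j → ε / Real.sqrt (n : ℝ) < dist (x i) (x j)) →
      ∀ a b : ℂ, Basis2 C n a b → ∀ S : Finset (Fin n), κ * n ≤ S.card →
        (∀ i ∈ S, θ * (2 * U + 1) ^ 2 ≤ (Nat.card {s : ℤ × ℤ // |s.1| ≤ U ∧ |s.2| ≤ U ∧
          ∃ j, dist (x j) (x i + s.1 * a + s.2 * b) ≤ C / n} : ℝ)) →
        ∃ i j l : Fin n, i ≠ j ∧ j ≠ l ∧ i ≠ l ∧
          EuclideanGeometry.angle (x i) (x j) (x l) < c / n := by
  classical
  obtain ⟨θ', hθ'⟩ : ∃ θ' : ℝ, θ' = θ / 4 := ⟨_, rfl⟩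
  have hθ'0 : 0 < θ' := by rw [hθ']; positivity
  have hθ'1 : θ' ≤ 1 := by rw [hθ']; linarith
  obtain ⟨θ2, hθ2⟩ : ∃ θ2 : ℝ, θ2 = θ' ^ 2 / 8 := ⟨_, rfl⟩
  have hθ20 : 0 < θ2 := by rw [hθ2]; positivity
  have hθ21 : θ2 ≤ 1 := by rw [hθ2]; nlinarith
  have hC0 : 0 < C := by linarith
  obtain ⟨κ', hκ'⟩ : ∃ κ' : ℝ, κ' = 4 * (θ' ^ 2 / 4) * κ / (16 * C / ε + 7) ^ 2 := ⟨_, rfl⟩
  have hκ'0 : 0 < κ' := by rw [hκ']; positivity
  have hCW : ∀ W : ℕ, 1 ≤ (2 * (W : ℝ) + 1) * C := by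
    intro W
    have : (0 : ℝ) ≤ W := Nat.cast_nonneg W
    nlinarith
  choose c' hc' hthin using fun W : ℕ => thin3 c ((2 * (W : ℝ) + 1) * C) θ2 hc (hCW W) hθ20 hθ21
  choose κ'' hκ'' hgrid using fun W : ℕ => exists_grid ε κ' ((2 * (W : ℝ) + 1) * C) hε hκ'0
    (lt_of_lt_of_le one_pos (hCW W))
  choose k0 hk0 δ hδ hsuper using fun W : ℕ => super (c' W) (κ'' W) (hc' W) (hκ'' W)
  choose M1 hM1 using fun W : ℕ => hthin W (2 * k0 W) (by have := hk0 W; omega)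
  obtain ⟨P, hP⟩ : ∃ P : ℕ → ℕ, P = fun W => max 16 (2 * k0 W ^ 2) := ⟨_, rfl⟩
  have hP16 : ∀ W, 16 ≤ P W := by intro W; rw [hP]; exact le_max_left _ _
  have hPk : ∀ W, 2 * k0 W ^ 2 ≤ P W := by intro W; rw [hP]; exact le_max_right _ _
  have hBN : ∀ W M k : ℕ, ∃ B N0 : ℕ, M1 W ≤ M → 1 ≤ k → ∀ n : ℕ, N0 ≤ n → ∀ x : Fin n → ℂ,
      ∀ a b : ℂ, Basis2 ((2 * (W : ℝ) + 1) * C) n a b → ∀ h : ℕ, Real.sqrt n ≤ 2 * k * h →
      ∀ (p q : Fin n) (S T : ℝ × ℝ), 0 ≤ S.1 → S.1 < 1 → 0 ≤ S.2 → S.2 < 1 →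
        0 ≤ T.1 → T.1 < 1 → 0 ≤ T.2 → T.2 < 1 →
      ∀ (u : ℤ × ℤ) (m : ℤ), Int.gcd u.1 u.2 = 1 → m ≠ 0 → |m| * nz u ≤ k →
        (k : ℤ) ≤ (2 * k0 W : ℕ) * (|m| * nz u) →
        x q - x p = (((h * m * u.1 : ℤ) : ℝ) + (T.1 - S.1) : ℝ) * a +
          (((h * m * u.2 : ℤ) : ℝ) + (T.2 - S.2) : ℝ) * b →
        dz (cr u (T - S)) < c' W * ((m : ℝ) * nz u) ^ 2 / (k : ℝ) ^ 2 →
        ∃ g : ℤ × ℤ, |g.1| ≤ B ∧ |g.2| ≤ B ∧ ∀ z : ℤ × ℤ,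
          θ2 * M ≤ (((Finset.range M).filter (fun τ : ℕ =>
            ∃ j, dist (x j) (x p + (((z.1 + τ * u.1 : ℤ)) : ℂ) * a + (((z.2 + τ * u.2 : ℤ)) : ℂ) * b) ≤
              (2 * (W : ℝ) + 1) * C / n)).card : ℝ) →
          (∃ r, dist (x r) (x q + (((z.1 + g.1 : ℤ)) : ℂ) * a + (((z.2 + g.2 : ℤ)) : ℂ) * b) ≤
            (2 * (W : ℝ) + 1) * C / n) →
          ∃ i j l : Fin n, i ≠ j ∧ j ≠ l ∧ i ≠ l ∧
            EuclideanGeometry.angle (x i) (x j) (x l) < c / n := by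
    intro W M k
    by_cases hM : M1 W ≤ M
    · by_cases hk : 1 ≤ k
      · obtain ⟨B, N0, h⟩ := hM1 W M hM k hk
        exact ⟨B, N0, fun _ _ => h⟩
      · exact ⟨0, 0, fun _ h => absurd h hk⟩
    · exact ⟨0, 0, fun h => absurd h hM⟩
  choose B N0 hBN using hBN
  have hgrid' : ∀ W k : ℕ, ∃ N1 : ℕ, 1 ≤ k → ∀ n : ℕ, N1 ≤ n → ∀ x : Fin n → ℂ,
      (∀ i, 0 ≤ (x i).re ∧ (x i).re ≤ 1 ∧ 0 ≤ (x i).im ∧ (x i).im ≤ 1) →
      (∀ i j, i ≠ j → ε / Real.sqrt (n : ℝ) < dist (x i) (x j)) →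
      ∀ a b : ℂ, Basis2 ((2 * (W : ℝ) + 1) * C) n a b → ∀ S : Finset (Fin n), κ' * n ≤ S.card →
      ∃ h : ℕ, Real.sqrt n ≤ 2 * k * h ∧ (h : ℝ) * k ≤ Real.sqrt n ∧
      ∃ (g0 : ℤ × ℤ) (E : Finset (ℤ × ℤ)) (ι : ℤ × ℤ → Fin n) (T : ℤ × ℤ → ℝ × ℝ),
        E ⊆ box k ∧ κ'' W * (k : ℝ) ^ 2 ≤ E.card ∧ ∀ z ∈ E, ι z ∈ S ∧
          0 ≤ (T z).1 ∧ (T z).1 < 1 ∧ 0 ≤ (T z).2 ∧ (T z).2 < 1 ∧
          x (ι z) = (((g0.1 + h * z.1 : ℤ) : ℝ) + (T z).1 : ℝ) * a +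
            (((g0.2 + h * z.2 : ℤ) : ℝ) + (T z).2 : ℝ) * b := by
    intro W k
    by_cases hk : 1 ≤ k
    · obtain ⟨N1, h⟩ := hgrid W k hk
      exact ⟨N1, fun _ => h⟩
    · exact ⟨0, fun h => absurd h hk⟩
  choose N1 hN1 using hgrid'
  obtain ⟨kk, hkk⟩ : ∃ kk : ℕ → ℕ → ℕ, kk = fun W G => Nat.factorial (P W) * G * k0 W := ⟨_, rfl⟩
  obtain ⟨J, W, M, G, L, hlev, hreg⟩ := reg θ' hθ'0 hθ'1 k0 (fun W => Nat.factorial (P W)) M1 δ hk0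
    (fun W => Nat.factorial_pos _) hδ (fun W M G => ⌈4 * (B W M (kk W G) : ℝ) / θ2⌉₊ + 1)
  obtain ⟨R, hR⟩ : ∃ R : ℕ → ℕ, R = fun j =>
    W j * (L j + 6 * M j * Nat.factorial (P (W j)) * G j * k0 (W j)) := ⟨_, rfl⟩
  refine ⟨∑ j ∈ Finset.range J, R j, (∑ j ∈ Finset.range J, (N0 (W j) (M j) (kk (W j) (G j)) +
    N1 (W j) (kk (W j) (G j)))) + (⌈4 * C ^ 6⌉₊ + 1), ?_⟩
  obtain ⟨U, hU⟩ : ∃ U : ℕ, U = ∑ j ∈ Finset.range J, R j := ⟨_, rfl⟩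
  rw [← hU]
  intro n hn x hx hsep a b hab S hS hdens
  have hn1 : 1 ≤ n := by omega
  have hn0 : (0 : ℝ) < n := by exact_mod_cast hn1
  have hnC : 4 * C ^ 6 < n := by
    have h1 : (4 * C ^ 6 : ℝ) ≤ ⌈4 * C ^ 6⌉₊ := Nat.le_ceil _
    have h2 : ⌈4 * C ^ 6⌉₊ < n := by omega
    have h3 : (⌈4 * C ^ 6⌉₊ : ℝ) < n := by exact_mod_cast h2
    linarith
  have : NeZero (2 * (2 * U + 1)) := ⟨by omega⟩
  have hcardP : Fintype.card (Pos (2 * U + 1)) = (2 * (2 * U + 1)) ^ 2 := by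
    rw [Fintype.card_prod, ZMod.card, sq]
  obtain ⟨j, hj, hcount⟩ := hreg (Pos (2 * U + 1)) (iot (2 * U + 1)) {i // i ∈ S}
    (fun i z => occ x a b (C / n) U i.1 z) (by
      intro i
      have h1 := card_occ x a b (C / n) U i.1
      rw [h1, hcardP]
      have h2 := hdens i.1 i.2
      refine le_trans (le_of_eq ?_) h2
      rw [hθ']
      push_cast
      ring)
  obtain ⟨hW1, hMM, hM1j, hG1, hL1, hLf⟩ := hlev j hj
  have hjJ : j ∈ Finset.range J := Finset.mem_range.2 hj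
  have hRU : R j ≤ U := by
    rw [hU]
    exact Finset.single_le_sum (f := R) (fun _ _ => Nat.zero_le _) hjJ
  have hNj : N0 (W j) (M j) (kk (W j) (G j)) + N1 (W j) (kk (W j) (G j)) ≤ n := by
    have := Finset.single_le_sum (f := fun j => N0 (W j) (M j) (kk (W j) (G j)) +
      N1 (W j) (kk (W j) (G j))) (fun _ _ => Nat.zero_le _) hjJ
    exact this.trans (by omega)
  have hRj : W j * (L j + 6 * M j * Nat.factorial (P (W j)) * G j * k0 (W j)) ≤ 2 * U := by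
    have : R j = W j * (L j + 6 * M j * Nat.factorial (P (W j)) * G j * k0 (W j)) := by rw [hR]
    omega
  have hgood := pts (θ3 := θ' ^ 2 / 4) (θ := θ' ^ 2 / 8) (δ := δ (W j)) hε hC hκ (by positivity) hnC hsep hab hS
    (Nat.factorial_pos _) hG1 hRj (by
      refine le_trans (le_of_eq ?_) hcount
      rw [Fintype.card_coe, hcardP]
      push_cast
      ring)
  rw [← hκ', ← hθ2] at hgood
  obtain ⟨S', hS'⟩ : ∃ S' : Finset (Fin n), S' = Finset.univ.filter (fun l : Fin n =>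
    GoodZ (occZ x a b (2 * (C / n)) l) θ2 (δ (W j)) (k0 (W j)) (Nat.factorial (P (W j))) (M j) (W j) (G j) (L j)) :=
    ⟨_, rfl⟩
  rw [← hS'] at hgood
  have hkk1 : 1 ≤ kk (W j) (G j) := by
    rw [hkk]
    exact Nat.mul_pos (Nat.mul_pos (Nat.factorial_pos _) hG1) (hk0 _)
  have hB' := Final_basis hC hn1 hab hW1
  obtain ⟨h, hh1, hh2, g0, E, ι, T, hEbox, hEcard, hE⟩ := hN1 (W j) (kk (W j) (G j)) hkk1 n (by omega) x hx hsep
    _ _ hB' S' hgood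
  obtain ⟨z, hz, w, hw, u, m, q, hq, hu, huk, hm, hqB, hgu, e1, e2, hdz⟩ := hsuper (W j) (P (W j)) (hP16 _) (hPk _) (G j) hG1
    (kk (W j) (G j)) (by rw [hkk]) E T hEbox hEcard
    (fun z u => badq (occZ x a b (2 * (C / n)) (ι z)) θ2 (Nat.factorial (P (W j))) (M j) (W j) (G j) (L j) u)
    (by
      intro z hz u hu1 hu2
      obtain ⟨hzS, _⟩ := hE z hz
      rw [hS', Finset.mem_filter] at hzS
      exact hzS.2.2 u hu1 hu2)
  obtain ⟨hzS, z1, z2, z3, z4, hzx⟩ := hE z hz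
  obtain ⟨hwS, w1, w2, w3, w4, hwx⟩ := hE w hw
  obtain ⟨v, hv⟩ : ∃ v : ℤ × ℤ, v = gm (gg (Nat.factorial (P (W j))) (G j) q) u := ⟨_, rfl⟩
  rw [← hv] at hgu e1 e2 hdz
  have hmk : |m| * nz v ≤ kk (W j) (G j) := by
    have hbz := hEbox hz
    have hbw := hEbox hw
    unfold box at hbz hbw
    rw [Finset.mem_product, Finset.mem_Ico, Finset.mem_Ico] at hbz hbw
    have a1 : |m| * |v.1| ≤ kk (W j) (G j) := by
      rw [← abs_mul, ← e1, abs_le]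
      constructor
      · linarith [hbz.1.1, hbz.1.2, hbw.1.1, hbw.1.2]
      · linarith [hbz.1.1, hbz.1.2, hbw.1.1, hbw.1.2]
    have a2 : |m| * |v.2| ≤ kk (W j) (G j) := by
      rw [← abs_mul, ← e2, abs_le]
      constructor
      · linarith [hbz.2.1, hbz.2.2, hbw.2.1, hbw.2.2]
      · linarith [hbz.2.1, hbz.2.2, hbw.2.1, hbw.2.2]
    unfold nz
    rcases max_choice |v.1| |v.2| with h | h
    · rw [h]
      exact a1
    · rw [h]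
      exact a2
  have hv0 : 0 ≤ nz v := le_trans (abs_nonneg _) (le_max_left _ _)
  have hkm : ((kk (W j) (G j) : ℕ) : ℤ) ≤ (2 * k0 (W j) : ℕ) * (|m| * nz v) := by
    have h1 := nz_gm_ge (Nat.factorial (P (W j))) (G j) q u
    rw [← hv] at h1
    have h2 : 1 ≤ nz u := by
      by_contra hneg
      have h3 : |u.1| ≤ nz u := le_max_left _ _
      have h4 : |u.2| ≤ nz u := le_max_right _ _
      have h5 : u.1 = 0 := abs_nonpos_iff.1 (by omega)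
      have h6 : u.2 = 0 := abs_nonpos_iff.1 (by omega)
      rw [h5, h6] at hu
      simp at hu
    have h3 : ((Nat.factorial (P (W j)) : ℤ) * G j) ^ 2 ≤ (2 * nz v) ^ 2 := by
      have h4 : ((Nat.factorial (P (W j)) : ℤ) * G j) ^ 2 ≤ (nz u * ((Nat.factorial (P (W j)) : ℤ) * G j)) ^ 2 := by
        apply pow_le_pow_left₀ (by positivity)
        have : (0 : ℤ) ≤ (Nat.factorial (P (W j)) : ℤ) * G j := by positivity
        nlinarith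
      nlinarith
    have h4 : (Nat.factorial (P (W j)) : ℤ) * G j ≤ 2 * nz v := by
      exact abs_le_of_sq_le_sq' h3 (by positivity) |>.2
    have h5 : (1 : ℤ) ≤ |m| := Int.one_le_abs hm
    have h6 : nz v ≤ |m| * nz v := by nlinarith
    rw [hkk]
    push_cast
    have h7 : (0 : ℤ) ≤ (k0 (W j) : ℤ) := by positivity
    nlinarith
  have hCr : 2 * (C / n) ≤ (2 * (W j : ℝ) + 1) * C / n := by
    rw [← mul_div_assoc]
    apply div_le_div_of_nonneg_right _ hn0.le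
    have : (1 : ℝ) ≤ W j := by exact_mod_cast hW1
    nlinarith
  obtain ⟨g, hg1, hg2, hfin⟩ := hBN (W j) (M j) (kk (W j) (G j)) hM1j hkk1 n (by omega) x _ _ hB' h hh1 (ι z) (ι w) (T z) (T w)
    z1 z2 z3 z4 w1 w2 w3 w4 v m hgu hm hmk hkm (by
      rw [hwx, hzx]
      have e3 : w.1 = z.1 + m * v.1 := by linarith
      have e4 : w.2 = z.2 + m * v.2 := by linarith
      rw [e3, e4]
      push_cast
      ring) hdz
  rw [hS', Finset.mem_filter] at hwS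
  have hLB : 4 * (B (W j) (M j) (kk (W j) (G j)) : ℝ) < θ2 * L j := by
    have h1 : (⌈4 * (B (W j) (M j) (kk (W j) (G j)) : ℝ) / θ2⌉₊ : ℝ) + 1 ≤ L j := by exact_mod_cast hLf
    have h2 := Nat.le_ceil (4 * (B (W j) (M j) (kk (W j) (G j)) : ℝ) / θ2)
    have h3 : 4 * (B (W j) (M j) (kk (W j) (G j)) : ℝ) / θ2 < L j := by linarith
    rw [div_lt_iff₀ hθ20] at h3
    linarith
  obtain ⟨s, hs1, hs2⟩ := exists_rich (δ := 0) hθ20 hLB hwS.2 hq hqB hg1 hg2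
  rw [← hv] at hs1
  refine hfin ((s.1 : ℤ), (s.2 : ℤ)) ?_ ?_
  · unfold Rich at hs1
    refine hs1.trans ?_
    have hsub : ((Finset.range (M j)).filter (fun τ : ℕ =>
        occZ x a b (2 * (C / n)) (ι z) (((W j : ℕ) : ℤ) * (s.1 + τ * v.1), ((W j : ℕ) : ℤ) * (s.2 + τ * v.2)))) ⊆
      ((Finset.range (M j)).filter (fun τ : ℕ =>
        ∃ i, dist (x i) (x (ι z) + ((((s.1 : ℤ), (s.2 : ℤ)).1 + τ * v.1 : ℤ) : ℂ) * ((W j : ℂ) * a) +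
          ((((s.1 : ℤ), (s.2 : ℤ)).2 + τ * v.2 : ℤ) : ℂ) * ((W j : ℂ) * b)) ≤ (2 * (W j : ℝ) + 1) * C / n)) := by
      intro τ hτ
      rw [Finset.mem_filter] at hτ ⊢
      refine ⟨hτ.1, ?_⟩
      obtain ⟨i, hi⟩ := hτ.2
      refine ⟨i, le_trans (le_of_eq ?_) (hi.trans hCr)⟩
      congr 1
      push_cast
      ring
    exact_mod_cast Finset.card_le_card hsub
  · obtain ⟨i, hi⟩ := hs2
    refine ⟨i, le_trans (le_of_eq ?_) (hi.trans hCr)⟩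
    congr 1
    push_cast
    ring

end

end Pool.Agent.Lib.MP_a768d2_co
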