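import Pool.Agent.Lib.MP_a768d2_co.Defs

/-!
# P3 (patches of positive density): Gaussian dilations

Complete proofs in words in the docstrings.
-/

namespace Pool.Agent.Lib.MP_a768d2_co

noncomputable section

/-- multiplication of Gaussian integers, as pairs -/
def gm (g u : ℤ × ℤ) : ℤ × ℤ := (g.1 * u.1 - g.2 * u.2, g.1 * u.2 + g.2 * u.1)

/-- multiplication of a real vector by the conjugate of `g` -/
def gc (g : ℤ × ℤ) (T : ℝ × ℝ) : ℝ × ℝ := ((g.1 : ℝ) * T.1 + g.2 * T.2, (g.1 : ℝ) * T.2 - g.2 * T.1)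

/-- the dilations `1 + W (G + s) + i W (t + 1)` -/
def gg (W G : ℕ) (q : ℕ × ℕ) : ℤ × ℤ := (1 + (W : ℤ) * (G + q.1), (W : ℤ) * (q.2 + 1))

/-- the square `[0, G)^2` of parameters -/
def gbox (G : ℕ) : Finset (ℕ × ℕ) := Finset.range G ×ˢ Finset.range G

theorem cr_gm (g u : ℤ × ℤ) (T : ℝ × ℝ) : cr (gm g u) T = cr u (gc g T) := by
  unfold cr gm gc
  push_cast
  ring

theorem gc_sub (g : ℤ × ℤ) (T S : ℝ × ℝ) : gc g (T - S) = gc g T - gc g S := by
  unfold gc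
  ext
  · simp only [Prod.fst_sub, Prod.snd_sub]
    ring
  · simp only [Prod.fst_sub, Prod.snd_sub]
    ring

private theorem Gauss_sq_le (u : ℤ × ℤ) : u.1 ^ 2 + u.2 ^ 2 ≤ 2 * nz u ^ 2 := by
  have h1 : |u.1| ≤ nz u := le_max_left _ _
  have h2 : |u.2| ≤ nz u := le_max_right _ _
  have h3 : u.1 ^ 2 ≤ nz u ^ 2 := by
    rw [← sq_abs u.1]
    exact pow_le_pow_left₀ (abs_nonneg _) h1 2
  have h4 : u.2 ^ 2 ≤ nz u ^ 2 := by
    rw [← sq_abs u.2]
    exact pow_le_pow_left₀ (abs_nonneg _) h2 2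
  linarith

private theorem Gauss_sq_ge (u : ℤ × ℤ) : nz u ^ 2 ≤ u.1 ^ 2 + u.2 ^ 2 := by
  unfold nz
  rcases max_cases |u.1| |u.2| with ⟨h, _⟩ | ⟨h, _⟩
  · rw [h, sq_abs]
    nlinarith [sq_nonneg u.2]
  · rw [h, sq_abs]
    nlinarith [sq_nonneg u.1]

private theorem Gauss_nz_nonneg (u : ℤ × ℤ) : 0 ≤ nz u :=
  le_trans (abs_nonneg _) (le_max_left _ _)

private theorem Gauss_dvd_of_gcd {a b c p : ℤ} (h : Int.gcd a b = 1) (h1 : p ∣ c * a) (h2 : p ∣ c * b) :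
    p ∣ c := by
  have hc : IsCoprime a b := Int.isCoprime_iff_gcd_eq_one.mpr h
  obtain ⟨x, y, hxy⟩ := hc
  have : c = x * (c * a) + y * (c * b) := by
    calc c = c * (x * a + y * b) := by rw [hxy, mul_one]
      _ = x * (c * a) + y * (c * b) := by ring
  rw [this]
  exact dvd_add (Dvd.dvd.mul_left h1 _) (Dvd.dvd.mul_left h2 _)

/-- a Gaussian integer which is primitive and `= 1` modulo all the small primes maps small primitive vectors to
primitive vectors.  Proof: let a prime `p` divide both components of `g u`.  From `conj(g) (g u) = N(g) u`,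
`N(g) = g.1^2 + g.2^2`, `p` divides `N(g) u.1` and `N(g) u.2`, so `p | N(g)` (as `gcd u = 1`); from
`conj(u) (g u) = N(u) g` and `gcd g = 1`, `p | N(u)`.  `1 ≤ N(u) ≤ 2 (nz u)^2 ≤ P`, so `p ≤ P`, `p | P!`, hence
`N(g) = 1` modulo `p`, a contradiction.  (`Int.gcd _ _ = 1` from `Nat.Coprime` criteria, e.g.
`Int.isCoprime_iff_gcd_eq_one`, `Nat.exists_prime_and_dvd`.) -/
theorem gcd_gm {P : ℕ} {g u : ℤ × ℤ} (hg : Int.gcd g.1 g.2 = 1) (h1 : ((Nat.factorial P : ℕ) : ℤ) ∣ g.1 - 1)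
    (h2 : ((Nat.factorial P : ℕ) : ℤ) ∣ g.2) (hu : Int.gcd u.1 u.2 = 1) (huP : 2 * nz u ^ 2 ≤ P) :
    Int.gcd (gm g u).1 (gm g u).2 = 1 := by
  by_contra hne
  obtain ⟨p, hp, hpd⟩ := Nat.exists_prime_and_dvd hne
  have hpd' : (p : ℤ) ∣ ((Int.gcd (gm g u).1 (gm g u).2 : ℕ) : ℤ) := Int.natCast_dvd_natCast.mpr hpd
  have hA : (p : ℤ) ∣ (gm g u).1 := hpd'.trans (Int.gcd_dvd_left ..)
  have hB : (p : ℤ) ∣ (gm g u).2 := hpd'.trans (Int.gcd_dvd_right ..)
  have hN : (p : ℤ) ∣ (g.1 ^ 2 + g.2 ^ 2) := by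
    apply Gauss_dvd_of_gcd hu
    · have : (g.1 ^ 2 + g.2 ^ 2) * u.1 = g.1 * (gm g u).1 + g.2 * (gm g u).2 := by
        simp only [gm]
        ring
      rw [this]
      exact dvd_add (Dvd.dvd.mul_left hA _) (Dvd.dvd.mul_left hB _)
    · have : (g.1 ^ 2 + g.2 ^ 2) * u.2 = g.1 * (gm g u).2 - g.2 * (gm g u).1 := by
        simp only [gm]
        ring
      rw [this]
      exact dvd_sub (Dvd.dvd.mul_left hB _) (Dvd.dvd.mul_left hA _)
  have hU : (p : ℤ) ∣ (u.1 ^ 2 + u.2 ^ 2) := by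
    apply Gauss_dvd_of_gcd hg
    · have : (u.1 ^ 2 + u.2 ^ 2) * g.1 = u.1 * (gm g u).1 + u.2 * (gm g u).2 := by
        simp only [gm]
        ring
      rw [this]
      exact dvd_add (Dvd.dvd.mul_left hA _) (Dvd.dvd.mul_left hB _)
    · have : (u.1 ^ 2 + u.2 ^ 2) * g.2 = u.1 * (gm g u).2 - u.2 * (gm g u).1 := by
        simp only [gm]
        ring
      rw [this]
      exact dvd_sub (Dvd.dvd.mul_left hB _) (Dvd.dvd.mul_left hA _)
  have hpos : 0 < u.1 ^ 2 + u.2 ^ 2 := by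
    rcases eq_or_ne u.1 0 with h0 | h0
    · rcases eq_or_ne u.2 0 with h0' | h0'
      · rw [h0, h0'] at hu
        simp at hu
      · have := sq_pos_of_ne_zero h0'
        nlinarith [sq_nonneg u.1]
    · have := sq_pos_of_ne_zero h0
      nlinarith [sq_nonneg u.2]
  have hle : (p : ℤ) ≤ P := by
    have h := Int.le_of_dvd hpos hU
    have h2 := Gauss_sq_le u
    linarith
  have hle' : p ≤ P := by exact_mod_cast hle
  have hpf : (p : ℤ) ∣ ((Nat.factorial P : ℕ) : ℤ) := Int.natCast_dvd_natCast.mpr ((hp.dvd_factorial).mpr hle')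
  have e1 : (p : ℤ) ∣ g.1 - 1 := hpf.trans h1
  have e2 : (p : ℤ) ∣ g.2 := hpf.trans h2
  have e3 : (p : ℤ) ∣ 1 := by
    have : (1 : ℤ) = (g.1 ^ 2 + g.2 ^ 2) - ((g.1 + 1) * (g.1 - 1) + g.2 * g.2) := by ring
    rw [this]
    exact dvd_sub hN (dvd_add (Dvd.dvd.mul_left e1 _) (Dvd.dvd.mul_left e2 _))
  have e4 : p ∣ 1 := by exact_mod_cast e3
  exact hp.one_lt.ne' (Nat.dvd_one.mp e4)

/-- `|g u| ≥ |g|_2 |u|_2 / √2 ≥ W G |u| / √2` in the sup norm `nz`.
Proof: `N(gg) ≥ (W G)^2` and `2 nz(gm g u)^2 ≥ N(gm g u) = N(g) N(u) ≥ (W G)^2 (nz u)^2`. -/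
theorem nz_gm_ge (W G : ℕ) (q : ℕ × ℕ) (u : ℤ × ℤ) :
    (nz u * (W * G)) ^ 2 ≤ 2 * nz (gm (gg W G q) u) ^ 2 := by
  have h1 := Gauss_sq_le (gm (gg W G q) u)
  have h2 := Gauss_sq_ge u
  have hid : (gm (gg W G q) u).1 ^ 2 + (gm (gg W G q) u).2 ^ 2 =
      ((gg W G q).1 ^ 2 + (gg W G q).2 ^ 2) * (u.1 ^ 2 + u.2 ^ 2) := by
    simp only [gm]
    ring
  have hg : ((W : ℤ) * G) ^ 2 ≤ (gg W G q).1 ^ 2 + (gg W G q).2 ^ 2 := by
    have hW : (0 : ℤ) ≤ W := Int.natCast_nonneg _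
    have hG : (0 : ℤ) ≤ G := Int.natCast_nonneg _
    have hq : (0 : ℤ) ≤ q.1 := Int.natCast_nonneg _
    have h3 : (W : ℤ) * G ≤ (gg W G q).1 := by
      simp only [gg]
      nlinarith [mul_nonneg hW hq]
    have h4 : ((W : ℤ) * G) ^ 2 ≤ (gg W G q).1 ^ 2 := pow_le_pow_left₀ (mul_nonneg hW hG) h3 2
    nlinarith [sq_nonneg (gg W G q).2]
  calc (nz u * (W * G)) ^ 2 = ((W : ℤ) * G) ^ 2 * nz u ^ 2 := by ring
    _ ≤ ((gg W G q).1 ^ 2 + (gg W G q).2 ^ 2) * (u.1 ^ 2 + u.2 ^ 2) := by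
        apply mul_le_mul hg h2 (sq_nonneg _)
        nlinarith [sq_nonneg (gg W G q).1, sq_nonneg (gg W G q).2]
    _ = (gm (gg W G q) u).1 ^ 2 + (gm (gg W G q) u).2 ^ 2 := hid.symm
    _ ≤ 2 * nz (gm (gg W G q) u) ^ 2 := h1

/-- `nz (g u) ≤ 2 nz(g) nz(u)` and `nz(gg) ≤ 3 W G` -/
theorem nz_gm_le {W G : ℕ} (hW : 1 ≤ W) (hG : 1 ≤ G) {q : ℕ × ℕ} (hq : q ∈ gbox G) (u : ℤ × ℤ) :
    nz (gm (gg W G q) u) ≤ 6 * W * G * nz u := by
  rw [gbox, Finset.mem_product, Finset.mem_range, Finset.mem_range] at hq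
  obtain ⟨hq1, hq2⟩ := hq
  have hW' : (1 : ℤ) ≤ W := by exact_mod_cast hW
  have hG' : (1 : ℤ) ≤ G := by exact_mod_cast hG
  have q1 : (q.1 : ℤ) + 1 ≤ G := by exact_mod_cast hq1
  have q2 : (q.2 : ℤ) + 1 ≤ G := by exact_mod_cast hq2
  have q10 : (0 : ℤ) ≤ q.1 := Int.natCast_nonneg _
  have q20 : (0 : ℤ) ≤ q.2 := Int.natCast_nonneg _
  have hWG : (0 : ℤ) ≤ W * G := by positivity
  have a1 : |(gg W G q).1| ≤ 2 * (W * G) := by
    have h0 : 0 ≤ (gg W G q).1 := by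
      simp only [gg]
      positivity
    rw [abs_of_nonneg h0]
    simp only [gg]
    nlinarith [mul_le_mul_of_nonneg_left q1 (by linarith : (0 : ℤ) ≤ W)]
  have a2 : |(gg W G q).2| ≤ W * G := by
    have h0 : 0 ≤ (gg W G q).2 := by
      simp only [gg]
      positivity
    rw [abs_of_nonneg h0]
    simp only [gg]
    exact mul_le_mul_of_nonneg_left q2 (by linarith : (0 : ℤ) ≤ W)
  have b1 : |u.1| ≤ nz u := le_max_left _ _
  have b2 : |u.2| ≤ nz u := le_max_right _ _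
  have b0 := Gauss_nz_nonneg u
  have key : ∀ x y : ℤ, |x| ≤ nz u → |y| ≤ nz u →
      |(gg W G q).1| * |x| + |(gg W G q).2| * |y| ≤ 3 * (W * G) * nz u := by
    intro x y hx hy
    have c1 : |(gg W G q).1| * |x| ≤ 2 * (W * G) * nz u :=
      mul_le_mul a1 hx (abs_nonneg _) (by linarith)
    have c2 : |(gg W G q).2| * |y| ≤ W * G * nz u := mul_le_mul a2 hy (abs_nonneg _) hWG
    linarith
  have k1 := key u.1 u.2 b1 b2
  have k2 := key u.2 u.1 b2 b1
  have hfin : 3 * ((W : ℤ) * G) * nz u ≤ 6 * W * G * nz u := by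
    have : 0 ≤ (W : ℤ) * G * nz u := mul_nonneg hWG b0
    linarith
  unfold nz at hfin ⊢
  apply max_le
  · refine le_trans ?_ hfin
    refine le_trans ?_ k1
    simp only [gm]
    calc |(gg W G q).1 * u.1 - (gg W G q).2 * u.2| ≤ |(gg W G q).1 * u.1| + |(gg W G q).2 * u.2| :=
          abs_sub _ _
      _ = |(gg W G q).1| * |u.1| + |(gg W G q).2| * |u.2| := by rw [abs_mul, abs_mul]
  · refine le_trans ?_ hfin
    refine le_trans ?_ k2
    simp only [gm]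
    calc |(gg W G q).1 * u.2 + (gg W G q).2 * u.1| ≤ |(gg W G q).1 * u.2| + |(gg W G q).2 * u.1| :=
          abs_add_le _ _
      _ = |(gg W G q).1| * |u.2| + |(gg W G q).2| * |u.1| := by rw [abs_mul, abs_mul]

private theorem Gauss_card_S {G d W : ℕ} (hd : 0 < d) (hc : Nat.Coprime d W) :
    ((Finset.range G).filter (fun s => (d : ℤ) ∣ 1 + (W : ℤ) * (G + (s : ℕ)))).card ≤ G / d + 1 := by
  have hmap : ∀ s ∈ (Finset.range G).filter (fun s => (d : ℤ) ∣ 1 + (W : ℤ) * (G + (s : ℕ))),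
      s / d ∈ Finset.range (G / d + 1) := by
    intro s hs
    rw [Finset.mem_filter, Finset.mem_range] at hs
    rw [Finset.mem_range]
    exact Nat.lt_succ_of_le (Nat.div_le_div_right hs.1.le)
  have hinj : Set.InjOn (fun s : ℕ => s / d)
      ((Finset.range G).filter (fun s => (d : ℤ) ∣ 1 + (W : ℤ) * (G + (s : ℕ))) : Set ℕ) := by
    intro s hs t ht hst
    rw [Finset.mem_coe, Finset.mem_filter, Finset.mem_range] at hs ht
    have hst' : s / d = t / d := hst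
    have h1 : (d : ℤ) ∣ (W : ℤ) * ((s : ℤ) - t) := by
      have h := dvd_sub hs.2 ht.2
      have e : (1 + (W : ℤ) * (G + (s : ℕ))) - (1 + (W : ℤ) * (G + (t : ℕ))) = (W : ℤ) * ((s : ℤ) - t) := by
        ring
      rwa [e] at h
    have h2 : (d : ℤ) ∣ ((s : ℤ) - t) := by
      have hcop : IsCoprime (d : ℤ) (W : ℤ) := Nat.isCoprime_iff_coprime.mpr hc
      exact hcop.dvd_of_dvd_mul_left h1
    have h3 : (s : ℤ) % d = (t : ℤ) % d :=
      Int.emod_eq_emod_iff_emod_sub_eq_zero.mpr (Int.emod_eq_zero_of_dvd h2)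
    have h4 : s % d = t % d := by exact_mod_cast h3
    calc s = d * (s / d) + s % d := (Nat.div_add_mod s d).symm
      _ = d * (t / d) + t % d := by rw [hst', h4]
      _ = t := Nat.div_add_mod t d
  calc ((Finset.range G).filter (fun s => (d : ℤ) ∣ 1 + (W : ℤ) * (G + (s : ℕ)))).card
      ≤ (Finset.range (G / d + 1)).card := Finset.card_le_card_of_injOn _ hmap hinj
    _ = G / d + 1 := Finset.card_range _

/-- at least half of the dilations are primitive.  Proof: let `d = gcd (1 + P! (G+s)) (P! (t+1)) > 1`.  A prime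
`p ≤ P` divides `P!`, hence not `1 + P! (G+s)`; so the prime factors of `d` are `> P`, `d > P`, `d` is coprime to
`P!`, so `d | t + 1`, `d ≤ G`, and `d | 1 + P! (G + s)`.  For fixed `d` in `(P, G]`: at most `G/d` values of
`t`, at most `G/d + 1 ≤ 2 G/d` values of `s` (they are all congruent modulo `d`).  Sum over `d > P` of
`2 G^2/d^2` is `≤ 2 G^2/P ≤ G^2/2`. -/
theorem gg_prim_card {P G : ℕ} (hP : 16 ≤ P) (hG : 1 ≤ G) :
    (G : ℝ) ^ 2 / 2 ≤ (((gbox G).filter (fun q =>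
      Int.gcd (gg (Nat.factorial P) G q).1 (gg (Nat.factorial P) G q).2 = 1)).card : ℝ) := by
  classical
  set W : ℕ := Nat.factorial P with hW
  have hsplit := Finset.card_filter_add_card_filter_not (s := gbox G)
    (fun q => Int.gcd (gg W G q).1 (gg W G q).2 = 1)
  have hcard : (gbox G).card = G * G := by
    rw [gbox, Finset.card_product, Finset.card_range]
  have hsub : (gbox G).filter (fun q => ¬ Int.gcd (gg W G q).1 (gg W G q).2 = 1) ⊆
      ((Finset.Ioc P G).filter (fun d => Nat.Coprime d W)).biUnion (fun d =>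
        ((Finset.range G).filter (fun s => (d : ℤ) ∣ 1 + (W : ℤ) * (G + (s : ℕ)))) ×ˢ
          ((Finset.range G).filter (fun t => d ∣ t + 1))) := by
    intro q hq
    rw [Finset.mem_filter, gbox, Finset.mem_product, Finset.mem_range, Finset.mem_range] at hq
    obtain ⟨⟨hq1, hq2⟩, hne⟩ := hq
    obtain ⟨p, hp, hpd⟩ := Nat.exists_prime_and_dvd hne
    have hpd' : (p : ℤ) ∣ ((Int.gcd (gg W G q).1 (gg W G q).2 : ℕ) : ℤ) := Int.natCast_dvd_natCast.mpr hpd
    have hA : (p : ℤ) ∣ (gg W G q).1 := hpd'.trans (Int.gcd_dvd_left ..)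
    have hB : (p : ℤ) ∣ (gg W G q).2 := hpd'.trans (Int.gcd_dvd_right ..)
    simp only [gg] at hA hB
    have hpW : ¬ p ∣ W := by
      intro h
      have h' : (p : ℤ) ∣ (W : ℤ) := Int.natCast_dvd_natCast.mpr h
      have h1 : (p : ℤ) ∣ 1 := by
        have e : (1 : ℤ) = (1 + (W : ℤ) * (G + (q.1 : ℕ))) - (W : ℤ) * (G + (q.1 : ℕ)) := by ring
        rw [e]
        exact dvd_sub hA (Dvd.dvd.mul_right h' _)
      have h2 : p ∣ 1 := by exact_mod_cast h1
      exact hp.one_lt.ne' (Nat.dvd_one.mp h2)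
    have hcop : Nat.Coprime p W := (Nat.Prime.coprime_iff_not_dvd hp).mpr hpW
    have hB' : p ∣ W * (q.2 + 1) := by exact_mod_cast hB
    have ht : p ∣ q.2 + 1 := (Nat.Coprime.dvd_of_dvd_mul_left hcop hB')
    have hPp : P < p := by
      by_contra h
      exact hpW ((hp.dvd_factorial).mpr (not_lt.mp h))
    have hpG : p ≤ G := le_trans (Nat.le_of_dvd (Nat.succ_pos _) ht) hq2
    rw [Finset.mem_biUnion]
    refine ⟨p, ?_, ?_⟩
    · rw [Finset.mem_filter, Finset.mem_Ioc]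
      exact ⟨⟨hPp, hpG⟩, hcop⟩
    · rw [Finset.mem_product, Finset.mem_filter, Finset.mem_filter, Finset.mem_range, Finset.mem_range]
      exact ⟨⟨hq1, hA⟩, hq2, ht⟩
  have hbad : (((gbox G).filter (fun q => ¬ Int.gcd (gg W G q).1 (gg W G q).2 = 1)).card : ℝ) ≤
      ∑ d ∈ (Finset.Ioc P G).filter (fun d => Nat.Coprime d W), 2 * (G : ℝ) ^ 2 * ((d : ℝ) ^ 2)⁻¹ := by
    have h1 := (Finset.card_le_card hsub).trans Finset.card_biUnion_le
    have h2 : (((gbox G).filter (fun q => ¬ Int.gcd (gg W G q).1 (gg W G q).2 = 1)).card : ℝ) ≤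
        ((∑ d ∈ (Finset.Ioc P G).filter (fun d => Nat.Coprime d W),
        (((Finset.range G).filter (fun s => (d : ℤ) ∣ 1 + (W : ℤ) * (G + (s : ℕ)))) ×ˢ
          ((Finset.range G).filter (fun t => d ∣ t + 1))).card : ℕ) : ℝ) := by exact_mod_cast h1
    refine h2.trans ?_
    rw [Nat.cast_sum]
    apply Finset.sum_le_sum
    intro d hd
    rw [Finset.mem_filter, Finset.mem_Ioc] at hd
    obtain ⟨⟨hd1, hd2⟩, hd3⟩ := hd
    have hd0 : 0 < d := by omega
    have hdR : (0 : ℝ) < d := by exact_mod_cast hd0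
    rw [Finset.card_product, Nat.cast_mul]
    have e1 : ((((Finset.range G).filter (fun s => (d : ℤ) ∣ 1 + (W : ℤ) * (G + (s : ℕ)))).card : ℕ) : ℝ)
        ≤ 2 * (G : ℝ) / d := by
      have h := Gauss_card_S (G := G) hd0 hd3
      have h' : ((((Finset.range G).filter (fun s => (d : ℤ) ∣ 1 + (W : ℤ) * (G + (s : ℕ)))).card : ℕ) : ℝ)
          ≤ ((G / d + 1 : ℕ) : ℝ) := by exact_mod_cast h
      refine h'.trans ?_
      push_cast
      have h3 : ((G / d : ℕ) : ℝ) ≤ (G : ℝ) / d := Nat.cast_div_le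
      have h4 : (1 : ℝ) ≤ (G : ℝ) / d := by
        rw [le_div_iff₀ hdR, one_mul]
        exact_mod_cast hd2
      have h5 : 2 * (G : ℝ) / d = (G : ℝ) / d + (G : ℝ) / d := by ring
      rw [h5]
      linarith
    have e2 : ((((Finset.range G).filter (fun t => d ∣ t + 1)).card : ℕ) : ℝ) ≤ (G : ℝ) / d := by
      rw [Nat.card_multiples]
      exact Nat.cast_div_le
    calc ((((Finset.range G).filter (fun s => (d : ℤ) ∣ 1 + (W : ℤ) * (G + (s : ℕ)))).card : ℕ) : ℝ) *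
          ((((Finset.range G).filter (fun t => d ∣ t + 1)).card : ℕ) : ℝ)
        ≤ (2 * (G : ℝ) / d) * ((G : ℝ) / d) := by
          apply mul_le_mul e1 e2 (Nat.cast_nonneg _)
          positivity
      _ = 2 * (G : ℝ) ^ 2 * ((d : ℝ) ^ 2)⁻¹ := by
          field_simp
  have hsum : ∑ d ∈ (Finset.Ioc P G).filter (fun d => Nat.Coprime d W), 2 * (G : ℝ) ^ 2 * ((d : ℝ) ^ 2)⁻¹ ≤
      2 * (G : ℝ) ^ 2 * (1 / 16) := by
    have s1 : ∑ d ∈ (Finset.Ioc P G).filter (fun d => Nat.Coprime d W), 2 * (G : ℝ) ^ 2 * ((d : ℝ) ^ 2)⁻¹ ≤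
        ∑ d ∈ Finset.Ioc P G, 2 * (G : ℝ) ^ 2 * ((d : ℝ) ^ 2)⁻¹ := by
      apply Finset.sum_le_sum_of_subset_of_nonneg (Finset.filter_subset _ _)
      intro i _ _
      positivity
    refine s1.trans ?_
    rw [← Finset.mul_sum]
    apply mul_le_mul_of_nonneg_left _ (by positivity)
    rcases le_or_gt P G with hPG | hPG
    · have h := sum_Ioc_inv_sq_le_sub (α := ℝ) (k := P) (n := G) (by omega) hPG
      refine h.trans ?_
      have hPR : (16 : ℝ) ≤ P := by exact_mod_cast hP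
      have h1 : ((P : ℝ))⁻¹ ≤ 1 / 16 := by
        rw [inv_eq_one_div]
        exact one_div_le_one_div_of_le (by norm_num) hPR
      have h2 : (0 : ℝ) ≤ ((G : ℝ))⁻¹ := by positivity
      linarith
    · rw [Finset.Ioc_eq_empty_of_le hPG.le, Finset.sum_empty]
      norm_num
  have htot : (((gbox G).filter (fun q => Int.gcd (gg W G q).1 (gg W G q).2 = 1)).card : ℝ) +
      (((gbox G).filter (fun q => ¬ Int.gcd (gg W G q).1 (gg W G q).2 = 1)).card : ℝ) = (G : ℝ) ^ 2 := by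
    have : ((((gbox G).filter (fun q => Int.gcd (gg W G q).1 (gg W G q).2 = 1)).card +
      ((gbox G).filter (fun q => ¬ Int.gcd (gg W G q).1 (gg W G q).2 = 1)).card : ℕ) : ℝ) = ((G * G : ℕ) : ℝ) := by
      rw [hsplit, hcard]
    push_cast at this
    rw [this]
    ring
  nlinarith [sq_nonneg (G : ℝ)]

end

end Pool.Agent.Lib.MP_a768d2_co
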