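import Pool.Agent.Lib.MP_a768d2_coP.Final

/-!
# P3: the polycrystal theorem, patches of positive density
-/

namespace Pool.Agent.Lib.MP_a768d2_co

noncomputable section

open Classical in
/-- the indices of the points for which at least `θ (2U+1)²` of the sites of a `U`-patch of a lattice spanned by one of
the bases carry points up to the error `r` -/
def patched3 (n K : ℕ) (x : Fin n → ℂ) (a b : Fin K → ℂ) (U : ℕ) (r θ : ℝ) : Finset (Fin n) :=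
  Finset.univ.filter (fun i => ∃ τ : Fin K, θ * (2 * U + 1) ^ 2 ≤
    (Nat.card {s : ℤ × ℤ // |s.1| ≤ U ∧ |s.2| ≤ U ∧ ∃ j, dist (x j) (x i + s.1 * a τ + s.2 * b τ) ≤ r} : ℝ))

theorem Poly3_mono {n : ℕ} (x : Fin n → ℂ) (P a b : ℂ) (U : ℕ) {r r' : ℝ} (h : r ≤ r') :
    Nat.card {s : ℤ × ℤ // |s.1| ≤ U ∧ |s.2| ≤ U ∧ ∃ j, dist (x j) (P + s.1 * a + s.2 * b) ≤ r} ≤
      Nat.card {s : ℤ × ℤ // |s.1| ≤ U ∧ |s.2| ≤ U ∧ ∃ j, dist (x j) (P + s.1 * a + s.2 * b) ≤ r'} := by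
  have hfin : Finite {s : ℤ × ℤ // |s.1| ≤ U ∧ |s.2| ≤ U ∧ ∃ j, dist (x j) (P + s.1 * a + s.2 * b) ≤ r'} := by
    apply Set.Finite.subset (s := {s : ℤ × ℤ | s ∈ Finset.Icc (-(U : ℤ)) U ×ˢ Finset.Icc (-(U : ℤ)) U})
      (Finset.finite_toSet _)
    rintro s ⟨h1, h2, _⟩
    exact Finset.mem_product.2 ⟨Finset.mem_Icc.2 (abs_le.1 h1), Finset.mem_Icc.2 (abs_le.1 h2)⟩
  apply Nat.card_le_card_of_injective
    (fun s : {s : ℤ × ℤ // |s.1| ≤ U ∧ |s.2| ≤ U ∧ ∃ j, dist (x j) (P + s.1 * a + s.2 * b) ≤ r} =>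
      (⟨s.1, s.2.1, s.2.2.1, s.2.2.2.imp fun _ hj => hj.trans h⟩ :
        {s : ℤ × ℤ // |s.1| ≤ U ∧ |s.2| ≤ U ∧ ∃ j, dist (x j) (P + s.1 * a + s.2 * b) ≤ r'}))
  intro s t hst
  have h1 : s.1 = t.1 := congrArg (fun y : {s : ℤ × ℤ // |s.1| ≤ U ∧ |s.2| ≤ U ∧
    ∃ j, dist (x j) (P + s.1 * a + s.2 * b) ≤ r'} => y.1) hst
  exact Subtype.ext h1

/-- POLYCRYSTAL THEOREM, third form. -/
theorem polycrystal3 (c ε κ C θ : ℝ) (K : ℕ) (hc : 0 < c) (hε : 0 < ε) (hκ : 0 < κ) (hC : 0 < C) (hθ : 0 < θ) :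
    ∃ U : ℕ, ∃ N : ℕ, ∀ n : ℕ, N ≤ n → ∀ x : Fin n → ℂ,
      (∀ i, 0 ≤ (x i).re ∧ (x i).re ≤ 1 ∧ 0 ≤ (x i).im ∧ (x i).im ≤ 1) →
      (∀ i j, i ≠ j → ε / Real.sqrt (n : ℝ) < dist (x i) (x j)) →
      ∀ a b : Fin K → ℂ, (∀ τ, Basis2 C n (a τ) (b τ)) →
        κ * n ≤ (patched3 n K x a b U (C / n) θ).card →
        ∃ i j l : Fin n, i ≠ j ∧ j ≠ l ∧ i ≠ l ∧
          EuclideanGeometry.angle (x i) (x j) (x l) < c / n := by
  classical
  rcases Nat.eq_zero_or_pos K with hK | hK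
  · subst hK
    refine ⟨0, 1, ?_⟩
    intro n hn x _ _ a b _ hp
    exfalso
    have he : patched3 n 0 x a b 0 (C / n) θ = ∅ := by
      unfold patched3
      apply Finset.filter_eq_empty_iff.mpr
      rintro i _ ⟨τ, _⟩
      exact τ.elim0
    rw [he, Finset.card_empty] at hp
    have hn0 : (0 : ℝ) < n := by exact_mod_cast hn
    have : 0 < κ * n := by positivity
    simp only [Nat.cast_zero] at hp
    linarith
  have hK0 : (0 : ℝ) < K := by exact_mod_cast hK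
  obtain ⟨C1, hC1⟩ : ∃ C1 : ℝ, C1 = max C 1 := ⟨_, rfl⟩
  have hCC1 : C ≤ C1 := by rw [hC1]; exact le_max_left _ _
  have h1C1 : 1 ≤ C1 := by rw [hC1]; exact le_max_right _ _
  have hC1pos : 0 < C1 := lt_of_lt_of_le hC hCC1
  obtain ⟨θ1, hθ1⟩ : ∃ θ1 : ℝ, θ1 = min θ 1 := ⟨_, rfl⟩
  have hθθ : θ1 ≤ θ := by rw [hθ1]; exact min_le_left _ _
  have hθ1h : θ1 ≤ 1 := by rw [hθ1]; exact min_le_right _ _
  have hθ1pos : 0 < θ1 := by rw [hθ1]; exact lt_min hθ (by norm_num)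
  obtain ⟨U, N, hmain⟩ := crystal3 c ε (κ / K) C1 θ1 hc hε (by positivity) h1C1 hθ1pos hθ1h
  refine ⟨U, max N 1, ?_⟩
  intro n hn x hx hsep a b hab hp
  have hnN : N ≤ n := (le_max_left _ _).trans hn
  have hn1 : 1 ≤ n := (le_max_right _ _).trans hn
  have hn0 : (0 : ℝ) < n := by exact_mod_cast hn1
  have hB : ∀ τ, Basis2 C1 n (a τ) (b τ) := by
    intro τ
    obtain ⟨h1, h2, h3⟩ := hab τ
    have h4 : C / Real.sqrt n ≤ C1 / Real.sqrt n :=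
      div_le_div_of_nonneg_right hCC1 (Real.sqrt_nonneg _)
    refine ⟨h1.trans h4, h2.trans h4, le_trans ?_ h3⟩
    apply one_div_le_one_div_of_le (by positivity)
    exact mul_le_mul_of_nonneg_right hCC1 hn0.le
  -- pigeonhole
  let S : Fin K → Finset (Fin n) := fun τ => Finset.univ.filter (fun i =>
    θ1 * (2 * U + 1) ^ 2 ≤ (Nat.card {s : ℤ × ℤ // |s.1| ≤ U ∧ |s.2| ≤ U ∧
      ∃ j, dist (x j) (x i + s.1 * a τ + s.2 * b τ) ≤ C1 / n} : ℝ))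
  have hsub : patched3 n K x a b U (C / n) θ ⊆ Finset.univ.biUnion S := by
    intro i hi
    unfold patched3 at hi
    rw [Finset.mem_filter] at hi
    obtain ⟨_, τ, hτ⟩ := hi
    rw [Finset.mem_biUnion]
    refine ⟨τ, Finset.mem_univ _, Finset.mem_filter.mpr ⟨Finset.mem_univ _, ?_⟩⟩
    have e1 : θ1 * (2 * (U : ℝ) + 1) ^ 2 ≤ θ * (2 * U + 1) ^ 2 :=
      mul_le_mul_of_nonneg_right (by linarith) (by positivity)
    refine e1.trans (hτ.trans ?_)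
    exact_mod_cast Poly3_mono x (x i) (a τ) (b τ) U (div_le_div_of_nonneg_right hCC1 hn0.le)
  have hex : ∃ τ, κ / K * n ≤ ((S τ).card : ℝ) := by
    by_contra hcon
    push Not at hcon
    have h1 : ((patched3 n K x a b U (C / n) θ).card : ℝ) ≤ ∑ τ, ((S τ).card : ℝ) := by
      have := (Finset.card_le_card hsub).trans Finset.card_biUnion_le
      exact_mod_cast this
    have h2 : ∑ τ, ((S τ).card : ℝ) < ∑ _τ : Fin K, κ / K * n := by
      apply Finset.sum_lt_sum_of_nonempty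
      · exact ⟨⟨0, hK⟩, Finset.mem_univ _⟩
      · intro τ _
        exact hcon τ
    rw [Finset.sum_const, nsmul_eq_mul, Finset.card_univ, Fintype.card_fin] at h2
    have h3 : (K : ℝ) * (κ / K * n) = κ * n := by
      field_simp
    linarith
  obtain ⟨τ, hτ⟩ := hex
  exact hmain n hnN x hx hsep (a τ) (b τ) (hB τ) (S τ) hτ fun i hi => (Finset.mem_filter.mp hi).2

end

end Pool.Agent.Lib.MP_a768d2_co
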