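import Pool.Agent.Lib.MP_a768d2_coP.Unif
import Pool.Agent.Lib.MP_a768d2_coP.GoodZ

/-!
# P3: the pointwise criterion
-/

namespace Pool.Agent.Lib.MP_a768d2_co

noncomputable section

variable {A : Type} [AddCommGroup A] [Fintype A]

open Classical in
/-- indicator function -/
def ind (Q : A → Prop) (x : A) : ℝ := if Q x then 1 else 0

private theorem Pw_ind (Q : A → Prop) (x : A) : 0 ≤ ind Q x ∧ ind Q x ≤ 1 := by
  unfold ind
  split_ifs <;> norm_num

private theorem Pw_abs (Q : A → Prop) (x : A) : |ind Q x| ≤ 1 := by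
  rw [abs_of_nonneg (Pw_ind Q x).1]
  exact (Pw_ind Q x).2

open Classical in
private theorem Pw_cnt {β : Type} (S : Finset β) (Q : A → Prop) (g : β → A) :
    ((S.filter (fun s => Q (g s))).card : ℝ) = ∑ s ∈ S, ind Q (g s) := by
  unfold ind
  rw [Finset.sum_boole]

private theorem Pw_comm (ι : ℤ × ℤ →+ A) (W L : ℕ) (w : A) (M : ℕ) (g : A → ℝ) :
    sqa ι W L (av w M g) = av w M (sqa ι W L g) := by
  unfold sqa
  rw [av_comm (ι (0, (W : ℤ))) w L M g, av_comm (ι ((W : ℤ), 0)) w L M]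

private theorem Pw_iota (ι : ℤ × ℤ →+ A) (W : ℕ) (a v : ℤ × ℤ) (τ : ℕ) :
    ι ((W : ℤ) * (a.1 + τ * v.1), (W : ℤ) * (a.2 + τ * v.2)) =
      ι ((W : ℤ) * a.1, (W : ℤ) * a.2) + τ • ι ((W : ℤ) * v.1, (W : ℤ) * v.2) := by
  rw [← map_nsmul, ← map_add]
  congr 1
  refine Prod.ext ?_ ?_
  · show (W : ℤ) * (a.1 + τ * v.1) = (W : ℤ) * a.1 + τ • ((W : ℤ) * v.1)
    rw [nsmul_eq_mul]
    ring
  · show (W : ℤ) * (a.2 + τ * v.2) = (W : ℤ) * a.2 + τ • ((W : ℤ) * v.2)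
    rw [nsmul_eq_mul]
    ring

private theorem Pw_gbox (L : ℕ) : ((gbox L).card : ℝ) = (L : ℝ) ^ 2 := by
  unfold gbox
  rw [Finset.card_product, Finset.card_range]
  push_cast
  ring

private theorem Pw_mem {L : ℕ} {s : ℕ × ℕ} (hs : s ∈ gbox L) : (s.1 : ℝ) ≤ L ∧ (s.2 : ℝ) ≤ L := by
  unfold gbox at hs
  rw [Finset.mem_product, Finset.mem_range, Finset.mem_range] at hs
  exact ⟨by exact_mod_cast hs.1.le, by exact_mod_cast hs.2.le⟩

/-- Markov -/
private theorem Pw_markov {β : Type} (S T : Finset β) (hT : T ⊆ S) (g : β → ℝ) (h0 : ∀ s ∈ S, 0 ≤ g s)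
    {c : ℝ} (h : ∀ s ∈ T, c ≤ g s) : (T.card : ℝ) * c ≤ ∑ s ∈ S, g s := by
  calc (T.card : ℝ) * c = ∑ _s ∈ T, c := by rw [Finset.sum_const, nsmul_eq_mul]
    _ ≤ ∑ s ∈ T, g s := Finset.sum_le_sum h
    _ ≤ ∑ s ∈ S, g s := Finset.sum_le_sum_of_subset_of_nonneg hT fun s hs _ => h0 s hs

/-- POINTWISE CRITERION.  Notation: `f = ind Q`, `F = PP ι W Le f`, `F' = PP ι (W ρ) L1 f`, `D = F' - F`,
`φ = f - F'`, `V = 6 M W0 G k0`, `ϑ = θ²`; all values of `F, F'` are in `[0,1]`, `|D| ≤ 1`, `|φ| ≤ 1`.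
(1) `|F y - F x| ≤ 4 (L + V)/Le ≤ ϑ/16` for `y = x + ι (W z)`, `|z.1|, |z.2| ≤ L + V` (`PP_shift`, n1).
(2) density: `(1/L²) #{s : Q (x + W s)} = sqa f x = sqa F x + sqa D x + sqa φ x ≥ (ϑ/2 - ϑ/16) - ϑ²/1024 - ϑ/16`
(`sqa_nest` and n3 for `φ`, `|sqa D| ≤ sqa |D|`), which is `≥ ϑ/8`.
(3) let `u, q`, `v = gm (gg W0 G q) u`, `w = ι (W v) = ι (stp W W0 G u q)`, `|v.1|, |v.2| ≤ 6 W0 G k0` (`nz_gm_le`).
If the row of `s` is poor then for `y = x + ι (W s)`: `av w M f y < ϑ/8`, and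
`av w M f y ≥ (ϑ/2 - ϑ/16) - av w M |D| y - |av w M φ y|` by (1), so `av w M |D| y ≥ ϑ/8` or `|av w M φ y| ≥ ϑ/8`.
The number of `s` of the first kind is at most `(8/ϑ) L² sqa (av w M |D|) x`, and
`sqa (av w M |D|) x = av w M (sqa |D|) x ≤ sqa |D| x + 4 V/L` (`av_comm`, `sqa_shift`), `≤ 2 ϑ²/1024` by g2, n2: at most
`(ϑ/64) L²` of them.  The number of the second kind is at most `(64/ϑ²) L² a(q)`, `a(q) = sqa ((av w M φ)²) x`.
So if `q` is bad (`> (ϑ/32) L²` poor rows) then `a(q) > ϑ³/4096`; by g3 there are at most `δ G²` bad `q`. -/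
theorem pw {ι : ℤ × ℤ →+ A} {Q : A → Prop} {θ δ : ℝ} {k0 W0 M W G L Le ρ L1 : ℕ} (hθ : 0 < θ) (hθ1 : θ ≤ 1)
    (hM : 1 ≤ M) (hW : 1 ≤ W) (hW0 : 1 ≤ W0) (hG : 1 ≤ G) (hL : 1 ≤ L) (hLe : 1 ≤ Le) (hL1 : 1 ≤ L1)
    (n1 : 64 * ((L : ℝ) + 6 * M * W0 * G * k0) ≤ θ ^ 2 * Le)
    (n2 : 4096 * (6 * (M : ℝ) * W0 * G * k0) ≤ θ ^ 4 * L)
    (n3 : 64 * (ρ : ℝ) * L1 ≤ θ ^ 2 * L) (x : A)
    (g1 : θ ^ 2 / 2 ≤ PP ι W Le (ind Q) x)
    (g2 : sqa ι W L (fun y => |PP ι (W * ρ) L1 (ind Q) y - PP ι W Le (ind Q) y|) x ≤ θ ^ 4 / 1024)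
    (g3 : ∀ u : ℤ × ℤ, nz u ≤ k0 → Int.gcd u.1 u.2 = 1 →
      (∑ q ∈ gbox G, sqa ι W L (fun y => av (ι (stp W W0 G u q)) M
        (fun z => ind Q z - PP ι (W * ρ) L1 (ind Q) z) y ^ 2) x) / (G : ℝ) ^ 2 ≤ δ * θ ^ 6 / 4096) :
    GoodZ (fun z => Q (x + ι z)) (θ ^ 2 / 8) δ k0 W0 M W G L := by
  classical
  have hW' : (0 : ℝ) < L := by exact_mod_cast hL
  have hM' : (0 : ℝ) < M := by exact_mod_cast hM
  have hLe' : (0 : ℝ) < Le := by exact_mod_cast hLe
  have hG' : (0 : ℝ) < G := by exact_mod_cast hG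
  have hθ2 : 0 < θ ^ 2 := by positivity
  have hθ4 : θ ^ 4 ≤ θ ^ 2 := by
    have h1 : θ ^ 2 ≤ 1 := pow_le_one₀ hθ.le hθ1
    nlinarith
  obtain ⟨F, hF⟩ : ∃ F : A → ℝ, F = PP ι W Le (ind Q) := ⟨_, rfl⟩
  obtain ⟨F', hF'⟩ : ∃ F' : A → ℝ, F' = PP ι (W * ρ) L1 (ind Q) := ⟨_, rfl⟩
  rw [← hF] at g1
  rw [← hF, ← hF'] at g2
  rw [← hF'] at g3
  have hFm : ∀ y, 0 ≤ F y ∧ F y ≤ 1 := fun y => by
    rw [hF]
    exact PP_mem (fun x => (Pw_ind Q x).1) (fun x => (Pw_ind Q x).2) y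
  have hFm' : ∀ y, 0 ≤ F' y ∧ F' y ≤ 1 := fun y => by
    rw [hF']
    exact PP_mem (fun x => (Pw_ind Q x).1) (fun x => (Pw_ind Q x).2) y
  obtain ⟨D, hD⟩ : ∃ D : A → ℝ, D = fun y => |F' y - F y| := ⟨_, rfl⟩
  obtain ⟨φ, hφ⟩ : ∃ φ : A → ℝ, φ = fun z => ind Q z - F' z := ⟨_, rfl⟩
  rw [← hD] at g2
  rw [← hφ] at g3
  have hD0 : ∀ y, 0 ≤ D y := fun y => by
    rw [hD]
    exact abs_nonneg _
  have hDe : ∀ y, D y = |F' y - F y| := fun y => by rw [hD]
  have hφe : ∀ y, φ y = ind Q y - F' y := fun y => by rw [hφ]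
  have hD1 : ∀ y, |D y| ≤ 1 := fun y => by
    rw [abs_of_nonneg (hD0 y), hDe, abs_le]
    constructor <;> linarith [(hFm y).1, (hFm y).2, (hFm' y).1, (hFm' y).2]
  obtain ⟨V, hV⟩ : ∃ V : ℝ, V = 6 * (M : ℝ) * W0 * G * k0 := ⟨_, rfl⟩
  have hV0 : 0 ≤ V := by
    rw [hV]
    positivity
  rw [← hV] at n1 n2
  have hshift : ∀ z : ℤ × ℤ, |(z.1 : ℝ)| ≤ L + V → |(z.2 : ℝ)| ≤ L + V →
      F x - θ ^ 2 / 16 ≤ F (x + ι ((W : ℤ) * z.1, (W : ℤ) * z.2)) := by
    intro z h1 h2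
    have h3 := PP_shift (ι := ι) (W := W) (L := Le) (F := ind Q) (B := 1) zero_le_one
      (Pw_abs Q) z x
    rw [← hF] at h3
    have h4 : 2 * 1 * (|(z.1 : ℝ)| + |(z.2 : ℝ)|) / Le ≤ θ ^ 2 / 16 := by
      rw [div_le_iff₀ hLe']
      linarith
    have h5 := (abs_le.1 (h3.trans h4)).1
    linarith
  constructor
  · -- density
    have e1 : sqa ι W L (ind Q) x = ((((gbox L).filter (fun s =>
        (fun z => Q (x + ι z)) ((W : ℤ) * s.1, (W : ℤ) * s.2))).card : ℕ) : ℝ) / (L : ℝ) ^ 2 := by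
      rw [sqa_eq]
      congr 1
      exact (Pw_cnt (gbox L) Q fun s => x + ι ((W : ℤ) * s.1, (W : ℤ) * s.2)).symm
    have e2 := sqa_nest (ι := ι) (W := W) (L := L) (r := ρ) hL1 (Pw_abs Q) x
    rw [← hF'] at e2
    have e3 : 4 * (ρ : ℝ) * L1 / L ≤ θ ^ 2 / 16 := by
      rw [div_le_iff₀ hW']
      linarith
    have e4 := (abs_le.1 (e2.trans e3)).2
    have e5 := sqa_sub ι W L F F' x
    have e6 : sqa ι W L (fun y => F y - F' y) x ≤ sqa ι W L D x := by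
      refine sqa_mono ι W L (fun y => ?_) x
      rw [hDe, abs_sub_comm]
      exact le_abs_self _
    have e7 : F x - θ ^ 2 / 16 ≤ sqa ι W L F x := by
      rw [sqa_eq, le_div_iff₀ (by positivity), ← Pw_gbox, mul_comm, ← nsmul_eq_mul,
        ← Finset.sum_const]
      refine Finset.sum_le_sum fun s hs => hshift (s.1, s.2) ?_ ?_
      · show |(((s.1 : ℕ) : ℤ) : ℝ)| ≤ L + V
        rw [Int.cast_natCast, Nat.abs_cast]
        linarith [(Pw_mem hs).1]
      · show |(((s.2 : ℕ) : ℤ) : ℝ)| ≤ L + V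
        rw [Int.cast_natCast, Nat.abs_cast]
        linarith [(Pw_mem hs).2]
    have e8 : θ ^ 2 / 8 ≤ sqa ι W L (ind Q) x := by linarith
    rw [e1, le_div_iff₀ (by positivity)] at e8
    exact e8
  · intro u hu hgcd
    have hg3 := g3 u hu hgcd
    -- one parameter
    have key : ∀ q ∈ badq (fun z => Q (x + ι z)) (θ ^ 2 / 8) W0 M W G L u,
        θ ^ 6 / 4096 ≤ sqa ι W L (fun y => av (ι (stp W W0 G u q)) M φ y ^ 2) x := by
      intro q hq
      unfold badq at hq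
      rw [Finset.mem_filter] at hq
      obtain ⟨hqG, hqb⟩ := hq
      obtain ⟨v, hv⟩ : ∃ v, v = gm (gg W0 G q) u := ⟨_, rfl⟩
      rw [← hv] at hqb
      obtain ⟨w, hw⟩ : ∃ w, w = ι (stp W W0 G u q) := ⟨_, rfl⟩
      have hw' : w = ι ((W : ℤ) * v.1, (W : ℤ) * v.2) := by
        rw [hw, hv]
        rfl
      rw [← hw]
      have hvb : |(v.1 : ℝ)| ≤ 6 * W0 * G * k0 ∧ |(v.2 : ℝ)| ≤ 6 * W0 * G * k0 := by
        have h1 := nz_gm_le hW0 hG hqG u
        rw [← hv] at h1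
        have h2 : (nz v : ℤ) ≤ 6 * W0 * G * k0 := by
          refine h1.trans ?_
          exact mul_le_mul_of_nonneg_left hu (by positivity)
        have h3 : |v.1| ≤ 6 * (W0 : ℤ) * G * k0 := (le_max_left _ _).trans h2
        have h4 : |v.2| ≤ 6 * (W0 : ℤ) * G * k0 := (le_max_right _ _).trans h2
        constructor
        · exact_mod_cast h3
        · exact_mod_cast h4
      have hτv : ∀ τ ∈ Finset.range M, (τ : ℝ) * |(v.1 : ℝ)| ≤ V ∧ (τ : ℝ) * |(v.2 : ℝ)| ≤ V := by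
        intro τ hτ
        have h1 : (τ : ℝ) ≤ M := by exact_mod_cast (Finset.mem_range.1 hτ).le
        have h2 : V = (M : ℝ) * (6 * W0 * G * k0) := by
          rw [hV]
          ring
        rw [h2]
        exact ⟨mul_le_mul h1 hvb.1 (abs_nonneg _) hM'.le, mul_le_mul h1 hvb.2 (abs_nonneg _) hM'.le⟩
      -- the starting points
      obtain ⟨pt, hpt⟩ : ∃ pt : ℕ × ℕ → A, pt = fun s => x + ι ((W : ℤ) * s.1, (W : ℤ) * s.2) :=
        ⟨_, rfl⟩
      have hpoint : ∀ (s : ℕ × ℕ) (τ : ℕ), pt s + τ • w =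
          x + ι ((W : ℤ) * ((s.1 : ℤ) + τ * v.1), (W : ℤ) * ((s.2 : ℤ) + τ * v.2)) := by
        intro s τ
        have h1 := Pw_iota ι W ((s.1 : ℤ), (s.2 : ℤ)) v τ
        rw [hpt, hw']
        show x + ι ((W : ℤ) * s.1, (W : ℤ) * s.2) + τ • ι ((W : ℤ) * v.1, (W : ℤ) * v.2) = _
        rw [add_assoc]
        congr 1
        exact h1.symm
      have hpoor : ∀ s ∈ gbox L, ¬ Rich (fun z => Q (x + ι z)) (θ ^ 2 / 8) W M v s →
          av w M (ind Q) (pt s) < θ ^ 2 / 8 := by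
        intro s _ hs
        unfold Rich at hs
        push Not at hs
        unfold av
        rw [div_lt_iff₀ hM']
        have h1 : ∑ τ ∈ Finset.range M, ind Q (pt s + τ • w) = ((((Finset.range M).filter (fun τ : ℕ =>
            Q (x + ι ((W : ℤ) * ((s.1 : ℤ) + τ * v.1), (W : ℤ) * ((s.2 : ℤ) + τ * v.2))))).card : ℕ) : ℝ) := by
          rw [Pw_cnt (Finset.range M) Q fun τ : ℕ =>
            x + ι ((W : ℤ) * ((s.1 : ℤ) + τ * v.1), (W : ℤ) * ((s.2 : ℤ) + τ * v.2))]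
          exact Finset.sum_congr rfl fun τ _ => by rw [hpoint]
        rw [h1]
        exact hs
      have hFav : ∀ s ∈ gbox L, F x - θ ^ 2 / 16 ≤ av w M F (pt s) := by
        intro s hs
        unfold av
        rw [le_div_iff₀ hM']
        have h1 : (F x - θ ^ 2 / 16) * M = ∑ _τ ∈ Finset.range M, (F x - θ ^ 2 / 16) := by
          rw [Finset.sum_const, Finset.card_range, nsmul_eq_mul, mul_comm]
        rw [h1]
        refine Finset.sum_le_sum fun τ hτ => ?_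
        rw [hpoint]
        refine hshift ((s.1 : ℤ) + τ * v.1, (s.2 : ℤ) + τ * v.2) ?_ ?_
        · show |(((s.1 : ℤ) + τ * v.1 : ℤ) : ℝ)| ≤ L + V
          push_cast
          refine (abs_add_le _ _).trans ?_
          rw [Nat.abs_cast, abs_mul, Nat.abs_cast]
          exact add_le_add (Pw_mem hs).1 (hτv τ hτ).1
        · show |(((s.2 : ℤ) + τ * v.2 : ℤ) : ℝ)| ≤ L + V
          push_cast
          refine (abs_add_le _ _).trans ?_
          rw [Nat.abs_cast, abs_mul, Nat.abs_cast]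
          exact add_le_add (Pw_mem hs).2 (hτv τ hτ).2
      obtain ⟨T1, hT1⟩ : ∃ T1 : Finset (ℕ × ℕ), T1 = (gbox L).filter fun s =>
          θ ^ 2 / 8 ≤ av w M D (pt s) := ⟨_, rfl⟩
      obtain ⟨T2, hT2⟩ : ∃ T2 : Finset (ℕ × ℕ), T2 = (gbox L).filter fun s =>
          θ ^ 2 / 8 ≤ |av w M φ (pt s)| := ⟨_, rfl⟩
      have hsub : ((gbox L).filter (fun s =>
          ¬ Rich (fun z => Q (x + ι z)) (θ ^ 2 / 8) W M v s)) ⊆ T1 ∪ T2 := by
        intro s hs
        rw [Finset.mem_filter] at hs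
        obtain ⟨hs1, hs2⟩ := hs
        rw [Finset.mem_union]
        by_contra hc
        push Not at hc
        obtain ⟨hc1, hc2⟩ := hc
        have h1 : av w M D (pt s) < θ ^ 2 / 8 := by
          by_contra h
          exact hc1 (by rw [hT1]; exact Finset.mem_filter.2 ⟨hs1, not_lt.1 h⟩)
        have h2 : |av w M φ (pt s)| < θ ^ 2 / 8 := by
          by_contra h
          exact hc2 (by rw [hT2]; exact Finset.mem_filter.2 ⟨hs1, not_lt.1 h⟩)
        have h3 := hpoor s hs1 hs2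
        have h4 := hFav s hs1
        have h5 : av w M F (pt s) ≤ av w M (fun y => (ind Q y + D y) - φ y) (pt s) := by
          refine av_mono (fun y => ?_) _
          rw [hφe, hDe]
          have := neg_abs_le (F' y - F y)
          linarith [abs_nonneg (F' y - F y), neg_abs_le (F' y - F y), le_abs_self (F' y - F y)]
        rw [av_sub, av_add] at h5
        have h6 := neg_abs_le (av w M φ (pt s))
        linarith
      -- the first kind
      have hc1 : (T1.card : ℝ) ≤ θ ^ 2 / 64 * (L : ℝ) ^ 2 := by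
        have h1 : (T1.card : ℝ) * (θ ^ 2 / 8) ≤ ∑ s ∈ gbox L, av w M D (pt s) := by
          refine Pw_markov (gbox L) T1 (by rw [hT1]; exact Finset.filter_subset _ _) _
            (fun s _ => av_nonneg hD0 _) fun s hs => ?_
          rw [hT1] at hs
          exact (Finset.mem_filter.1 hs).2
        have h2 : ∑ s ∈ gbox L, av w M D (pt s) = (L : ℝ) ^ 2 * sqa ι W L (av w M D) x := by
          rw [sqa_eq, mul_div_cancel₀ _ (by positivity), hpt]
        have h3 : sqa ι W L (av w M D) x ≤ θ ^ 4 / 1024 + θ ^ 4 / 1024 := by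
          rw [Pw_comm]
          unfold av
          rw [div_le_iff₀ hM']
          have h4 : (θ ^ 4 / 1024 + θ ^ 4 / 1024) * M =
              ∑ _τ ∈ Finset.range M, (θ ^ 4 / 1024 + θ ^ 4 / 1024) := by
            rw [Finset.sum_const, Finset.card_range, nsmul_eq_mul, mul_comm]
          rw [h4]
          refine Finset.sum_le_sum fun τ hτ => ?_
          have h5 := sqa_shift (ι := ι) (W := W) (L := L) (F := D) (B := 1) hD1
            ((τ : ℤ) * v.1, (τ : ℤ) * v.2) x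
          have h6 : x + ι ((W : ℤ) * ((τ : ℤ) * v.1, (τ : ℤ) * v.2).1,
              (W : ℤ) * ((τ : ℤ) * v.1, (τ : ℤ) * v.2).2) = x + τ • w := by
            have h7 := Pw_iota ι W (0, 0) v τ
            simp only [zero_add, mul_zero] at h7
            have h8 : ι ((0 : ℤ), (0 : ℤ)) = 0 := map_zero ι
            rw [h8, zero_add] at h7
            rw [hw', ← h7]
          rw [h6] at h5
          have h7 : 2 * 1 * (|((((τ : ℤ) * v.1, (τ : ℤ) * v.2) : ℤ × ℤ).1 : ℝ)| +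
              |((((τ : ℤ) * v.1, (τ : ℤ) * v.2) : ℤ × ℤ).2 : ℝ)|) / L ≤ θ ^ 4 / 1024 := by
            show 2 * 1 * (|(((τ : ℤ) * v.1 : ℤ) : ℝ)| + |(((τ : ℤ) * v.2 : ℤ) : ℝ)|) / L ≤ _
            push_cast
            rw [abs_mul, abs_mul, Nat.abs_cast, div_le_iff₀ hW']
            have h8 := (hτv τ hτ).1
            have h9 := (hτv τ hτ).2
            linarith
          have h8 := (abs_le.1 (h5.trans h7)).2
          linarith
        rw [h2] at h1
        have h4 : (T1.card : ℝ) * (θ ^ 2 / 8) ≤ (L : ℝ) ^ 2 * (θ ^ 4 / 512) := by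
          refine h1.trans (mul_le_mul_of_nonneg_left ?_ (by positivity))
          linarith
        have h5 : (L : ℝ) ^ 2 * (θ ^ 4 / 512) = θ ^ 2 / 64 * (L : ℝ) ^ 2 * (θ ^ 2 / 8) := by ring
        rw [h5] at h4
        exact le_of_mul_le_mul_right h4 (by positivity)
      -- the second kind
      have hc2 : (T2.card : ℝ) * (θ ^ 4 / 64) ≤
          (L : ℝ) ^ 2 * sqa ι W L (fun y => av w M φ y ^ 2) x := by
        have h1 : (T2.card : ℝ) * (θ ^ 4 / 64) ≤ ∑ s ∈ gbox L, av w M φ (pt s) ^ 2 := by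
          refine Pw_markov (gbox L) T2 (by rw [hT2]; exact Finset.filter_subset _ _) _
            (fun s _ => sq_nonneg _) fun s hs => ?_
          rw [hT2] at hs
          have h2 := (Finset.mem_filter.1 hs).2
          rw [← sq_abs (av w M φ (pt s))]
          have h3 : (θ ^ 2 / 8) ^ 2 ≤ |av w M φ (pt s)| ^ 2 := pow_le_pow_left₀ (by positivity) h2 2
          have h4 : (θ ^ 2 / 8) ^ 2 = θ ^ 4 / 64 := by ring
          rw [h4] at h3
          exact h3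
        have h2 : ∑ s ∈ gbox L, av w M φ (pt s) ^ 2 =
            (L : ℝ) ^ 2 * sqa ι W L (fun y => av w M φ y ^ 2) x := by
          rw [sqa_eq, mul_div_cancel₀ _ (by positivity), hpt]
        rw [h2] at h1
        exact h1
      have hcard := Finset.card_le_card hsub
      have hcard' := hcard.trans (Finset.card_union_le _ _)
      have hcard2 : ((((gbox L).filter (fun s =>
          ¬ Rich (fun z => Q (x + ι z)) (θ ^ 2 / 8) W M v s)).card : ℕ) : ℝ) ≤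
          (T1.card : ℝ) + T2.card := by exact_mod_cast hcard'
      have h1 : θ ^ 2 / 64 * (L : ℝ) ^ 2 ≤ T2.card := by
        have h2 : θ ^ 2 / 8 / 4 * (L : ℝ) ^ 2 = θ ^ 2 / 64 * (L : ℝ) ^ 2 + θ ^ 2 / 64 * (L : ℝ) ^ 2 := by
          ring
        linarith
      have h2 : θ ^ 2 / 64 * (L : ℝ) ^ 2 * (θ ^ 4 / 64) ≤
          (L : ℝ) ^ 2 * sqa ι W L (fun y => av w M φ y ^ 2) x :=
        (mul_le_mul_of_nonneg_right h1 (by positivity)).trans hc2
      have h3 : θ ^ 2 / 64 * (L : ℝ) ^ 2 * (θ ^ 4 / 64) = (L : ℝ) ^ 2 * (θ ^ 6 / 4096) := by ring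
      rw [h3] at h2
      exact le_of_mul_le_mul_left h2 (by positivity)
    have hsq0 : ∀ q, 0 ≤ sqa ι W L (fun y => av (ι (stp W W0 G u q)) M φ y ^ 2) x := by
      intro q
      rw [sqa_eq]
      exact div_nonneg (Finset.sum_nonneg fun s _ => sq_nonneg _) (by positivity)
    have h1 := Pw_markov (gbox G) (badq (fun z => Q (x + ι z)) (θ ^ 2 / 8) W0 M W G L u)
      (Finset.filter_subset _ _)
      (fun q => sqa ι W L (fun y => av (ι (stp W W0 G u q)) M φ y ^ 2) x) (fun q _ => hsq0 q) key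
    rw [div_le_iff₀ (by positivity)] at hg3
    have h2 := h1.trans hg3
    have h3 : δ * θ ^ 6 / 4096 * (G : ℝ) ^ 2 = δ * (G : ℝ) ^ 2 * (θ ^ 6 / 4096) := by ring
    rw [h3] at h2
    exact le_of_mul_le_mul_right h2 (by positivity)

end

end Pool.Agent.Lib.MP_a768d2_co
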