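import Pool.Agent.Lib.MP_a768d2_coP.Av
import Pool.Agent.Lib.MP_a768d2_coP.Gauss

/-!
# P3: averages over squares

`ι : ℤ × ℤ →+ A`.  `sqa ι W L F x` is the average of `F (x + ι (W s))`, `s ∈ [0,L)²`; `PP ι W L = (sqa)* ∘ sqa`.
-/

namespace Pool.Agent.Lib.MP_a768d2_co

noncomputable section

variable {A : Type} [AddCommGroup A] [Fintype A]

/-- average over the square `x + W [0,L)²` -/
def sqa (ι : ℤ × ℤ →+ A) (W L : ℕ) (F : A → ℝ) : A → ℝ :=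
  av (ι ((W : ℤ), 0)) L (av (ι (0, (W : ℤ))) L F)

/-- the adjoint -/
def sqb (ι : ℤ × ℤ →+ A) (W L : ℕ) (F : A → ℝ) : A → ℝ :=
  av (-ι ((W : ℤ), 0)) L (av (-ι (0, (W : ℤ))) L F)

/-- the positive operator `(sqa)* ∘ sqa` -/
def PP (ι : ℤ × ℤ →+ A) (W L : ℕ) (F : A → ℝ) : A → ℝ := sqb ι W L (sqa ι W L F)

private theorem Sq_iota_int (ι : ℤ × ℤ →+ A) (W : ℕ) (a b : ℤ) :
    ι ((W : ℤ) * a, (W : ℤ) * b) = a • ι ((W : ℤ), 0) + b • ι (0, (W : ℤ)) := by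
  have h : ((W : ℤ) * a, (W : ℤ) * b) = a • ((W : ℤ), (0 : ℤ)) + b • ((0 : ℤ), (W : ℤ)) := by
    ext
    · simp [mul_comm]
    · simp [mul_comm]
  rw [h, map_add, map_zsmul, map_zsmul]

private theorem Sq_iota_nat (ι : ℤ × ℤ →+ A) (W : ℕ) (a b : ℕ) :
    ι ((W : ℤ) * (a : ℤ), (W : ℤ) * (b : ℤ)) = a • ι ((W : ℤ), 0) + b • ι (0, (W : ℤ)) := by
  rw [Sq_iota_int, natCast_zsmul, natCast_zsmul]

theorem sqa_eq (ι : ℤ × ℤ →+ A) (W L : ℕ) (F : A → ℝ) (x : A) :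
    sqa ι W L F x = (∑ s ∈ gbox L, F (x + ι ((W : ℤ) * s.1, (W : ℤ) * s.2))) / (L : ℝ) ^ 2 := by
  have hS := Sq_iota_nat ι W
  unfold sqa av gbox
  rw [Finset.sum_product, Finset.sum_div]
  have hc : ∀ s ∈ Finset.range L,
      (∑ t ∈ Finset.range L, F (x + s • ι ((W : ℤ), 0) + t • ι (0, (W : ℤ)))) / (L : ℝ) / L =
      (∑ t ∈ Finset.range L, F (x + ι ((W : ℤ) * (s : ℤ), (W : ℤ) * (t : ℤ)))) / (L : ℝ) ^ 2 := by
    intro s _
    rw [div_div, ← pow_two]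
    congr 1
    apply Finset.sum_congr rfl
    intro t _
    rw [hS, add_assoc]
  rw [Finset.sum_congr rfl hc, ← Finset.sum_div]

theorem sqa_mono (ι : ℤ × ℤ →+ A) (W L : ℕ) {F G : A → ℝ} (h : ∀ x, F x ≤ G x) (x : A) :
    sqa ι W L F x ≤ sqa ι W L G x := by
  unfold sqa
  exact av_mono (fun y => av_mono h y) x

theorem sqa_sub (ι : ℤ × ℤ →+ A) (W L : ℕ) (F G : A → ℝ) (x : A) :
    sqa ι W L (fun y => F y - G y) x = sqa ι W L F x - sqa ι W L G x := by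
  unfold sqa
  rw [show av (ι (0, (W : ℤ))) L (fun y => F y - G y) =
    fun y => av (ι (0, (W : ℤ))) L F y - av (ι (0, (W : ℤ))) L G y from
      funext fun y => av_sub _ _ F G y]
  exact av_sub _ _ _ _ x

theorem sqa_add (ι : ℤ × ℤ →+ A) (W L : ℕ) (F G : A → ℝ) (x : A) :
    sqa ι W L (fun y => F y + G y) x = sqa ι W L F x + sqa ι W L G x := by
  unfold sqa
  rw [show av (ι (0, (W : ℤ))) L (fun y => F y + G y) =
    fun y => av (ι (0, (W : ℤ))) L F y + av (ι (0, (W : ℤ))) L G y from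
      funext fun y => av_add _ _ F G y]
  exact av_add _ _ _ _ x

theorem mn_sqa (ι : ℤ × ℤ →+ A) (W : ℕ) {L : ℕ} (hL : 1 ≤ L) (F : A → ℝ) : mn (sqa ι W L F) = mn F := by
  unfold sqa
  rw [mn_av hL, mn_av hL]

theorem PP_mem {ι : ℤ × ℤ →+ A} {W L : ℕ} {F : A → ℝ} (h0 : ∀ x, 0 ≤ F x) (h1 : ∀ x, F x ≤ 1) (x : A) :
    0 ≤ PP ι W L F x ∧ PP ι W L F x ≤ 1 := by
  have hb : ∀ (w : A) (G : A → ℝ), (∀ y, 0 ≤ G y ∧ G y ≤ 1) → ∀ y, 0 ≤ av w L G y ∧ av w L G y ≤ 1 := by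
    intro w G hG y
    refine ⟨av_nonneg (fun z => (hG z).1) y, ?_⟩
    have h2 := av_abs_le (w := w) (L := L) (F := G) (B := 1) (by norm_num)
      (fun z => by rw [abs_of_nonneg (hG z).1]; exact (hG z).2) y
    exact (le_abs_self _).trans h2
  unfold PP sqb sqa
  exact hb _ _ (hb _ _ (hb _ _ (hb _ _ (fun y => ⟨h0 y, h1 y⟩)))) x

private theorem Sq_adj (ι : ℤ × ℤ →+ A) (W L : ℕ) (F G : A → ℝ) :
    mn (fun x => sqa ι W L F x * G x) = mn (fun x => F x * sqb ι W L G x) := by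
  unfold sqa sqb
  rw [av_adj, av_adj, av_comm]

/-- `⟨F, P F⟩ = ‖sqa F‖² ≥ (mean F)²` -/
theorem mn_mul_PP (ι : ℤ × ℤ →+ A) (W : ℕ) {L : ℕ} (hL : 1 ≤ L) (F : A → ℝ) :
    mn F ^ 2 ≤ mn (fun x => F x * PP ι W L F x) := by
  have h1 := Sq_adj ι W L F (sqa ι W L F)
  have h2 : (fun x => F x * PP ι W L F x) = fun x => F x * sqb ι W L (sqa ι W L F) x := rfl
  rw [h2, ← h1]
  have h3 : (fun x => sqa ι W L F x * sqa ι W L F x) = fun x => sqa ι W L F x ^ 2 := by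
    funext x
    ring
  rw [h3, ← mn_sqa ι W hL F]
  exact mn_sq_le _

/-- energy: `‖F - P F‖² ≤ ‖F‖² - ‖P F‖²`.  Proof: `‖F - PF‖² = ‖F‖² - 2⟨F, PF⟩ + ‖PF‖²`,
`⟨F, PF⟩ = ‖sqa F‖² ≥ ‖sqb (sqa F)‖² = ‖PF‖²` (`av_adj`, `av_comm`, `mn_av_sq_le`). -/
theorem PP_energy (ι : ℤ × ℤ →+ A) (W L : ℕ) (F : A → ℝ) :
    mn (fun x => (F x - PP ι W L F x) ^ 2) ≤ mn (fun x => F x ^ 2) - mn (fun x => PP ι W L F x ^ 2) := by
  have h1 := Sq_adj ι W L F (sqa ι W L F)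
  have h2 : mn (fun x => sqb ι W L (sqa ι W L F) x ^ 2) ≤ mn (fun x => sqa ι W L F x ^ 2) := by
    unfold sqb
    exact (mn_av_sq_le _ _ _).trans (mn_av_sq_le _ _ _)
  have h3 : (fun x => sqa ι W L F x * sqa ι W L F x) = fun x => sqa ι W L F x ^ 2 := by
    funext x
    ring
  rw [h3] at h1
  have h4 : mn (fun x => (F x - PP ι W L F x) ^ 2) =
      mn (fun x => F x ^ 2) - 2 * mn (fun x => F x * PP ι W L F x) + mn (fun x => PP ι W L F x ^ 2) := by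
    rw [← mn_smul, ← mn_sub, ← mn_add]
    congr 1
    funext x
    ring
  have h5 : mn (fun x => F x * PP ι W L F x) = mn (fun x => F x * sqb ι W L (sqa ι W L F) x) := rfl
  have h6 : mn (fun x => PP ι W L F x ^ 2) = mn (fun x => sqb ι W L (sqa ι W L F) x ^ 2) := rfl
  rw [h4, h5, ← h1, h6]
  linarith

/-- `sqa` and `PP` are almost invariant under small shifts (`av_shift` for the two directions; `sqa` commutes with
`av`; for `PP` apply `av_abs_le` to the function `sqa F (· + a) - sqa F`, using `av_trans`) -/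
theorem sqa_shift {ι : ℤ × ℤ →+ A} {W L : ℕ} {F : A → ℝ} {B : ℝ} (h : ∀ x, |F x| ≤ B) (v : ℤ × ℤ) (x : A) :
    |sqa ι W L F (x + ι ((W : ℤ) * v.1, (W : ℤ) * v.2)) - sqa ι W L F x| ≤
      2 * B * (|(v.1 : ℝ)| + |(v.2 : ℝ)|) / L := by
  have hB : 0 ≤ B := (abs_nonneg _).trans (h x)
  rw [Sq_iota_int ι W v.1 v.2]
  have e0 : x + (v.1 • ι ((W : ℤ), 0) + v.2 • ι (0, (W : ℤ))) =
      (x + v.2 • ι (0, (W : ℤ))) + v.1 • ι ((W : ℤ), 0) := by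
    abel
  rw [e0]
  have h1 : |sqa ι W L F ((x + v.2 • ι (0, (W : ℤ))) + v.1 • ι ((W : ℤ), 0)) -
      sqa ι W L F (x + v.2 • ι (0, (W : ℤ)))| ≤ 2 * B * |(v.1 : ℝ)| / L := by
    unfold sqa
    exact av_shift (fun y => av_abs_le hB h y) v.1 _
  have h2 : |sqa ι W L F (x + v.2 • ι (0, (W : ℤ))) - sqa ι W L F x| ≤ 2 * B * |(v.2 : ℝ)| / L := by
    unfold sqa
    rw [av_comm]
    exact av_shift (fun y => av_abs_le hB h y) v.2 _
  have h3 : 2 * B * (|(v.1 : ℝ)| + |(v.2 : ℝ)|) / L = 2 * B * |(v.1 : ℝ)| / L + 2 * B * |(v.2 : ℝ)| / L := by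
    ring
  rw [h3]
  calc |sqa ι W L F ((x + v.2 • ι (0, (W : ℤ))) + v.1 • ι ((W : ℤ), 0)) - sqa ι W L F x|
      = |(sqa ι W L F ((x + v.2 • ι (0, (W : ℤ))) + v.1 • ι ((W : ℤ), 0)) -
          sqa ι W L F (x + v.2 • ι (0, (W : ℤ)))) +
          (sqa ι W L F (x + v.2 • ι (0, (W : ℤ))) - sqa ι W L F x)| := by
        congr 1
        ring
    _ ≤ _ := (abs_add_le _ _).trans (add_le_add h1 h2)

theorem PP_shift {ι : ℤ × ℤ →+ A} {W L : ℕ} {F : A → ℝ} {B : ℝ} (hB : 0 ≤ B) (h : ∀ x, |F x| ≤ B)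
    (v : ℤ × ℤ) (x : A) :
    |PP ι W L F (x + ι ((W : ℤ) * v.1, (W : ℤ) * v.2)) - PP ι W L F x| ≤
      2 * B * (|(v.1 : ℝ)| + |(v.2 : ℝ)|) / L := by
  have hv : 0 ≤ 2 * B * (|(v.1 : ℝ)| + |(v.2 : ℝ)|) / L := by positivity
  have h1 : PP ι W L F (x + ι ((W : ℤ) * v.1, (W : ℤ) * v.2)) - PP ι W L F x =
      sqb ι W L (fun y => sqa ι W L F (y + ι ((W : ℤ) * v.1, (W : ℤ) * v.2)) - sqa ι W L F y) x := by
    have h2 : ∀ G : A → ℝ, ∀ a : A, sqb ι W L (fun y => G (y + a) - G y) x =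
        sqb ι W L G (x + a) - sqb ι W L G x := by
      intro G a
      unfold sqb
      rw [show av (-ι (0, (W : ℤ))) L (fun y => G (y + a) - G y) =
        fun y => av (-ι (0, (W : ℤ))) L G (y + a) - av (-ι (0, (W : ℤ))) L G y from
          funext fun y => by rw [← av_trans]; exact av_sub _ _ _ _ y]
      rw [← av_trans]
      exact av_sub _ _ _ _ x
    rw [h2]
    rfl
  rw [h1]
  unfold sqb
  exact av_abs_le hv (fun y => av_abs_le hv (fun z => sqa_shift h v z) y) x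

/-- `PP` as an average over `gbox L' × gbox L'`: if a function `Y` has
`|Y (x + ι (W' (s - t))) - Y x| ≤ e` for all `s, t ∈ [0,L')²`, then `|PP ι W' L' Y x - Y x| ≤ e`. -/
theorem PP_near {ι : ℤ × ℤ →+ A} {W' L' : ℕ} (hL : 1 ≤ L') {Y : A → ℝ} {e : ℝ} (x : A)
    (h : ∀ v : ℤ × ℤ, |v.1| ≤ L' → |v.2| ≤ L' →
      |Y (x + ι ((W' : ℤ) * v.1, (W' : ℤ) * v.2)) - Y x| ≤ e) :
    |PP ι W' L' Y x - Y x| ≤ e := by
  have hL0 : (0 : ℝ) < L' := by exact_mod_cast hL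
  have hb : ∀ (F : A → ℝ) (y : A), sqb ι W' L' F y =
      (∑ t ∈ gbox L', F (y - ι ((W' : ℤ) * t.1, (W' : ℤ) * t.2))) / (L' : ℝ) ^ 2 := by
    intro F y
    have h1 := sqa_eq (-ι) W' L' F y
    have h2 : sqa (-ι) W' L' F y = sqb ι W' L' F y := rfl
    rw [h2] at h1
    rw [h1]
    congr 1
    apply Finset.sum_congr rfl
    intro t _
    rw [AddMonoidHom.neg_apply, sub_eq_add_neg]
  have hcard : ((gbox L').card : ℝ) = (L' : ℝ) ^ 2 := by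
    unfold gbox
    rw [Finset.card_product, Finset.card_range]
    push_cast
    ring
  have hexp : PP ι W' L' Y x - Y x = (∑ t ∈ gbox L', ∑ s ∈ gbox L',
      (Y (x - ι ((W' : ℤ) * t.1, (W' : ℤ) * t.2) + ι ((W' : ℤ) * s.1, (W' : ℤ) * s.2)) - Y x)) /
        (L' : ℝ) ^ 4 := by
    unfold PP
    rw [hb]
    have h3 : ∀ t ∈ gbox L', sqa ι W' L' Y (x - ι ((W' : ℤ) * t.1, (W' : ℤ) * t.2)) =
        (∑ s ∈ gbox L', Y (x - ι ((W' : ℤ) * t.1, (W' : ℤ) * t.2) +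
          ι ((W' : ℤ) * s.1, (W' : ℤ) * s.2))) / (L' : ℝ) ^ 2 := fun t _ => sqa_eq ι W' L' Y _
    rw [Finset.sum_congr rfl h3, ← Finset.sum_div]
    simp only [Finset.sum_sub_distrib, Finset.sum_const, nsmul_eq_mul]
    rw [hcard]
    field_simp
  rw [hexp, abs_div, abs_of_pos (by positivity : (0 : ℝ) < (L' : ℝ) ^ 4), div_le_iff₀ (by positivity)]
  calc |∑ t ∈ gbox L', ∑ s ∈ gbox L',
      (Y (x - ι ((W' : ℤ) * t.1, (W' : ℤ) * t.2) + ι ((W' : ℤ) * s.1, (W' : ℤ) * s.2)) - Y x)|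
      ≤ ∑ t ∈ gbox L', |∑ s ∈ gbox L',
      (Y (x - ι ((W' : ℤ) * t.1, (W' : ℤ) * t.2) + ι ((W' : ℤ) * s.1, (W' : ℤ) * s.2)) - Y x)| :=
        Finset.abs_sum_le_sum_abs _ _
    _ ≤ ∑ t ∈ gbox L', ∑ s ∈ gbox L', e := by
        apply Finset.sum_le_sum
        intro t ht
        refine (Finset.abs_sum_le_sum_abs _ _).trans ?_
        apply Finset.sum_le_sum
        intro s hs
        unfold gbox at ht hs
        rw [Finset.mem_product, Finset.mem_range, Finset.mem_range] at ht hs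
        have h4 := h ((s.1 : ℤ) - t.1, (s.2 : ℤ) - t.2) (by rw [abs_le]; constructor <;> simp only <;> omega)
          (by rw [abs_le]; constructor <;> simp only <;> omega)
        have h5 : x - ι ((W' : ℤ) * t.1, (W' : ℤ) * t.2) + ι ((W' : ℤ) * s.1, (W' : ℤ) * s.2) =
            x + ι ((W' : ℤ) * ((s.1 : ℤ) - t.1), (W' : ℤ) * ((s.2 : ℤ) - t.2)) := by
          have h6 : ((W' : ℤ) * ((s.1 : ℤ) - t.1), (W' : ℤ) * ((s.2 : ℤ) - t.2)) =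
              ((W' : ℤ) * s.1, (W' : ℤ) * s.2) - ((W' : ℤ) * t.1, (W' : ℤ) * t.2) := by
            rw [Prod.mk_sub_mk]
            congr 1 <;> ring
          rw [h6, map_sub]
          abel
        rw [h5]
        exact h4
    _ = e * (L' : ℝ) ^ 4 := by
        rw [Finset.sum_const, Finset.sum_const, nsmul_eq_mul, nsmul_eq_mul, hcard]
        ring

private theorem Sq_PP_av (ι : ℤ × ℤ →+ A) (W L : ℕ) (w : A) (K : ℕ) (G : A → ℝ) :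
    PP ι W L (av w K G) = av w K (PP ι W L G) := by
  change av (-ι ((W : ℤ), 0)) L (av (-ι (0, (W : ℤ))) L (av (ι ((W : ℤ), 0)) L
    (av (ι (0, (W : ℤ))) L (av w K G)))) = av w K (av (-ι ((W : ℤ), 0)) L (av (-ι (0, (W : ℤ))) L
    (av (ι ((W : ℤ), 0)) L (av (ι (0, (W : ℤ))) L G))))
  rw [av_comm (ι (0, (W : ℤ))) w L K G, av_comm (ι ((W : ℤ), 0)) w L K _,
    av_comm (-ι (0, (W : ℤ))) w L K _, av_comm (-ι ((W : ℤ), 0)) w L K _]

private theorem Sq_sqa_av (ι : ℤ × ℤ →+ A) (W L : ℕ) (w : A) (K : ℕ) (G : A → ℝ) :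
    sqa ι W L (av w K G) = av w K (sqa ι W L G) := by
  change av (ι ((W : ℤ), 0)) L (av (ι (0, (W : ℤ))) L (av w K G)) =
    av w K (av (ι ((W : ℤ), 0)) L (av (ι (0, (W : ℤ))) L G))
  rw [av_comm (ι (0, (W : ℤ))) w L K G, av_comm (ι ((W : ℤ), 0)) w L K _]

private theorem Sq_bound (r L' L : ℕ) (v : ℤ × ℤ) (h1 : |v.1| ≤ L') (h2 : |v.2| ≤ L') :
    2 * (1 : ℝ) * (|((((r : ℤ) * v.1, (r : ℤ) * v.2) : ℤ × ℤ).1 : ℝ)| +
      |((((r : ℤ) * v.1, (r : ℤ) * v.2) : ℤ × ℤ).2 : ℝ)|) / L ≤ 4 * r * L' / L := by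
  apply div_le_div_of_nonneg_right _ (Nat.cast_nonneg L)
  have a1 : |(((r : ℤ) * v.1 : ℤ) : ℝ)| ≤ r * L' := by
    push_cast
    rw [abs_mul, abs_of_nonneg (Nat.cast_nonneg (α := ℝ) r)]
    apply mul_le_mul_of_nonneg_left _ (Nat.cast_nonneg r)
    exact_mod_cast h1
  have a2 : |(((r : ℤ) * v.2 : ℤ) : ℝ)| ≤ r * L' := by
    push_cast
    rw [abs_mul, abs_of_nonneg (Nat.cast_nonneg (α := ℝ) r)]
    apply mul_le_mul_of_nonneg_left _ (Nat.cast_nonneg r)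
    exact_mod_cast h2
  simp only
  linarith

/-- nesting: `P_{W,L} P_{W r, L'} = P_{W,L}` up to `4 r L' / L`.  Proof: `PP` commutes with `PP` (`av_comm`), so the left
side is `PP ι (W r) L' (PP ι W L F)`; apply `PP_near` and `PP_shift` (with the vector `r v`). -/
theorem PP_nest {ι : ℤ × ℤ →+ A} {W L r L' : ℕ} (hL : 1 ≤ L') {F : A → ℝ} (h : ∀ x, |F x| ≤ 1) (x : A) :
    |PP ι W L (PP ι (W * r) L' F) x - PP ι W L F x| ≤ 4 * r * L' / L := by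
  have hcomm : PP ι W L (PP ι (W * r) L' F) = PP ι (W * r) L' (PP ι W L F) := by
    change PP ι W L (av (-ι (((W * r : ℕ) : ℤ), 0)) L' (av (-ι (0, ((W * r : ℕ) : ℤ))) L'
      (av (ι (((W * r : ℕ) : ℤ), 0)) L' (av (ι (0, ((W * r : ℕ) : ℤ))) L' F)))) =
      av (-ι (((W * r : ℕ) : ℤ), 0)) L' (av (-ι (0, ((W * r : ℕ) : ℤ))) L'
      (av (ι (((W * r : ℕ) : ℤ), 0)) L' (av (ι (0, ((W * r : ℕ) : ℤ))) L' (PP ι W L F))))
    rw [Sq_PP_av, Sq_PP_av, Sq_PP_av, Sq_PP_av]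
  rw [hcomm]
  apply PP_near hL x
  intro v hv1 hv2
  have h1 := PP_shift (ι := ι) (W := W) (L := L) (F := F) (B := 1) (by norm_num) h
    ((r : ℤ) * v.1, (r : ℤ) * v.2) x
  have e1 : ((W * r : ℕ) : ℤ) * v.1 = (W : ℤ) * ((r : ℤ) * v.1) := by push_cast; ring
  have e2 : ((W * r : ℕ) : ℤ) * v.2 = (W : ℤ) * ((r : ℤ) * v.2) := by push_cast; ring
  rw [e1, e2]
  exact h1.trans (Sq_bound r L' L v hv1 hv2)

theorem sqa_nest {ι : ℤ × ℤ →+ A} {W L r L' : ℕ} (hL : 1 ≤ L') {F : A → ℝ} (h : ∀ x, |F x| ≤ 1) (x : A) :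
    |sqa ι W L (PP ι (W * r) L' F) x - sqa ι W L F x| ≤ 4 * r * L' / L := by
  have hcomm : sqa ι W L (PP ι (W * r) L' F) = PP ι (W * r) L' (sqa ι W L F) := by
    change sqa ι W L (av (-ι (((W * r : ℕ) : ℤ), 0)) L' (av (-ι (0, ((W * r : ℕ) : ℤ))) L'
      (av (ι (((W * r : ℕ) : ℤ), 0)) L' (av (ι (0, ((W * r : ℕ) : ℤ))) L' F)))) =
      av (-ι (((W * r : ℕ) : ℤ), 0)) L' (av (-ι (0, ((W * r : ℕ) : ℤ))) L'
      (av (ι (((W * r : ℕ) : ℤ), 0)) L' (av (ι (0, ((W * r : ℕ) : ℤ))) L' (sqa ι W L F))))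
    rw [Sq_sqa_av, Sq_sqa_av, Sq_sqa_av, Sq_sqa_av]
  rw [hcomm]
  apply PP_near hL x
  intro v hv1 hv2
  have h1 := sqa_shift (ι := ι) (W := W) (L := L) (F := F) (B := 1) h
    ((r : ℤ) * v.1, (r : ℤ) * v.2) x
  have e1 : ((W * r : ℕ) : ℤ) * v.1 = (W : ℤ) * ((r : ℤ) * v.1) := by push_cast; ring
  have e2 : ((W * r : ℕ) : ℤ) * v.2 = (W : ℤ) * ((r : ℤ) * v.2) := by push_cast; ring
  rw [e1, e2]
  exact h1.trans (Sq_bound r L' L v hv1 hv2)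

end

end Pool.Agent.Lib.MP_a768d2_co
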