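import Pool.Agent.Lib.MP_a768d2_co.FMain
import Pool.Agent.Lib.MP_a768d2_coP.Gauss

/-!
# P3: supersaturation of the combinatorial theorem `flat`
-/

namespace Pool.Agent.Lib.MP_a768d2_co

noncomputable section

private theorem Super_box_card (k : ℕ) : (box k).card = k ^ 2 := by
  unfold box
  rw [Finset.card_product, Int.card_Ico]
  simp [sq]

private theorem Super_gm_add (g x y : ℤ × ℤ) (m : ℤ) (u : ℤ × ℤ) (a : ℤ × ℤ)
    (h1 : y.1 - x.1 = m * u.1) (h2 : y.2 - x.2 = m * u.2) :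
    (a + gm g y).1 - (a + gm g x).1 = m * (gm g u).1 ∧
    (a + gm g y).2 - (a + gm g x).2 = m * (gm g u).2 := by
  have e1 : y.1 = x.1 + m * u.1 := by linarith
  have e2 : y.2 = x.2 + m * u.2 := by linarith
  simp only [gm, Prod.fst_add, Prod.snd_add, e1, e2]
  constructor <;> ring

private theorem Super_nz_box {k : ℕ} {x : ℤ × ℤ} (hx : x ∈ box k) : nz x ≤ k := by
  unfold box at hx
  rw [Finset.mem_product, Finset.mem_Ico, Finset.mem_Ico] at hx
  obtain ⟨⟨h1, h2⟩, h3, h4⟩ := hx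
  unfold nz
  rw [abs_of_nonneg h1, abs_of_nonneg h3]
  exact max_le h2.le h4.le

/-- the big box of the translations -/
private def Super_Ab (k : ℕ) : Finset (ℤ × ℤ) :=
  Finset.Ico (-(6 * (k : ℤ))) (7 * k) ×ˢ Finset.Ico (-(6 * (k : ℤ))) (7 * k)

private theorem Super_Ab_card (k : ℕ) : (Super_Ab k).card = 169 * k ^ 2 := by
  unfold Super_Ab
  rw [Finset.card_product, Int.card_Ico]
  have : (7 * (k : ℤ) - -(6 * (k : ℤ))).toNat = 13 * k := by
    have : (7 * (k : ℤ) - -(6 * (k : ℤ))) = ((13 * k : ℕ) : ℤ) := by push_cast; ring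
    rw [this, Int.toNat_natCast]
  rw [this]
  ring

private theorem Super_count {W G k0 k : ℕ} (hW : 1 ≤ W) (hG : 1 ≤ G) (hk0 : 1 ≤ k0)
    (hk : k = W * G * k0) {κ : ℝ} (hκ : 0 < κ) (E : Finset (ℤ × ℤ)) (hE : E ⊆ box k)
    (hEc : κ * (k : ℝ) ^ 2 ≤ E.card) (q : ℕ × ℕ) (hq : q ∈ gbox G) :
    κ * (k : ℝ) ^ 2 / 2 ≤ (((Super_Ab k).filter (fun a => κ / 338 * (k0 : ℝ) ^ 2 ≤
      (((box k0).filter (fun x => a + gm (gg W G q) x ∈ E)).card : ℝ))).card : ℝ) := by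
  classical
  set g := gg W G q with hg
  have h1 : ((k0 : ℝ) ^ 2) * E.card ≤
      ∑ a ∈ Super_Ab k, (((box k0).filter (fun x => a + gm g x ∈ E)).card : ℝ) := by
    have h2 : ∀ x ∈ box k0, E.card ≤ ((Super_Ab k).filter (fun a => a + gm g x ∈ E)).card := by
      intro x hx
      apply Finset.card_le_card_of_injOn (fun z => z - gm g x)
      · intro z hz
        have hz' : z ∈ E := hz
        have hzb := hE hz'
        unfold box at hzb
        rw [Finset.mem_product, Finset.mem_Ico, Finset.mem_Ico] at hzb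
        have hn : nz (gm g x) ≤ 6 * (k : ℤ) := by
          have h3 := nz_gm_le hW hG hq x
          have h4 := Super_nz_box hx
          have h5 : (6 : ℤ) * W * G * nz x ≤ 6 * W * G * k0 :=
            mul_le_mul_of_nonneg_left h4 (by positivity)
          have h6 : (6 : ℤ) * W * G * k0 = 6 * (k : ℤ) := by
            rw [hk]; push_cast; ring
          linarith
        have hn1 : |(gm g x).1| ≤ 6 * (k : ℤ) := le_trans (le_max_left _ _) hn
        have hn2 : |(gm g x).2| ≤ 6 * (k : ℤ) := le_trans (le_max_right _ _) hn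
        rw [abs_le] at hn1 hn2
        rw [Finset.mem_coe, Finset.mem_filter]
        refine ⟨?_, ?_⟩
        · unfold Super_Ab
          rw [Finset.mem_product, Finset.mem_Ico, Finset.mem_Ico]
          simp only [Prod.fst_sub, Prod.snd_sub]
          refine ⟨⟨?_, ?_⟩, ?_, ?_⟩ <;> linarith [hzb.1.1, hzb.1.2, hzb.2.1, hzb.2.2]
        · simpa using hz'
      · intro z _ z' _ h
        simpa using h
    have h3 : ∑ a ∈ Super_Ab k, ((box k0).filter (fun x => a + gm g x ∈ E)).card =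
        ∑ x ∈ box k0, ((Super_Ab k).filter (fun a => a + gm g x ∈ E)).card := by
      simp_rw [Finset.card_filter]
      exact Finset.sum_comm
    have h4 : (box k0).card * E.card ≤
        ∑ x ∈ box k0, ((Super_Ab k).filter (fun a => a + gm g x ∈ E)).card := by
      rw [← smul_eq_mul, ← Finset.sum_const]
      exact Finset.sum_le_sum h2
    rw [← h3, Super_box_card] at h4
    calc ((k0 : ℝ) ^ 2) * E.card = ((k0 ^ 2 * E.card : ℕ) : ℝ) := by push_cast; ring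
      _ ≤ ((∑ a ∈ Super_Ab k, ((box k0).filter (fun x => a + gm g x ∈ E)).card : ℕ) : ℝ) := by
        exact_mod_cast h4
      _ = _ := by push_cast; rfl
  set A := (Super_Ab k).filter (fun a => κ / 338 * (k0 : ℝ) ^ 2 ≤
      (((box k0).filter (fun x => a + gm g x ∈ E)).card : ℝ)) with hA
  have h5 : ∑ a ∈ Super_Ab k, (((box k0).filter (fun x => a + gm g x ∈ E)).card : ℝ) ≤
      ∑ a ∈ Super_Ab k, ((if κ / 338 * (k0 : ℝ) ^ 2 ≤
      (((box k0).filter (fun x => a + gm g x ∈ E)).card : ℝ) then (k0 : ℝ) ^ 2 else 0) +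
        κ / 338 * (k0 : ℝ) ^ 2) := by
    apply Finset.sum_le_sum
    intro a _
    split_ifs with h
    · have h6 : (((box k0).filter (fun x => a + gm g x ∈ E)).card : ℝ) ≤ (k0 : ℝ) ^ 2 := by
        have := Finset.card_filter_le (box k0) (fun x => a + gm g x ∈ E)
        rw [Super_box_card] at this
        exact_mod_cast this
      have : 0 ≤ κ / 338 * (k0 : ℝ) ^ 2 := by positivity
      linarith
    · push Not at h
      linarith
  rw [Finset.sum_add_distrib, ← Finset.sum_filter, Finset.sum_const, Finset.sum_const,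
    nsmul_eq_mul, nsmul_eq_mul, Super_Ab_card, ← hA] at h5
  have hk0' : (0 : ℝ) < (k0 : ℝ) ^ 2 := by
    have : (1 : ℝ) ≤ k0 := by exact_mod_cast hk0
    positivity
  have h7 : (k0 : ℝ) ^ 2 * (κ * (k : ℝ) ^ 2) ≤ (k0 : ℝ) ^ 2 * E.card :=
    mul_le_mul_of_nonneg_left hEc hk0'.le
  push_cast at h5
  have h8 : (k0 : ℝ) ^ 2 * (κ * (k : ℝ) ^ 2 / 2) ≤ (k0 : ℝ) ^ 2 * (A.card : ℝ) := by
    nlinarith
  exact le_of_mul_le_mul_left h8 hk0'

private theorem Super_viol {c : ℝ} (hc : 0 < c) {P W G k0 k : ℕ} (hWP : W = Nat.factorial P)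
    (hG : 1 ≤ G) (hk0 : 1 ≤ k0) (hkP : 2 * k0 ^ 2 ≤ P)
    (hk : k = W * G * k0) (E : Finset (ℤ × ℤ)) (T : ℤ × ℤ → ℝ × ℝ) (q : ℕ × ℕ)
    (hgcd : Int.gcd (gg W G q).1 (gg W G q).2 = 1) (a : ℤ × ℤ)
    (hav : ¬ Avoid (c / 2) 0 k0 ((box k0).filter (fun x => a + gm (gg W G q) x ∈ E))
      (fun x => gc (gg W G q) (T (a + gm (gg W G q) x)))) :
    ∃ x ∈ box k0, ∃ z ∈ E, ∃ w ∈ E, ∃ (u : ℤ × ℤ) (m : ℤ), a = z - gm (gg W G q) x ∧
        Int.gcd u.1 u.2 = 1 ∧ nz u ≤ k0 ∧ m ≠ 0 ∧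
        Int.gcd (gm (gg W G q) u).1 (gm (gg W G q) u).2 = 1 ∧
        w.1 - z.1 = m * (gm (gg W G q) u).1 ∧
        w.2 - z.2 = m * (gm (gg W G q) u).2 ∧
        dz (cr (gm (gg W G q) u) (T w - T z)) <
          c * ((m : ℝ) * nz (gm (gg W G q) u)) ^ 2 / (k : ℝ) ^ 2 := by
  classical
  set g := gg W G q with hg
  have hW : 1 ≤ W := by rw [hWP]; exact Nat.factorial_pos P
  unfold Avoid at hav
  push Not at hav
  obtain ⟨x, hx, y, hy, hxy, u, m, hu, hy1, hy2, hlt⟩ := hav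
  rw [Finset.mem_filter] at hx hy
  have hm : m ≠ 0 := by
    rintro rfl
    apply hxy
    ext
    · linarith
    · linarith
  have hnu0 : 0 ≤ nz u := le_trans (abs_nonneg _) (le_max_left _ _)
  have hnu : nz u ≤ k0 := by
    have hx1 := hx.1
    have hy1' := hy.1
    unfold box at hx1 hy1'
    rw [Finset.mem_product, Finset.mem_Ico, Finset.mem_Ico] at hx1 hy1'
    have hm1 : 1 ≤ |m| := Int.one_le_abs hm
    have e1 : |u.1| ≤ |m| * |u.1| := le_mul_of_one_le_left (abs_nonneg _) hm1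
    have e2 : |u.2| ≤ |m| * |u.2| := le_mul_of_one_le_left (abs_nonneg _) hm1
    rw [← abs_mul, ← hy1] at e1
    rw [← abs_mul, ← hy2] at e2
    unfold nz
    apply max_le
    · refine le_trans e1 ?_
      rw [abs_le]
      constructor <;> linarith [hx1.1.1, hx1.1.2, hy1'.1.1, hy1'.1.2]
    · refine le_trans e2 ?_
      rw [abs_le]
      constructor <;> linarith [hx1.2.1, hx1.2.2, hy1'.2.1, hy1'.2.2]
  have huP : 2 * nz u ^ 2 ≤ (P : ℤ) := by
    have h1 : nz u ^ 2 ≤ (k0 : ℤ) ^ 2 := pow_le_pow_left₀ hnu0 hnu 2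
    have h2 : ((2 * k0 ^ 2 : ℕ) : ℤ) ≤ (P : ℤ) := by exact_mod_cast hkP
    push_cast at h2
    linarith
  obtain ⟨hw1, hw2⟩ := Super_gm_add g x y m u a hy1 hy2
  refine ⟨x, hx.1, a + gm g x, hx.2, a + gm g y, hy.2, u, m, by simp, hu, hnu, hm, ?_, hw1, hw2, ?_⟩
  · apply gcd_gm (P := P) hgcd _ _ hu huP
    · rw [← hWP]
      refine ⟨(G + q.1 : ℕ), ?_⟩
      rw [hg]
      simp only [gg]
      push_cast
      ring
    · rw [← hWP]
      refine ⟨(q.2 + 1 : ℕ), ?_⟩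
      rw [hg]
      simp only [gg]
      push_cast
      ring
  · rw [cr_gm, gc_sub]
    refine lt_of_le_of_lt (b := dz (cr u (gc g (T (a + gm g y)) - gc g (T (a + gm g x)))) + 0 * nz u)
      (by simp) (lt_of_lt_of_le hlt ?_)
    have hge := nz_gm_ge W G q u
    rw [← hg] at hge
    have hgeR : ((nz u : ℝ) * (W * G)) ^ 2 ≤ 2 * (nz (gm g u) : ℝ) ^ 2 := by exact_mod_cast hge
    have hk0' : (0 : ℝ) < (k0 : ℝ) := by exact_mod_cast hk0
    have hWG : (0 : ℝ) < (W : ℝ) * G := by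
      have h1 : (1 : ℝ) ≤ W := by exact_mod_cast hW
      have h2 : (1 : ℝ) ≤ G := by exact_mod_cast hG
      positivity
    have hkR : (k : ℝ) = (W : ℝ) * G * k0 := by rw [hk]; push_cast; ring
    rw [hkR, div_le_div_iff₀ (by positivity) (by positivity)]
    have h9 : 0 ≤ c * (m : ℝ) ^ 2 * (k0 : ℝ) ^ 2 := by positivity
    have h10 := mul_le_mul_of_nonneg_left hgeR h9
    nlinarith

/-- SUPERSATURATION.  Proof.  Let `k0` be the `k` given by `flat (c/2) (κ/338)` and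
`δ = κ / (8 k0² (2 k0 + 1)²)`.  Put `W = P!`, `k = W G k0`, `g(q) = gg W G q`, `T'(x) = gc g (T (a + g x))`,
`E'(a,q) = {x ∈ box k0 : a + gm g x ∈ E}`.
(1) For fixed `q` and `x ∈ box k0` the number of `a ∈ ℤ²` with `a + gm g x ∈ E` is `|E|`; all these `a` lie in
`[-6k, 7k)²`, as `nz (gm g x) ≤ 6 W G k0 = 6 k` (`nz_gm_le`).  So `∑_a |E'(a,q)| = k0² |E| ≥ κ k0² k²`, the sum over the at
most `169 k²` values of `a`; hence the number `A_q` of `a` with `|E'(a,q)| ≥ (κ/338) k0²` satisfies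
`A_q k0² + 169 k² (κ/338) k0² ≥ κ k0² k²`, so `A_q ≥ κ k²/2`.
(2) For such `a, q`, with `g` primitive, `¬ Avoid (c/2) 0 k0 E' T'` gives `x ≠ y` in `E'`, `u` primitive, `m` with
`y - x = m u`; `m ≠ 0`, `nz u ≤ k0` (as `|m| nz u = nz (y-x) < k0`), `dz (cr u (T' y - T' x)) < (c/2) (m nz u)²/k0²`.
With `z = a + g x`, `w = a + g y`: `w - z = m (g u)`, `cr u (T' y - T' x) = cr (g u) (T w - T z)`
(`cr_gm`, `gc_sub`), and `(m nz u)²/k0² ≤ 2 (m nz (g u))²/k²` by `nz_gm_ge`; `gcd (g u) = 1` by `gcd_gm`.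
(3) Suppose that the conclusion fails: for all these violating pairs `q ∈ B z u`.  The number of pairs `(a,q)`, `q` primitive
(at least `G²/2` of them by `gg_prim_card`), `|E'(a,q)|` large, is at least `κ k² G²/4`.  For each of them choose
`(x, y, u, m)` as in (2); the map `(a,q) ↦ (x, u, z, q)`, `z = a + g x`, is injective (`a = z - g x`); its image is in the
set of `(x, u, z, q)` with `x ∈ box k0`, `|u.1|, |u.2| ≤ k0`, `z ∈ E`, `q ∈ B z u`, which has at most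
`k0² (2 k0+1)² k² δ G² = κ k² G²/8` elements (`|E| ≤ k²`).  Contradiction, as `κ k² G² > 0`. -/
theorem super (c κ : ℝ) (hc : 0 < c) (hκ : 0 < κ) : ∃ k0 : ℕ, 1 ≤ k0 ∧ ∃ δ : ℝ, 0 < δ ∧
    ∀ P : ℕ, 16 ≤ P → 2 * k0 ^ 2 ≤ P → ∀ G : ℕ, 1 ≤ G → ∀ k : ℕ, k = Nat.factorial P * G * k0 →
    ∀ (E : Finset (ℤ × ℤ)) (T : ℤ × ℤ → ℝ × ℝ), E ⊆ box k → κ * (k : ℝ) ^ 2 ≤ E.card →
    ∀ B : ℤ × ℤ → ℤ × ℤ → Finset (ℕ × ℕ),
      (∀ z ∈ E, ∀ u : ℤ × ℤ, nz u ≤ k0 → Int.gcd u.1 u.2 = 1 →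
        ((B z u).card : ℝ) ≤ δ * (G : ℝ) ^ 2) →
      ∃ z ∈ E, ∃ w ∈ E, ∃ (u : ℤ × ℤ) (m : ℤ), ∃ q ∈ gbox G,
        Int.gcd u.1 u.2 = 1 ∧ nz u ≤ k0 ∧ m ≠ 0 ∧ q ∉ B z u ∧
        Int.gcd (gm (gg (Nat.factorial P) G q) u).1 (gm (gg (Nat.factorial P) G q) u).2 = 1 ∧
        w.1 - z.1 = m * (gm (gg (Nat.factorial P) G q) u).1 ∧
        w.2 - z.2 = m * (gm (gg (Nat.factorial P) G q) u).2 ∧
        dz (cr (gm (gg (Nat.factorial P) G q) u) (T w - T z)) <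
          c * ((m : ℝ) * nz (gm (gg (Nat.factorial P) G q) u)) ^ 2 / (k : ℝ) ^ 2 := by
  classical
  obtain ⟨k0, hk0, hflat⟩ := flat (c / 2) (κ / 338) (by positivity) (by positivity)
  have hk0R : (1 : ℝ) ≤ k0 := by exact_mod_cast hk0
  refine ⟨k0, hk0, κ / (8 * (k0 : ℝ) ^ 2 * (2 * k0 + 1) ^ 2), by positivity, ?_⟩
  intro P hP16 hkP G hG k hk E T hE hEc B hB
  by_contra hcon
  push Not at hcon
  set W := Nat.factorial P with hW
  have hW1 : 1 ≤ W := Nat.factorial_pos P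
  set Q := (gbox G).filter (fun q => Int.gcd (gg W G q).1 (gg W G q).2 = 1) with hQ
  have hQc : (G : ℝ) ^ 2 / 2 ≤ (Q.card : ℝ) := gg_prim_card hP16 hG
  set Aq : ℕ × ℕ → Finset (ℤ × ℤ) := fun q => (Super_Ab k).filter (fun a => κ / 338 * (k0 : ℝ) ^ 2 ≤
      (((box k0).filter (fun x => a + gm (gg W G q) x ∈ E)).card : ℝ)) with hAq
  set U : Finset (ℤ × ℤ) := (Finset.Icc (-(k0 : ℤ)) k0 ×ˢ Finset.Icc (-(k0 : ℤ)) k0).filter
    (fun u => nz u ≤ k0 ∧ Int.gcd u.1 u.2 = 1) with hU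
  set Tgt : Finset ((_ : (ℤ × ℤ) × (ℤ × ℤ) × (ℤ × ℤ)) × (ℕ × ℕ)) :=
    (box k0 ×ˢ (U ×ˢ E)).sigma (fun p => B p.2.2 p.2.1) with hTgt
  set Src : Finset ((_ : ℕ × ℕ) × (ℤ × ℤ)) := Q.sigma Aq with hSrc
  have key : ∀ p ∈ Src, ∃ t ∈ Tgt, t.2 = p.1 ∧ p.2 = t.1.2.2 - gm (gg W G t.2) t.1.1 := by
    rintro ⟨q, a⟩ hp
    rw [hSrc, Finset.mem_sigma] at hp
    obtain ⟨hq, ha⟩ := hp
    simp only at hq ha
    rw [hQ, Finset.mem_filter] at hq
    rw [hAq, Finset.mem_filter] at ha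
    have hav := hflat ((box k0).filter (fun x => a + gm (gg W G q) x ∈ E))
      (fun x => gc (gg W G q) (T (a + gm (gg W G q) x))) (Finset.filter_subset _ _) ha.2
    obtain ⟨x, hx, z, hz, w, hw, u, m, haz, hu, hnu, hm, hgu, hw1, hw2, hdz⟩ :=
      Super_viol hc (P := P) hW hG hk0 hkP hk E T q hq.2 a hav
    have hqB : q ∈ B z u := by
      by_contra hqB
      exact absurd hdz (not_lt.mpr (hcon z hz w hw u m q hq.1 hu hnu hm hqB hgu hw1 hw2))
    refine ⟨⟨(x, u, z), q⟩, ?_, rfl, haz⟩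
    rw [hTgt, Finset.mem_sigma]
    refine ⟨?_, hqB⟩
    simp only [Finset.mem_product]
    refine ⟨hx, ?_, hz⟩
    rw [hU, Finset.mem_filter, Finset.mem_product, Finset.mem_Icc, Finset.mem_Icc]
    have h1 : |u.1| ≤ (k0 : ℤ) := le_trans (le_max_left _ _) hnu
    have h2 : |u.2| ≤ (k0 : ℤ) := le_trans (le_max_right _ _) hnu
    rw [abs_le] at h1 h2
    exact ⟨⟨h1, h2⟩, hnu, hu⟩
  choose! f hf1 hf2 hf3 using key
  have hcard : Src.card ≤ Tgt.card := by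
    apply Finset.card_le_card_of_injOn f (fun p hp => hf1 p hp)
    intro p hp p' hp' h
    have e1 : p.1 = p'.1 := by rw [← hf2 p hp, ← hf2 p' hp', h]
    have e2 : p.2 = p'.2 := by rw [hf3 p hp, hf3 p' hp', h]
    exact Sigma.ext e1 (heq_of_eq e2)
  have hSrcc : κ * (k : ℝ) ^ 2 * (G : ℝ) ^ 2 / 4 ≤ (Src.card : ℝ) := by
    rw [hSrc, Finset.card_sigma]
    push_cast
    have h1 : ∀ q ∈ Q, κ * (k : ℝ) ^ 2 / 2 ≤ ((Aq q).card : ℝ) := by
      intro q hq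
      rw [hQ, Finset.mem_filter] at hq
      exact Super_count hW1 hG hk0 hk hκ E hE hEc q hq.1
    have h2 := Finset.sum_le_sum h1
    rw [Finset.sum_const, nsmul_eq_mul] at h2
    have h3 : 0 ≤ κ * (k : ℝ) ^ 2 / 2 := by positivity
    nlinarith [mul_le_mul_of_nonneg_right hQc h3]
  have hUc : (U.card : ℝ) ≤ (2 * (k0 : ℝ) + 1) ^ 2 := by
    have h1 : U.card ≤ (Finset.Icc (-(k0 : ℤ)) k0 ×ˢ Finset.Icc (-(k0 : ℤ)) (k0 : ℤ)).card :=
      Finset.card_filter_le _ _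
    rw [Finset.card_product, Int.card_Icc] at h1
    have h2 : ((k0 : ℤ) + 1 - -(k0 : ℤ)).toNat = 2 * k0 + 1 := by
      have : ((k0 : ℤ) + 1 - -(k0 : ℤ)) = ((2 * k0 + 1 : ℕ) : ℤ) := by push_cast; ring
      rw [this, Int.toNat_natCast]
    rw [h2] at h1
    have h3 : (U.card : ℝ) ≤ (((2 * k0 + 1) * (2 * k0 + 1) : ℕ) : ℝ) := by exact_mod_cast h1
    push_cast at h3
    nlinarith
  have hEk : (E.card : ℝ) ≤ (k : ℝ) ^ 2 := by
    have h1 := Finset.card_le_card hE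
    rw [Super_box_card] at h1
    exact_mod_cast h1
  have hTgtc : (Tgt.card : ℝ) ≤ κ * (k : ℝ) ^ 2 * (G : ℝ) ^ 2 / 8 := by
    rw [hTgt, Finset.card_sigma]
    push_cast
    have h1 : ∀ p ∈ box k0 ×ˢ (U ×ˢ E), ((B p.2.2 p.2.1).card : ℝ) ≤
        κ / (8 * (k0 : ℝ) ^ 2 * (2 * k0 + 1) ^ 2) * (G : ℝ) ^ 2 := by
      rintro ⟨x, u, z⟩ hp
      simp only [Finset.mem_product] at hp
      obtain ⟨_, hu, hz⟩ := hp
      rw [hU, Finset.mem_filter] at hu
      exact hB z hz u hu.2.1 hu.2.2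
    have h2 := Finset.sum_le_sum h1
    rw [Finset.sum_const, nsmul_eq_mul, Finset.card_product, Finset.card_product,
      Super_box_card] at h2
    push_cast at h2
    refine h2.trans ?_
    have h3 : (U.card : ℝ) * E.card ≤ (2 * (k0 : ℝ) + 1) ^ 2 * (k : ℝ) ^ 2 :=
      mul_le_mul hUc hEk (Nat.cast_nonneg _) (by positivity)
    have h4 : (k0 : ℝ) ^ 2 * ((U.card : ℝ) * E.card) ≤
        (k0 : ℝ) ^ 2 * ((2 * (k0 : ℝ) + 1) ^ 2 * (k : ℝ) ^ 2) :=
      mul_le_mul_of_nonneg_left h3 (by positivity)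
    have h5 : 0 ≤ κ / (8 * (k0 : ℝ) ^ 2 * (2 * k0 + 1) ^ 2) * (G : ℝ) ^ 2 := by positivity
    refine (mul_le_mul_of_nonneg_right h4 h5).trans (le_of_eq ?_)
    field_simp
  have hkpos : (0 : ℝ) < k := by
    rw [hk]
    have : 0 < W * G * k0 := by positivity
    exact_mod_cast this
  have hGpos : (0 : ℝ) < G := by exact_mod_cast hG
  have hpos : 0 < κ * (k : ℝ) ^ 2 * (G : ℝ) ^ 2 := by positivity
  have hcardR : (Src.card : ℝ) ≤ (Tgt.card : ℝ) := by exact_mod_cast hcard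
  linarith

end

end Pool.Agent.Lib.MP_a768d2_co
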