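import Pool.Agent.Lib.MP_a768d2_coP.Sq

/-!
# P3: row averages in a random Gaussian direction
-/

namespace Pool.Agent.Lib.MP_a768d2_co

noncomputable section

variable {A : Type} [AddCommGroup A] [Fintype A]

/-- the step of the rows: `W g(q) u` -/
def stp (W W0 G : ℕ) (u : ℤ × ℤ) (q : ℕ × ℕ) : ℤ × ℤ :=
  ((W : ℤ) * (gm (gg W0 G q) u).1, (W : ℤ) * (gm (gg W0 G q) u).2)

private theorem Unif_card (G : ℕ) : ((gbox G).card : ℝ) = (G : ℝ) ^ 2 := by
  unfold gbox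
  rw [Finset.card_product, Finset.card_range]
  push_cast
  ring

/-- off diagonal terms -/
private theorem Unif_off {G : ℕ} (hG : 1 ≤ G) {φ : A → ℝ} (hφ : ∀ x, |φ x| ≤ 1) (w : ℕ × ℕ → A) {e : ℝ} {r : ℕ}
    (hk : ∀ x, |(∑ q ∈ gbox G, φ (x + r • w q)) / (G : ℝ) ^ 2| ≤ e) :
    (∑ q ∈ gbox G, mn (fun x => φ x * φ (x + r • w q))) / (G : ℝ) ^ 2 ≤ e := by
  have hG2 : (0 : ℝ) < (G : ℝ) ^ 2 := by positivity
  have e1 : (∑ q ∈ gbox G, mn (fun x => φ x * φ (x + r • w q))) / (G : ℝ) ^ 2 =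
      mn (fun x => φ x * ((∑ q ∈ gbox G, φ (x + r • w q)) / (G : ℝ) ^ 2)) := by
    rw [← mn_sum (gbox G) (fun q x => φ x * φ (x + r • w q)), div_eq_inv_mul, ← mn_smul]
    congr 1
    funext x
    rw [← Finset.mul_sum]
    ring
  rw [e1]
  have he : mn (fun _ : A => e) = e := mn_const e
  rw [← he]
  apply mn_mono
  intro x
  have h1 : φ x * ((∑ q ∈ gbox G, φ (x + r • w q)) / (G : ℝ) ^ 2) ≤
      |φ x| * |(∑ q ∈ gbox G, φ (x + r • w q)) / (G : ℝ) ^ 2| := by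
    rw [← abs_mul]
    exact le_abs_self _
  refine h1.trans ?_
  calc |φ x| * |(∑ q ∈ gbox G, φ (x + r • w q)) / (G : ℝ) ^ 2| ≤ 1 * e :=
        mul_le_mul (hφ x) (hk x) (abs_nonneg _) zero_le_one
    _ = e := one_mul e

/-- SECOND MOMENT.  Proof: `mn_av_sq_eq` for each `q`; sum over `q`, exchange the sums.  The diagonal terms give
`≤ (1/M²) M mn φ² ≤ 1/M`.  For `t > s`, `r = t - s`: `(1/G²) ∑_q mn (φ x φ (x + r w_q)) = mn (φ x · (1/G²) ∑_q φ (x + r w_q))`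
is `≤ e` in absolute value.  For `t < s` translate by `(s - t) w_q` (`mn_shift`) and exchange the two factors. -/
theorem unif {ι : ℤ × ℤ →+ A} {W W0 G M : ℕ} (hG : 1 ≤ G) (hM : 1 ≤ M) {φ : A → ℝ} (hφ : ∀ x, |φ x| ≤ 1)
    {u : ℤ × ℤ} {e : ℝ} (he : 0 ≤ e)
    (hkill : ∀ r : ℕ, 1 ≤ r → r < M → ∀ x, |(∑ q ∈ gbox G, φ (x + r • ι (stp W W0 G u q))) / (G : ℝ) ^ 2| ≤ e) :
    (∑ q ∈ gbox G, mn (fun x => av (ι (stp W W0 G u q)) M φ x ^ 2)) / (G : ℝ) ^ 2 ≤ 1 / M + e := by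
  set w : ℕ × ℕ → A := fun q => ι (stp W W0 G u q) with hw
  have hG2 : (0 : ℝ) < (G : ℝ) ^ 2 := by positivity
  have hM0 : (0 : ℝ) < (M : ℝ) := by positivity
  have hM2 : (0 : ℝ) < (M : ℝ) ^ 2 := by positivity
  have hterm : ∀ s t : ℕ, s < M → t < M →
      (∑ q ∈ gbox G, mn (fun x => φ x * φ (x + ((t : ℤ) - s) • w q))) / (G : ℝ) ^ 2 ≤
        (if s = t then 1 else 0) + e := by
    intro s t hs ht
    rcases lt_trichotomy s t with hst | hst | hst
    · have hr : ∀ q, ((t : ℤ) - s) • w q = (t - s) • w q := by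
        intro q
        have h1 : ((t : ℤ) - s) = ((t - s : ℕ) : ℤ) := by
          rw [Nat.cast_sub hst.le]
        rw [h1, natCast_zsmul]
      rw [if_neg (by omega), zero_add]
      simp only [hr]
      exact Unif_off hG hφ w (hkill (t - s) (by omega) (by omega))
    · subst hst
      rw [if_pos rfl]
      have h1 : ∀ q ∈ gbox G, mn (fun x => φ x * φ (x + ((s : ℤ) - s) • w q)) ≤ 1 := by
        intro q _
        have h2 : mn (fun _ : A => (1 : ℝ)) = 1 := mn_const 1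
        rw [← h2]
        apply mn_mono
        intro x
        rw [sub_self, zero_smul, add_zero]
        have h3 := hφ x
        have h4 : φ x * φ x = |φ x| * |φ x| := (abs_mul_abs_self _).symm
        rw [h4]
        calc |φ x| * |φ x| ≤ 1 * 1 := mul_le_mul h3 h3 (abs_nonneg _) zero_le_one
          _ = 1 := one_mul 1
      have h2 : (∑ q ∈ gbox G, mn (fun x => φ x * φ (x + ((s : ℤ) - s) • w q))) / (G : ℝ) ^ 2 ≤ 1 := by
        rw [div_le_one hG2, ← Unif_card G]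
        calc ∑ q ∈ gbox G, mn (fun x => φ x * φ (x + ((s : ℤ) - s) • w q)) ≤ ∑ _q ∈ gbox G, (1 : ℝ) :=
              Finset.sum_le_sum h1
          _ = ((gbox G).card : ℝ) := by simp
      linarith
    · have hr : ∀ q, mn (fun x => φ x * φ (x + ((t : ℤ) - s) • w q)) =
          mn (fun x => φ x * φ (x + (s - t) • w q)) := by
        intro q
        have h1 : ((t : ℤ) - s) • w q = -((s - t) • w q) := by
          have h2 : ((t : ℤ) - s) = -((s - t : ℕ) : ℤ) := by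
            rw [Nat.cast_sub hst.le]
            ring
          rw [h2, neg_smul, natCast_zsmul]
        rw [← mn_shift (fun x => φ x * φ (x + ((t : ℤ) - s) • w q)) ((s - t) • w q)]
        congr 1
        funext x
        rw [h1, add_neg_cancel_right, mul_comm]
      rw [if_neg (by omega), zero_add]
      simp only [hr]
      exact Unif_off hG hφ w (hkill (s - t) (by omega) (by omega))
  have hexp : (∑ q ∈ gbox G, mn (fun x => av (w q) M φ x ^ 2)) / (G : ℝ) ^ 2 =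
      (∑ s ∈ Finset.range M, ∑ t ∈ Finset.range M,
        (∑ q ∈ gbox G, mn (fun x => φ x * φ (x + ((t : ℤ) - s) • w q))) / (G : ℝ) ^ 2) / (M : ℝ) ^ 2 := by
    have h1 : ∀ q ∈ gbox G, mn (fun x => av (w q) M φ x ^ 2) =
        (∑ s ∈ Finset.range M, ∑ t ∈ Finset.range M,
          mn (fun x => φ x * φ (x + ((t : ℤ) - s) • w q))) / (M : ℝ) ^ 2 := fun q _ => mn_av_sq_eq (w q) M φ
    rw [Finset.sum_congr rfl h1, ← Finset.sum_div, Finset.sum_comm]
    have h2 : ∀ s ∈ Finset.range M, ∑ q ∈ gbox G, ∑ t ∈ Finset.range M,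
        mn (fun x => φ x * φ (x + ((t : ℤ) - s) • w q)) =
        ∑ t ∈ Finset.range M, ∑ q ∈ gbox G, mn (fun x => φ x * φ (x + ((t : ℤ) - s) • w q)) :=
      fun s _ => Finset.sum_comm
    rw [Finset.sum_congr rfl h2]
    simp only [← Finset.sum_div]
    rw [div_div, div_div, mul_comm]
  have hgoal : (∑ q ∈ gbox G, mn (fun x => av (w q) M φ x ^ 2)) / (G : ℝ) ^ 2 ≤ 1 / M + e := by
    rw [hexp]
    have h1 : (∑ s ∈ Finset.range M, ∑ t ∈ Finset.range M,
        (∑ q ∈ gbox G, mn (fun x => φ x * φ (x + ((t : ℤ) - s) • w q))) / (G : ℝ) ^ 2) ≤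
        ∑ s ∈ Finset.range M, ∑ t ∈ Finset.range M, ((if s = t then 1 else 0) + e) := by
      apply Finset.sum_le_sum
      intro s hs
      apply Finset.sum_le_sum
      intro t ht
      exact hterm s t (Finset.mem_range.1 hs) (Finset.mem_range.1 ht)
    have h2 : ∑ s ∈ Finset.range M, ∑ t ∈ Finset.range M, ((if s = t then (1 : ℝ) else 0) + e) =
        M + (M : ℝ) ^ 2 * e := by
      have h3 : ∀ s ∈ Finset.range M, ∑ t ∈ Finset.range M, ((if s = t then (1 : ℝ) else 0) + e) =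
          1 + M * e := by
        intro s hs
        rw [Finset.sum_add_distrib, Finset.sum_ite_eq, if_pos hs, Finset.sum_const, Finset.card_range,
          nsmul_eq_mul]
      rw [Finset.sum_congr rfl h3, Finset.sum_const, Finset.card_range, nsmul_eq_mul]
      ring
    rw [div_le_iff₀ hM2]
    have h3 : (1 / (M : ℝ) + e) * (M : ℝ) ^ 2 = M + (M : ℝ) ^ 2 * e := by
      field_simp
    rw [h3, ← h2]
    exact h1
  exact hgoal

omit [Fintype A] in
private theorem Unif_av2 (w1 w2 : A) (G : ℕ) (F : A → ℝ) (x : A) :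
    (∑ q ∈ gbox G, F (x + q.1 • w1 + q.2 • w2)) / (G : ℝ) ^ 2 = av w1 G (av w2 G F) x := by
  unfold av gbox
  rw [Finset.sum_product, ← Finset.sum_div, div_div, pow_two]

/-- KILLING.  Proof.  `g(q) u = g(0) u + s W0 u + t W0 (i u)` for `q = (s,t)`, `i u = (-u.2, u.1)`.  So the left side is
`|Y (f - P f) (x')|` with `x' = x + r W g(0) u`, `Y = av w1 G ∘ av w2 G`, `w1 = ι (r W W0 u)`, `w2 = ι (r W W0 i u)`,
`P = PP ι W' L'`.  `Y` commutes with `P`, so it is `|Y f (x') - P (Y f) (x')|`; by `PP_near` it suffices that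
`|Y f (x' + W' v) - Y f (x')| ≤ e` for `|v.1|, |v.2| ≤ L'`.  Write `ρ = r W0 N(u) ρ'`; then
`W' (1,0) = ρ' (u.1 (r W W0 u) - u.2 (r W W0 i u))`, `W' (0,1) = ρ' (u.2 (r W W0 u) + u.1 (r W W0 i u))`, so
`W' v = α (r W W0 u) + β (r W W0 i u)` with `|α| + |β| ≤ 4 ρ' L' k0`; `av_shift` twice (for the two factors of `Y`, which
commute) gives `2 (|α| + |β|)/G ≤ 8 ρ' L' k0/G ≤ 8 W' L' k0 / G`. -/
theorem kill {ι : ℤ × ℤ →+ A} {W W0 G r ρ L' k0 : ℕ} (hW : 1 ≤ W) (hG : 1 ≤ G) (hL : 1 ≤ L') {f : A → ℝ}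
    (hf : ∀ x, |f x| ≤ 1) {u : ℤ × ℤ} (hu : Int.gcd u.1 u.2 = 1) (huk : nz u ≤ k0) (hρ : 1 ≤ ρ)
    (hdvd : r * W0 * (u.1 ^ 2 + u.2 ^ 2).toNat ∣ ρ) (x : A) :
    |(∑ q ∈ gbox G, (f (x + r • ι (stp W W0 G u q)) - PP ι (W * ρ) L' f (x + r • ι (stp W W0 G u q)))) /
      (G : ℝ) ^ 2| ≤ 8 * (W * ρ : ℕ) * L' * k0 / G := by
  have hG0 : (0 : ℝ) < (G : ℝ) := by positivity
  set c : ℤ := (r : ℤ) * W * W0 with hc
  set w1 : A := ι (c * u.1, c * u.2) with hw1
  set w2 : A := ι (c * (-u.2), c * u.1) with hw2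
  set x' : A := x + r • ι (stp W W0 G u (0, 0)) with hx'
  have hpos : ∀ q : ℕ × ℕ, x + r • ι (stp W W0 G u q) = x' + q.1 • w1 + q.2 • w2 := by
    intro q
    rw [hx', hw1, hw2, ← map_nsmul, ← map_nsmul, ← map_nsmul, ← map_nsmul, add_assoc, add_assoc,
      ← map_add, ← map_add]
    congr 2
    unfold stp gm gg
    ext
    · simp only [Prod.fst_add, Prod.smul_fst]
      simp only [nsmul_eq_mul, hc]
      push_cast
      ring
    · simp only [Prod.snd_add, Prod.smul_snd]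
      simp only [nsmul_eq_mul, hc]
      push_cast
      ring
  set Y : (A → ℝ) → A → ℝ := fun F => av w1 G (av w2 G F) with hY
  have hcomm1 : ∀ (w : A) (L : ℕ) (F : A → ℝ), Y (av w L F) = av w L (Y F) := by
    intro w L F
    simp only [hY]
    rw [av_comm w2 w G L F, av_comm w1 w G L]
  have hcommP : Y (PP ι (W * ρ) L' f) = PP ι (W * ρ) L' (Y f) := by
    unfold PP sqb sqa
    rw [hcomm1, hcomm1, hcomm1, hcomm1]
  have hsum : (∑ q ∈ gbox G, (f (x + r • ι (stp W W0 G u q)) -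
      PP ι (W * ρ) L' f (x + r • ι (stp W W0 G u q)))) / (G : ℝ) ^ 2 =
      Y f x' - PP ι (W * ρ) L' (Y f) x' := by
    simp only [hpos]
    rw [Finset.sum_sub_distrib, sub_div, Unif_av2, Unif_av2, ← hcommP]
  rw [hsum, abs_sub_comm]
  apply PP_near hL x'
  intro v hv1 hv2
  -- the divisor
  obtain ⟨ρ', hρ'⟩ := hdvd
  set N : ℕ := (u.1 ^ 2 + u.2 ^ 2).toNat with hN
  have hNZ : (N : ℤ) = u.1 ^ 2 + u.2 ^ 2 := by
    rw [hN, Int.toNat_of_nonneg (by positivity)]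
  have hρle : ρ' ≤ ρ := by
    have h1 : 1 ≤ r * W0 * N := by
      rcases Nat.eq_zero_or_pos (r * W0 * N) with h | h
      · rw [h, zero_mul] at hρ'
        omega
      · exact h
    rw [hρ']
    exact Nat.le_mul_of_pos_left _ h1
  set α : ℤ := (ρ' : ℤ) * (u.1 * v.1 + u.2 * v.2) with hα
  set β : ℤ := (ρ' : ℤ) * (u.1 * v.2 - u.2 * v.1) with hβ
  have hvec : ι (((W * ρ : ℕ) : ℤ) * v.1, ((W * ρ : ℕ) : ℤ) * v.2) = α • w1 + β • w2 := by
    rw [hw1, hw2, ← map_zsmul, ← map_zsmul, ← map_add]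
    congr 1
    have hWρ : ((W * ρ : ℕ) : ℤ) = c * ρ' * (u.1 ^ 2 + u.2 ^ 2) := by
      rw [← hNZ, hρ', hc]
      push_cast
      ring
    rw [hWρ]
    ext
    · simp only [Prod.fst_add, Prod.smul_fst, smul_eq_mul, hα, hβ]
      ring
    · simp only [Prod.snd_add, Prod.smul_snd, smul_eq_mul, hα, hβ]
      ring
  rw [hvec]
  have hb1 : ∀ y, |av w2 G f y| ≤ 1 := fun y => av_abs_le zero_le_one hf y
  have hb2 : ∀ y, |av w1 G f y| ≤ 1 := fun y => av_abs_le zero_le_one hf y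
  have h1 : |Y f (x' + β • w2 + α • w1) - Y f (x' + β • w2)| ≤ 2 * 1 * |(α : ℝ)| / G :=
    av_shift hb1 α (x' + β • w2)
  have h2 : |Y f (x' + β • w2) - Y f x'| ≤ 2 * 1 * |(β : ℝ)| / G := by
    have hYc : Y f = av w2 G (av w1 G f) := by
      simp only [hY]
      exact av_comm w1 w2 G G f
    rw [hYc]
    exact av_shift hb2 β x'
  have hx2 : x' + (α • w1 + β • w2) = x' + β • w2 + α • w1 := by
    abel
  rw [hx2]
  have h3 : |Y f (x' + β • w2 + α • w1) - Y f x'| ≤ 2 * 1 * |(α : ℝ)| / G + 2 * 1 * |(β : ℝ)| / G := by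
    have h4 := abs_sub_le (Y f (x' + β • w2 + α • w1)) (Y f (x' + β • w2)) (Y f x')
    linarith
  refine h3.trans ?_
  -- sizes
  have hu1 : |u.1| ≤ k0 := (le_max_left _ _ : |u.1| ≤ nz u).trans huk
  have hu2 : |u.2| ≤ k0 := (le_max_right _ _ : |u.2| ≤ nz u).trans huk
  have hprod : ∀ a b : ℤ, |a| ≤ k0 → |b| ≤ L' → |a * b| ≤ k0 * L' := by
    intro a b ha hb
    rw [abs_mul]
    exact mul_le_mul ha hb (abs_nonneg _) (by positivity)
  have hαb : |α| ≤ ρ' * (2 * (k0 * L')) := by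
    rw [hα, abs_mul, Nat.abs_cast]
    apply mul_le_mul_of_nonneg_left _ (by positivity)
    have h5 := abs_add_le (u.1 * v.1) (u.2 * v.2)
    have h6 := hprod _ _ hu1 hv1
    have h7 := hprod _ _ hu2 hv2
    linarith
  have hβb : |β| ≤ ρ' * (2 * (k0 * L')) := by
    rw [hβ, abs_mul, Nat.abs_cast]
    apply mul_le_mul_of_nonneg_left _ (by positivity)
    have h5 := abs_sub (u.1 * v.2) (u.2 * v.1)
    have h6 := hprod _ _ hu1 hv2
    have h7 := hprod _ _ hu2 hv1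
    linarith
  have hαr : |(α : ℝ)| ≤ ρ' * (2 * (k0 * L')) := by
    have := (Int.cast_le (R := ℝ)).2 hαb
    push_cast at this
    exact this
  have hβr : |(β : ℝ)| ≤ ρ' * (2 * (k0 * L')) := by
    have := (Int.cast_le (R := ℝ)).2 hβb
    push_cast at this
    exact this
  have hρr : (ρ' : ℝ) ≤ (W * ρ : ℕ) := by
    have : ρ' ≤ W * ρ := hρle.trans (Nat.le_mul_of_pos_left _ hW)
    exact_mod_cast this
  rw [← add_div]
  apply div_le_div_of_nonneg_right _ hG0.le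
  have h8 : (ρ' : ℝ) * (2 * (k0 * L')) ≤ (W * ρ : ℕ) * (2 * (k0 * L')) :=
    mul_le_mul_of_nonneg_right hρr (by positivity)
  nlinarith [h8, hαr, hβr]

end

end Pool.Agent.Lib.MP_a768d2_co
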